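import Pool.Agent.Y545.HM.St

/-!
Stable colourings (in the `p`-adic topology): limits, and a greedy construction.
-/

namespace Pool.Agent.T2H49.HTS

open Pool.Agent.Helper446 Pool.Agent.Helper446.Defs Pool.Agent.Helper446.Oracle
open Pool.Agent.Y545.HM

variable {A W : Set ℕ} {k : ℕ}

/-- For every `a > 0` the colour of `a + z` is the same for all `z > 0` that are divisible by a
high power of `p`. -/
def Stb (p : ℕ) (c : ℕ → Fin k) : Prop :=
  ∀ a, 0 < a → ∃ N, ∀ z z', 0 < z → 0 < z' → p ^ N ∣ z → p ^ N ∣ z' → c (a + z) = c (a + z')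

/-- The sums of at most two elements of `X` have one colour. -/
def Hom2 (c : ℕ → Fin k) (X : Set ℕ) : Prop :=
  X.Infinite ∧ 0 ∉ X ∧ ∃ j, (∀ x ∈ X, c x = j) ∧ ∀ x ∈ X, ∀ y ∈ X, x < y → c (x + y) = j

theorem Stb.lim {p : ℕ} (hp : 0 < p) {c : ℕ → Fin k} (h : Stb p c) :
    ∃ Ψ : ℕ → Fin k, ∀ a, 0 < a → ∃ N, ∀ z, 0 < z → p ^ N ∣ z → c (a + z) = Ψ a := by
  classical
  choose! N hN using h
  refine ⟨fun a => c (a + p ^ N a), fun a ha => ⟨N a, fun z hz hd => ?_⟩⟩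
  exact hN a ha z (p ^ N a) hz (by positivity) hd dvd_rfl

section

variable {p : ℕ} {c Ψ : ℕ → Fin k}

theorem lim_shift (hp : 0 < p)
    (hΨ : ∀ a, 0 < a → ∃ N, ∀ z, 0 < z → p ^ N ∣ z → c (a + z) = Ψ a) {a : ℕ} (ha : 0 < a) :
    ∃ N, ∀ z, 0 < z → p ^ N ∣ z → c (a + z) = Ψ a ∧ Ψ (a + z) = Ψ a := by
  obtain ⟨N, hN⟩ := hΨ a ha
  refine ⟨N, fun z hz hd => ⟨hN z hz hd, ?_⟩⟩
  obtain ⟨M, hM⟩ := hΨ (a + z) (by omega)
  have h1 := hM (p ^ (max M N)) (by positivity) (pow_dvd_pow _ (le_max_left _ _))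
  have h2 := hN (z + p ^ (max M N)) (by positivity)
    (Dvd.dvd.add hd (pow_dvd_pow _ (le_max_right _ _)))
  rw [← h1, add_assoc, h2]

/-- a common depth for a list -/
theorem lim_list
    (hΨ : ∀ a, 0 < a → ∃ N, ∀ z, 0 < z → p ^ N ∣ z → c (a + z) = Ψ a) (F : List ℕ)
    (hF : ∀ x ∈ F, 0 < x) : ∃ N, ∀ z, 0 < z → p ^ N ∣ z → ∀ x ∈ F, c (x + z) = Ψ x := by
  induction F with
  | nil => exact ⟨0, fun z _ _ x hx => by simp at hx⟩
  | cons a F ih =>
    obtain ⟨N, hN⟩ := ih fun x hx => hF x (List.mem_cons_of_mem _ hx)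
    obtain ⟨M, hM⟩ := hΨ a (hF a List.mem_cons_self)
    refine ⟨max M N, fun z hz hd x hx => ?_⟩
    rcases List.mem_cons.1 hx with rfl | hx
    · exact hM z hz ((pow_dvd_pow _ (le_max_left _ _)).trans hd)
    · exact hN z hz ((pow_dvd_pow _ (le_max_right _ _)).trans hd) x hx

end

/-- **Greedy construction.** -/
theorem greedy {c : ℕ → Fin k} (hc : Gr W c) {T : ℕ → Prop} (hT : DP W T) (j : Fin k)
    (h : ∀ F : List ℕ, (∀ x ∈ F, T x) → ∃ y, T y ∧ (∀ x ∈ F, x < y) ∧ 0 < y ∧ c y = j ∧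
      ∀ x ∈ F, c (x + y) = j) : ∃ X : Set ℕ, Dec W X ∧ Hom2 c X := by
  classical
  let R : List ℕ → ℕ → Prop := fun F y => (∃ x ∈ F, ¬ T x) ∨
    (T y ∧ (∀ x ∈ F, x < y) ∧ 0 < y ∧ c y = j ∧ ∀ x ∈ F, c (x + y) = j)
  have hR : REIn W fun x : List ℕ × ℕ => R x.1 x.2 := by
    refine REIn.or ?_ (REIn.and ?_ (REIn.and ?_ (REIn.and ?_ (REIn.and ?_ ?_))))
    · exact re_ex_mem (S := fun (_ : List ℕ × ℕ) (x : ℕ) => ¬ T x) (l := fun a => a.1)
        (hT.2.comp (f := fun x : (List ℕ × ℕ) × ℕ => x.2) (by fun_prop)) (by fun_prop)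
    · exact hT.1.comp (f := fun x : List ℕ × ℕ => x.2) (by fun_prop)
    · exact REIn.all_mem (S := fun (a : List ℕ × ℕ) (x : ℕ) => x < a.2) (l := fun a => a.1)
        (REIn.of_re (RE.lt (by fun_prop) (by fun_prop))) (by fun_prop)
    · exact REIn.of_re (RE.lt (by fun_prop) (by fun_prop))
    · exact REIn.comp hc (f := fun x : List ℕ × ℕ => (x.2, j)) (by fun_prop)
    · refine REIn.all_mem (S := fun (a : List ℕ × ℕ) (x : ℕ) => c (x + a.2) = j)
        (l := fun a => a.1) ?_ (by fun_prop)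
      exact REIn.comp hc (f := fun x : (List ℕ × ℕ) × ℕ => (x.2 + x.1.2, j)) (by fun_prop)
  have hex : ∀ F, ∃ y, R F y := by
    intro F
    by_cases hF : ∀ x ∈ F, T x
    · obtain ⟨y, hy⟩ := h F hF
      exact ⟨y, Or.inr hy⟩
    · push Not at hF
      exact ⟨0, Or.inl hF⟩
  obtain ⟨f, hf, hfR⟩ := choice hR hex
  let st : ℕ → List ℕ := fun n => (fun F => f F :: F)^[n] []
  have hst : Gr W st := by
    refine Gr.iter (f := fun F : List ℕ => f F :: F) ?_ []
    exact (Gr.post (g := fun q : ℕ × List ℕ => q.1 :: q.2) (by fun_prop)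
      (hf.pair (Gr.of_comp Computable.id)))
  have hsucc : ∀ n, st (n + 1) = f (st n) :: st n := fun n => by
    simp only [st, Function.iterate_succ_apply']
  have hgood : ∀ n, ∀ x ∈ st n, T x := by
    intro n
    induction n with
    | zero => intro x hx; simp [st] at hx
    | succ n ih =>
      intro x hx
      rw [hsucc] at hx
      rcases List.mem_cons.1 hx with rfl | hx
      · rcases hfR (st n) with ⟨y, hy, hy2⟩ | h1
        · exact absurd (ih y hy) hy2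
        · exact h1.1
      · exact ih x hx
  have hR2 : ∀ n, T (f (st n)) ∧ (∀ x ∈ st n, x < f (st n)) ∧ 0 < f (st n) ∧ c (f (st n)) = j ∧
      ∀ x ∈ st n, c (x + f (st n)) = j := by
    intro n
    rcases hfR (st n) with ⟨y, hy, hy2⟩ | h1
    · exact absurd (hgood n y hy) hy2
    · exact h1
  have hmem : ∀ m n, m < n → f (st m) ∈ st n := by
    intro m n hmn
    induction n with
    | zero => omega
    | succ n ih =>
      rw [hsucc]
      rcases Nat.lt_succ_iff_lt_or_eq.1 hmn with h1 | rfl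
      · exact List.mem_cons_of_mem _ (ih h1)
      · exact List.mem_cons_self
  have hmono : StrictMono fun n => f (st n) := by
    refine strictMono_nat_of_lt_succ fun n => ?_
    exact (hR2 (n + 1)).2.1 _ (hmem n (n + 1) (by omega))
  have hx : Gr W fun n => f (st n) := hf.comp hst
  refine ⟨Set.range fun n => f (st n), range_dec hx hmono, Set.infinite_range_of_injective
    hmono.injective, ?_, j, ?_, ?_⟩
  · rintro ⟨n, hn⟩
    exact (hR2 n).2.2.1.ne' hn
  · rintro x ⟨n, rfl⟩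
    exact (hR2 n).2.2.2.1
  · rintro x ⟨m, rfl⟩ y ⟨n, rfl⟩ hxy
    have hmn : m < n := hmono.lt_iff_lt.1 hxy
    exact (hR2 n).2.2.2.2 _ (hmem m n hmn)

end Pool.Agent.T2H49.HTS
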