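import Pool.Agent.T2H49.HT.ThreeE
import Pool.Agent.T2H49.HT.StabA

/-!
Three colours and sums of at most two elements: a stable colouring that codes the jump.
-/

namespace Pool.Agent.T2H49.HTD

open Pool.Agent.Helper446 Pool.Agent.Helper446.Defs Pool.Agent.Helper446.Oracle
open Pool.Agent.Y545.HM Pool.Agent.T2H49.HT3 Pool.Agent.T2H49.HTS

variable {q : ℕ → ℕ → Bool}

/-- the gap of `u` below the exponent `b` sees `z` -/
def Gt (q : ℕ → ℕ → Bool) (u b z : ℕ) : Prop :=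
  u / 2 ^ b % 2 = 1 ∧ ∃ t, t < b + 1 ∧ (Fst q z t ∧ u % 2 ^ b < 2 ^ t)

theorem Gt.unique {u b b' z : ℕ} (h : Gt q u b z) (h' : Gt q u b' z) : b = b' := by
  by_contra hne
  wlog hlt : b < b' generalizing b b'
  · exact this h' h (Ne.symm hne) (by omega)
  obtain ⟨h1, t, h2, h3, -⟩ := h
  obtain ⟨-, t', -, h3', h4'⟩ := h'
  have h5 := h3.unique h3'
  subst h5
  have h7 := low_ge h1 hlt
  have h8 : 2 ^ t ≤ 2 ^ b := Nat.pow_le_pow_right (by norm_num) (by omega)
  omega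

theorem Gt.lt {u b z : ℕ} (h : Gt q u b z) : b < u := by
  have h1 := h.1
  have h2 : u / 2 ^ b ≠ 0 := by
    intro h3
    rw [h3] at h1
    simp at h1
  have h3 : 2 ^ b ≤ u := by
    by_contra hcon
    exact h2 (Nat.div_eq_of_lt (by omega))
  exact lt_of_lt_of_le Nat.lt_two_pow_self h3

open Classical in
/-- the number of gaps that see a number below `j` -/
noncomputable def Nu (q : ℕ → ℕ → Bool) (j u : ℕ) : ℕ :=
  ((Finset.range u).filter fun b => ∃ z, z < j ∧ Gt q u b z).card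

/-- the far gap sees a number below `j` -/
def Df (q : ℕ → ℕ → Bool) (j r : ℕ) : Prop := ∃ z, z < j ∧ ∃ t, Fst q z t ∧ r < 2 ^ t

theorem Df.mono {j j' u : ℕ} (h : Df q j u) (hj : j ≤ j') : Df q j' u := by
  obtain ⟨z, hz, h1⟩ := h
  exact ⟨z, by omega, h1⟩

open Classical in
theorem nu_split {j M u : ℕ} (hT : ∀ z, z < j → ∀ t, Fst q z t → t ≤ M) :
    Nu q j u = ((Finset.range M).filter fun b => ∃ z, z < j ∧ Gt q u b z).card +
      (if 2 ^ M ≤ u ∧ Df q j (u % 2 ^ M) then 1 else 0) := by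
  have key : ∀ b z, z < j → M ≤ b → Gt q u b z →
      u % 2 ^ b = u % 2 ^ M ∧ 2 ^ M ≤ u ∧ Df q j (u % 2 ^ M) := by
    rintro b z hz hb ⟨h1, t, htb, h2, h4⟩
    have h3 := hT z hz t h2
    have h5 : u % 2 ^ b < 2 ^ M := lt_of_lt_of_le h4 (Nat.pow_le_pow_right (by norm_num) h3)
    have h6 : u % 2 ^ b = u % 2 ^ M := by
      have h7 : u % 2 ^ b % 2 ^ M = u % 2 ^ M := Nat.mod_mod_of_dvd _ (pow_dvd_pow 2 hb)
      rw [Nat.mod_eq_of_lt h5] at h7
      exact h7
    refine ⟨h6, ?_, z, hz, t, h2, ?_⟩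
    · by_contra hcon
      push Not at hcon
      have h7 : u < 2 ^ b := lt_of_lt_of_le hcon (Nat.pow_le_pow_right (by norm_num) hb)
      rw [Nat.div_eq_of_lt h7] at h1
      simp at h1
    · rw [← h6]
      exact h4
  unfold Nu
  by_cases hc : 2 ^ M ≤ u ∧ Df q j (u % 2 ^ M)
  · rw [if_pos hc]
    obtain ⟨hc1, z, hz, t, hc2, hc3⟩ := hc
    have hy : u / 2 ^ M ≠ 0 := by
      intro h
      rw [Nat.div_eq_zero_iff] at h
      rcases h with h | h
      · exact absurd h (by positivity)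
      · omega
    obtain ⟨k, m, hm, hk⟩ := Nat.exists_eq_two_pow_mul_odd hy
    have hm' : m % 2 = 1 := Nat.odd_iff.1 hm
    have h1 : u = 2 ^ (M + k) * m + u % 2 ^ M := by
      nth_rw 1 [← Nat.div_add_mod u (2 ^ M)]
      rw [hk, pow_add]
      ring
    have h2 : u % 2 ^ M < 2 ^ (M + k) :=
      lt_of_lt_of_le (Nat.mod_lt _ (by positivity)) (Nat.pow_le_pow_right (by norm_num) (by omega))
    have h3 : u % 2 ^ (M + k) = u % 2 ^ M := by
      nth_rw 1 [h1]
      rw [Nat.mul_add_mod, Nat.mod_eq_of_lt h2]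
    have h4 : u / 2 ^ (M + k) = m := by
      nth_rw 1 [h1]
      rw [Nat.mul_add_div (by positivity), Nat.div_eq_of_lt h2, Nat.add_zero]
    have h0 := hT z hz t hc2
    have hw : Gt q u (M + k) z := by
      refine ⟨by rw [h4]; exact hm', t, by omega, hc2, ?_⟩
      rw [h3]
      exact hc3
    have h5 : ((Finset.range u).filter fun b => ∃ z, z < j ∧ Gt q u b z) =
        insert (M + k) ((Finset.range M).filter fun b => ∃ z, z < j ∧ Gt q u b z) := by
      ext b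
      simp only [Finset.mem_filter, Finset.mem_range, Finset.mem_insert]
      constructor
      · rintro ⟨h6, z', hz', h7⟩
        by_cases hb : b < M
        · exact Or.inr ⟨hb, z', hz', h7⟩
        · left
          obtain ⟨h8, -, -⟩ := key b z' hz' (by omega) h7
          by_contra hne
          rcases Nat.lt_or_gt_of_ne hne with h9 | h9
          · have h10 := low_ge h7.1 h9
            rw [h3] at h10
            have h11 : u % 2 ^ M < 2 ^ M := Nat.mod_lt _ (by positivity)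
            have h12 : 2 ^ M ≤ 2 ^ b := Nat.pow_le_pow_right (by norm_num) (by omega)
            omega
          · have h10 := low_ge hw.1 h9
            rw [h8] at h10
            have h11 : u % 2 ^ M < 2 ^ M := Nat.mod_lt _ (by positivity)
            have h12 : 2 ^ M ≤ 2 ^ (M + k) := Nat.pow_le_pow_right (by norm_num) (by omega)
            omega
      · rintro (h6 | ⟨h6, z', hz', h7⟩)
        · subst h6
          exact ⟨hw.lt, z, hz, hw⟩
        · exact ⟨h7.lt, z', hz', h7⟩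
    rw [h5, Finset.card_insert_of_notMem (by simp)]
  · rw [if_neg hc, Nat.add_zero]
    congr 1
    ext b
    simp only [Finset.mem_filter, Finset.mem_range]
    constructor
    · rintro ⟨h6, z', hz', h7⟩
      refine ⟨?_, z', hz', h7⟩
      by_contra hb
      exact hc (key b z' hz' (by omega) h7).2
    · rintro ⟨h6, z', hz', h7⟩
      exact ⟨h7.lt, z', hz', h7⟩

theorem gt_congr {u u' M b z : ℕ} (h : u % 2 ^ M = u' % 2 ^ M) (hb : b < M) :
    Gt q u b z ↔ Gt q u' b z := by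
  obtain ⟨h1, h2⟩ := bit_congr h hb
  unfold Gt
  rw [h1, h2]

theorem nu_local {j M u u' : ℕ} (h : u % 2 ^ M = u' % 2 ^ M)
    (hT : ∀ z, z < j → ∀ t, Fst q z t → t ≤ M) (h1 : 2 ^ M ≤ u)
    (h2 : 2 ^ M ≤ u') : Nu q j u = Nu q j u' := by
  classical
  rw [nu_split hT, nu_split hT]
  congr 1
  · congr 1
    refine Finset.filter_congr fun b hb => exists_congr fun z => and_congr_right fun hz => ?_
    exact gt_congr h (Finset.mem_range.1 hb)
  · simp only [h1, h2, true_and, h]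

open Classical in
theorem nu_far {j M u k : ℕ} (hT : ∀ z, z < j → ∀ t, Fst q z t → t ≤ M) (hx : u < 2 ^ M)
    (hk : 0 < k) : Nu q j (u + 2 ^ M * k) = Nu q j u + (if Df q j u then 1 else 0) := by
  have h : (u + 2 ^ M * k) % 2 ^ M = u % 2 ^ M := Nat.add_mul_mod_self_left _ _ _
  rw [nu_split hT, nu_split hT]
  have h3 : 2 ^ M ≤ u + 2 ^ M * k := by
    have : 2 ^ M * 1 ≤ 2 ^ M * k := Nat.mul_le_mul_left _ hk
    omega
  have h4 : ¬ 2 ^ M ≤ u := by omega
  have h6 : ((Finset.range M).filter fun b => ∃ z, z < j ∧ Gt q (u + 2 ^ M * k) b z) =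
      (Finset.range M).filter fun b => ∃ z, z < j ∧ Gt q u b z :=
    Finset.filter_congr fun b hb => exists_congr fun z => and_congr_right fun hz =>
      gt_congr h (Finset.mem_range.1 hb)
  rw [h6, h, Nat.mod_eq_of_lt hx]
  simp only [h3, h4, true_and, false_and, if_false, Nat.add_zero]

/-- the parity -/
def par (n : ℕ) : Fin 2 := ⟨n % 2, Nat.mod_lt _ (by norm_num)⟩

def m4 (n : ℕ) : Fin 4 := ⟨n % 4, Nat.mod_lt _ (by norm_num)⟩

/-- the table of the colours -/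
def tb : Fin 4 → Fin 2 → Fin 2 → Fin 3 :=
  ![![![0, 0], ![1, 1]], ![![1, 1], ![2, 0]], ![![0, 0], ![2, 2]], ![![2, 2], ![1, 0]]]

theorem tb_even : ∀ r : Fin 4, r.val % 2 = 0 → ∀ x y, tb r x y ≠ tb (r + 1) x y := by decide

theorem tb_odd : ∀ r : Fin 4, r.val % 2 = 1 → ∀ x y z, tb r x y ≠ tb (r + 1) y z := by decide

theorem tb_flip : ∀ r x y, tb r (x + 1) (y + 1) ≠ tb r x y := by decide

/-- the colour of `2 ^ v * u` -/
noncomputable def dv (q : ℕ → ℕ → Bool) (v u : ℕ) : Fin 3 :=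
  tb (m4 v) (par (Nu q (v / 2) u)) (par (Nu q (v / 2 + 1) u))

/-- **The colouring.** -/
noncomputable def col3 (q : ℕ → ℕ → Bool) (n : ℕ) : Fin 3 := dv q (vv n) (n / 2 ^ vv n)

theorem col3_eq {v u : ℕ} (hu : u % 2 = 1) : col3 q (2 ^ v * u) = dv q v u := by
  unfold col3
  rw [vv_eq hu, Nat.mul_div_cancel_left _ (by positivity)]

theorem dv_succ (v u : ℕ) : dv q v u ≠ dv q (v + 1) u := by
  unfold dv
  have h1 : m4 (v + 1) = m4 v + 1 := by
    apply Fin.ext
    simp [m4, Fin.val_add, Nat.add_mod]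
  rw [h1]
  rcases Nat.mod_two_eq_zero_or_one v with h | h
  · have h2 : (v + 1) / 2 = v / 2 := by omega
    rw [h2]
    refine tb_even _ ?_ _ _
    simp only [m4]
    omega
  · have h2 : (v + 1) / 2 = v / 2 + 1 := by omega
    rw [h2]
    refine tb_odd _ ?_ _ _ _
    simp only [m4]
    omega

theorem par_succ (n : ℕ) : par (n + 1) = par n + 1 := by
  apply Fin.ext
  simp [par, Fin.val_add, Nat.add_mod]

theorem dv_local {v M u u' : ℕ} (h : u % 2 ^ M = u' % 2 ^ M)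
    (hT : ∀ z, z < v + 3 → ∀ t, Fst q z t → t + 5 ≤ M) (h1 : 2 ^ M ≤ u)
    (h2 : 2 ^ M ≤ u') : dv q v u = dv q v u' := by
  have e1 := nu_local (q := q) (j := v / 2) h
    (fun z hz t ht => by have := hT z (by omega) t ht; omega) h1 h2
  have e2 := nu_local (q := q) (j := v / 2 + 1) h
    (fun z hz t ht => by have := hT z (by omega) t ht; omega) h1 h2
  unfold dv
  rw [e1, e2]

theorem dv_far {v M u k : ℕ} (hT : ∀ z, z < v + 3 → ∀ t, Fst q z t → t + 5 ≤ M)
    (hx : u < 2 ^ M) (hk : 0 < k) (h : dv q v (u + 2 ^ M * k) = dv q v u) :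
    ¬ Df q (v / 2) u := by
  intro h1
  have h2 : Df q (v / 2 + 1) u := h1.mono (by omega)
  have e1 := nu_far (q := q) (j := v / 2)
    (fun z hz t ht => by have := hT z (by omega) t ht; omega) hx hk
  have e2 := nu_far (q := q) (j := v / 2 + 1)
    (fun z hz t ht => by have := hT z (by omega) t ht; omega) hx hk
  rw [if_pos h1] at e1
  rw [if_pos h2] at e2
  unfold dv at h
  rw [e1, e2, par_succ, par_succ] at h
  exact tb_flip _ _ _ h

/-- **The colouring is stable.** -/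
theorem stable3 : Stb 2 (col3 q) := by
  intro a ha
  obtain ⟨u, hu, he⟩ := exists_odd ha
  set v := vv a
  obtain ⟨M, hM, hT⟩ := exists_bound q v (1 + u)
  refine ⟨v + M, fun z z' hz hz' hd hd' => ?_⟩
  have key : ∀ z, 0 < z → 2 ^ (v + M) ∣ z → ∃ u', a + z = 2 ^ v * u' ∧ u' % 2 = 1 ∧
      u' % 2 ^ M = u % 2 ^ M ∧ 2 ^ M ≤ u' := by
    rintro z hz ⟨k, rfl⟩
    have hk : 0 < k := by
      rcases Nat.eq_zero_or_pos k with h | h
      · subst h; simp at hz
      · exact h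
    have h1 : (u + 2 ^ M * k) % 2 ^ M = u % 2 ^ M := Nat.add_mul_mod_self_left _ _ _
    refine ⟨u + 2 ^ M * k, by rw [he, pow_add]; ring, ?_, h1, ?_⟩
    · rw [mod_two_of h1 (by omega)]; exact hu
    · have : 2 ^ M * 1 ≤ 2 ^ M * k := Nat.mul_le_mul_left _ hk
      omega
  obtain ⟨u1, h1, h2, h3, h4⟩ := key z hz hd
  obtain ⟨u1', h1', h2', h3', h4'⟩ := key z' hz' hd'
  rw [h1, h1', col3_eq h2, col3_eq h2']
  exact dv_local (h3.trans h3'.symm) hT h4 h4'

section

variable {X : Set ℕ} (hX : Hom2 (col3 q) X)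

include hX

theorem thin3 (v : ℕ) : {x ∈ X | vv x = v}.Finite := by
  by_contra hinf
  obtain ⟨M, hM, hT⟩ := exists_bound q (v + 1) (v + 1 + 8)
  obtain ⟨r, hr⟩ : ∃ r, {x ∈ X | vv x = v ∧ x % 2 ^ (v + (M + 1)) = r}.Infinite := by
    by_contra hcon
    push Not at hcon
    apply hinf
    have h1 : {x ∈ X | vv x = v} ⊆ ⋃ r ∈ Finset.range (2 ^ (v + (M + 1))),
        {x ∈ X | vv x = v ∧ x % 2 ^ (v + (M + 1)) = r} := by
      rintro x ⟨hx, hv⟩
      rw [Set.mem_iUnion₂]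
      exact ⟨x % 2 ^ (v + (M + 1)), Finset.mem_range.2 (Nat.mod_lt _ (by positivity)), hx, hv, rfl⟩
    refine Set.Finite.subset (Set.Finite.biUnion (Finset.finite_toSet _) fun r _ => ?_) h1
    exact hcon r
  obtain ⟨x1, ⟨hx1, hv1, hr1⟩, hl1⟩ := hr.exists_gt (2 ^ (v + (M + 1)))
  obtain ⟨x2, ⟨hx2, hv2, hr2⟩, hl2⟩ := hr.exists_gt x1
  have pos : ∀ x ∈ X, 0 < x := fun x hx => by
    rcases Nat.eq_zero_or_pos x with h | h
    · subst h; exact absurd hx hX.2.1
    · exact h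
  obtain ⟨u1, hu1, he1⟩ := exists_odd (pos x1 hx1)
  obtain ⟨u2, hu2, he2⟩ := exists_odd (pos x2 hx2)
  rw [hv1] at he1
  rw [hv2] at he2
  have hmod : ∀ u : ℕ, 2 ^ v * u % 2 ^ (v + (M + 1)) = 2 ^ v * (u % 2 ^ (M + 1)) := by
    intro u
    rw [pow_add, Nat.mul_mod_mul_left]
  have hge : ∀ u : ℕ, 2 ^ (v + (M + 1)) < 2 ^ v * u → 2 ^ (M + 1) ≤ u := by
    intro u h
    rw [pow_add] at h
    exact (lt_of_mul_lt_mul_left h (Nat.zero_le _)).le
  have hp0 : 0 < 2 ^ v := by positivity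
  obtain ⟨-, -, j, hj1, hj2⟩ := hX
  have h12 : u1 % 2 ^ (M + 1) = u2 % 2 ^ (M + 1) := by
    rw [he1, hmod] at hr1
    rw [he2, hmod] at hr2
    exact Nat.eq_of_mul_eq_mul_left hp0 (hr1.trans hr2.symm)
  have g1 : 2 ^ (M + 1) ≤ u1 := hge _ (by rw [← he1]; exact hl1)
  have g2 : 2 ^ (M + 1) ≤ u2 := hge _ (by rw [← he2]; omega)
  have hp : 2 ^ (M + 1) = 2 * 2 ^ M := by ring
  have hpos : 0 < 2 ^ M := by positivity
  have d1 := Nat.div_add_mod u1 (2 ^ (M + 1))
  have d2 := Nat.div_add_mod u2 (2 ^ (M + 1))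
  rw [← h12] at d2
  set r := u1 % 2 ^ (M + 1)
  set a := u1 / 2 ^ (M + 1)
  set b := u2 / 2 ^ (M + 1)
  have hw : u1 + u2 = 2 * (2 ^ M * (a + b) + r) := by
    rw [← d1, ← d2, hp]; ring
  set w := 2 ^ M * (a + b) + r with hwdef
  have hw1 : u1 % 2 ^ M = w % 2 ^ M := by
    rw [← d1, hp, hwdef]
    have : 2 * 2 ^ M * a + r = 2 ^ M * (2 * a) + r := by ring
    rw [this, Nat.mul_add_mod, Nat.mul_add_mod]
  have hwo : w % 2 = 1 := by rw [← mod_two_of hw1 (by omega)]; exact hu1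
  have k2 : col3 q (2 ^ v * u1) = col3 q (2 ^ (v + 1) * w) := by
    have e2 : 2 ^ (v + 1) * w = x1 + x2 := by
      rw [he1, he2, ← mul_add, hw, pow_succ]; ring
    rw [e2, ← he1, hj1 x1 hx1, hj2 x1 hx1 x2 hx2 hl2]
  rw [col3_eq hu1, col3_eq hwo] at k2
  have l2 : dv q (v + 1) u1 = dv q (v + 1) w :=
    dv_local hw1 (fun z hz => hT z (by omega)) (by omega) (by omega)
  rw [← l2] at k2
  exact dv_succ _ _ k2

theorem exists_far3 (N m : ℕ) : ∃ y ∈ X, m < y ∧ N ≤ vv y := by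
  by_contra hcon
  push Not at hcon
  apply hX.1
  have h1 : X ⊆ (⋃ v ∈ Finset.range N, {x ∈ X | vv x = v}) ∪ Set.Iic m := by
    intro x hx
    by_cases h : x ≤ m
    · exact Or.inr h
    · left
      rw [Set.mem_iUnion₂]
      exact ⟨vv x, Finset.mem_range.2 (hcon x hx (by omega)), hx, rfl⟩
  refine Set.Finite.subset (Set.Finite.union ?_ (Set.finite_Iic m)) h1
  exact Set.Finite.biUnion (Finset.finite_toSet _) fun v _ => thin3 hX v

theorem settled3 {v u : ℕ} (hu : u % 2 = 1) (hx : 2 ^ v * u ∈ X) : ¬ Df q (v / 2) u := by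
  obtain ⟨M, hM, hT⟩ := exists_bound q v (v + 8 + u)
  obtain ⟨y, hy, hl, hvy⟩ := exists_far3 hX (v + M) (2 ^ v * u)
  have hypos : 0 < y := by omega
  obtain ⟨w, hw, hwe⟩ := exists_odd hypos
  obtain ⟨-, -, j, hj1, hj2⟩ := hX
  have h1 : y = 2 ^ v * (2 ^ M * (2 ^ (vv y - (v + M)) * w)) := by
    rw [hwe, vv_eq hw]
    have : 2 ^ vv y = 2 ^ v * (2 ^ M * 2 ^ (vv y - (v + M))) := by
      rw [← pow_add, ← pow_add]; congr 1; omega
    nth_rw 1 [this]
    ring
  set k := 2 ^ (vv y - (v + M)) * w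
  have hk : 0 < k := Nat.mul_pos (by positivity) (by omega)
  have h2 : col3 q (2 ^ v * u) = col3 q (2 ^ v * (u + 2 ^ M * k)) := by
    rw [mul_add, ← h1, hj1 _ hx, hj2 _ hx y hy hl]
  have h4 : (u + 2 ^ M * k) % 2 = 1 := by
    rw [mod_two_of (M := M) (u' := u) (Nat.add_mul_mod_self_left _ _ _) (by omega)]; exact hu
  rw [col3_eq hu, col3_eq h4] at h2
  have hlt : ∀ n, n ≤ M → n < 2 ^ M := fun n hn => lt_of_le_of_lt hn Nat.lt_two_pow_self
  exact dv_far hT (hlt _ (by omega)) hk h2.symm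

theorem not_enum_iff3 (z : ℕ) : (¬ ∃ n, q z n = true) ↔
    ∃ h, h ∈ X ∧ (2 * (z + 1) ≤ vv h ∧ ∀ t, t < h + 1 → ¬ q z t = true) := by
  constructor
  · intro h
    obtain ⟨y, hy, -, hvy⟩ := exists_far3 hX (2 * (z + 1)) 0
    exact ⟨y, hy, hvy, fun t _ h1 => h ⟨t, h1⟩⟩
  · rintro ⟨h, hh, hv, hall⟩ hex
    classical
    have hpos : 0 < h := by
      rcases Nat.eq_zero_or_pos h with h1 | h1
      · subst h1; exact absurd hh hX.2.1
      · exact h1
    obtain ⟨u, hu, he⟩ := exists_odd hpos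
    have hfst : Fst q z (Nat.find hex) := ⟨Nat.find_spec hex, fun n hn => by
      have := Nat.find_min hex hn
      simpa using this⟩
    set t := Nat.find hex
    have h1 : ¬ Df q (vv h / 2) u := settled3 hX hu (by rw [← he]; exact hh)
    have h2 : ¬ u < 2 ^ t := fun h3 => h1 ⟨z, by omega, t, hfst, h3⟩
    push Not at h2
    have h4 : u ≤ h := by
      rw [he]
      exact Nat.le_mul_of_pos_left _ (by positivity)
    have h6 : t < 2 ^ t := Nat.lt_two_pow_self
    exact hall t (by omega) hfst.1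

end

section

variable {A : Set ℕ} (hq : Gr A fun p : ℕ × ℕ => q p.1 p.2)

include hq

theorem dp_gt {α : Type*} [Primcodable α] {f g h : α → ℕ} (hf : Computable f)
    (hg : Computable g) (hh : Computable h) : DP A fun a => Gt q (f a) (g a) (h a) := by
  unfold Gt
  refine DP.and (dp_eq (by fun_prop) (by fun_prop)) ?_
  refine DP.ex_lt (p := fun a t => Fst q (h a) t ∧ f a % 2 ^ g a < 2 ^ t) ?_ (by fun_prop)
  refine DP.and (dp_fst hq (by fun_prop) (by fun_prop)) (dp_lt (by fun_prop) (by fun_prop))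

theorem gr_nu {α : Type*} [Primcodable α] {f g : α → ℕ} (hf : Computable f)
    (hg : Computable g) : Gr A fun a => Nu q (f a) (g a) := by
  classical
  unfold Nu
  refine (gr_count (p := fun a b => ∃ z, z < f a ∧ Gt q (g a) b z) ?_
    (f := fun a => g a) (by fun_prop)).of_eq fun a => ?_
  · refine DP.ex_lt (p := fun (x : α × ℕ) z => Gt q (g x.1) x.2 z) ?_ (by fun_prop)
    exact dp_gt hq (by fun_prop) (by fun_prop) (by fun_prop)
  · congr

theorem gr_col3 : Gr A (col3 q) := by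
  have h1 : Gr A fun n : ℕ => Nu q (vv n / 2) (n / 2 ^ vv n) := gr_nu hq (by fun_prop)
    (by fun_prop)
  have h2 : Gr A fun n : ℕ => Nu q (vv n / 2 + 1) (n / 2 ^ vv n) := gr_nu hq (by fun_prop)
    (by fun_prop)
  have hp : Computable par :=
    (Primrec.fin_val_iff.1 (Primrec.nat_mod.comp Primrec.id (Primrec.const 2))).to_comp
  have hm : Computable m4 :=
    (Primrec.fin_val_iff.1 (Primrec.nat_mod.comp Primrec.id (Primrec.const 4))).to_comp
  have ht : Computable fun x : Fin 4 × Fin 2 × Fin 2 => tb x.1 x.2.1 x.2.2 :=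
    (Primrec.dom_finite _).to_comp
  refine Gr.post (g := fun x : Fin 4 × Fin 2 × Fin 2 => tb x.1 x.2.1 x.2.2) ht
    (f := fun n => (m4 (vv n), par (Nu q (vv n / 2) (n / 2 ^ vv n)),
      par (Nu q (vv n / 2 + 1) (n / 2 ^ vv n)))) ?_
  exact (Gr.of_comp (hm.comp (by fun_prop))).pair ((Gr.post hp h1).pair (Gr.post hp h2))

end

/-- **The coding theorem.** -/
theorem lower2 {A S : Set ℕ} (hS : REIn A (· ∈ S)) : ∃ c : ℕ → Fin 3, Gr A c ∧ Stb 2 c ∧
    ∀ B X, Dec B A → Dec B X → Hom2 c X → Dec B S := by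
  obtain ⟨q, hq, hq2⟩ := exists_q hS
  refine ⟨col3 q, gr_col3 hq, stable3, fun B X hBA hBX hX => ⟨re_lift hS hBA, ?_⟩⟩
  have hqB := hq.lift hBA
  have h1 : REIn B fun z : ℕ => ∃ h, h ∈ X ∧ (2 * (z + 1) ≤ vv h ∧
      ∀ t, t < h + 1 → ¬ q z t = true) := by
    refine REIn.ex (S := fun (z h : ℕ) => h ∈ X ∧ (2 * (z + 1) ≤ vv h ∧
      ∀ t, t < h + 1 → ¬ q z t = true)) ?_
    refine REIn.and (hBX.1.comp (f := fun x : ℕ × ℕ => x.2) (by fun_prop)) (REIn.and ?_ ?_)
    · exact REIn.of_re (RE.le (by fun_prop) (by fun_prop))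
    · refine (DP.all_lt (p := fun (x : ℕ × ℕ) t => ¬ q x.1 t = true) ?_ ?_).1
      · exact (dp_q hqB (by fun_prop) (by fun_prop) true).not
      · fun_prop
  refine h1.of_eq fun z => ?_
  rw [← not_enum_iff3 hX z]
  exact not_congr (hq2 z).symm

/-- **The colouring with two colours is stable.** -/
theorem stable2 : Stb 2 (col q) := by
  intro a ha
  obtain ⟨u, hu, he⟩ := exists_odd ha
  set v := vv a
  obtain ⟨M, hM, hT⟩ := exists_bound q v (v + 8 + u)
  refine ⟨v + M, fun z z' hz hz' hd hd' => ?_⟩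
  have key : ∀ z, 0 < z → 2 ^ (v + M) ∣ z → ∃ u', a + z = 2 ^ v * u' ∧ u' % 2 = 1 ∧
      u' % 2 ^ M = u % 2 ^ M ∧ 2 ^ M ≤ u' := by
    rintro z hz ⟨k, rfl⟩
    have hk : 0 < k := by
      rcases Nat.eq_zero_or_pos k with h | h
      · subst h; simp at hz
      · exact h
    have h1 : (u + 2 ^ M * k) % 2 ^ M = u % 2 ^ M := Nat.add_mul_mod_self_left _ _ _
    refine ⟨u + 2 ^ M * k, by rw [he, pow_add]; ring, ?_, h1, ?_⟩
    · rw [mod_two_of h1 (by omega)]; exact hu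
    · have : 2 ^ M * 1 ≤ 2 ^ M * k := Nat.mul_le_mul_left _ hk
      omega
  obtain ⟨u1, h1, h2, h3, h4⟩ := key z hz hd
  obtain ⟨u1', h1', h2', h3', h4'⟩ := key z' hz' hd'
  have e1 : u1 % 4 = u1' % 4 := by
    have e1 : ∀ n : ℕ, n % 2 ^ M % 4 = n % 4 := fun n =>
      Nat.mod_mod_of_dvd _ (by
        have : (4 : ℕ) = 2 ^ 2 := by norm_num
        rw [this]
        exact pow_dvd_pow 2 (by omega))
    rw [← e1 u1, ← e1 u1', h3, h3']
  have e2 : Sv q v u1 = Sv q v u1' :=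
    sv_local h2 (h3.trans h3'.symm) hT (by omega) h4 h4'
  apply Fin.ext
  rw [h1, h1', col_eq h2, col_eq h2']
  unfold cv
  rw [e1, e2]

/-- **The coding theorem for two colours and sums of at most three elements.** -/
theorem lower3' {A S : Set ℕ} (hS : REIn A (· ∈ S)) : ∃ c : ℕ → Fin 2, Gr A c ∧ Stb 2 c ∧
    ∀ B X, Dec B A → Dec B X → Hom3 c X → Dec B S := by
  obtain ⟨q, hq, hq2⟩ := exists_q hS
  refine ⟨col q, gr_col hq, stable2, fun B X hBA hBX hX => ⟨re_lift hS hBA, ?_⟩⟩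
  have hqB := hq.lift hBA
  have h1 : REIn B fun z : ℕ => ∃ h, h ∈ X ∧ (2 * (z + 1) ≤ vv h ∧
      ∀ t, t < 3 ^ 2 ^ (z + 3) * (3 * h) + 1 → ¬ q z t = true) := by
    refine REIn.ex (S := fun (z h : ℕ) => h ∈ X ∧ (2 * (z + 1) ≤ vv h ∧
      ∀ t, t < 3 ^ 2 ^ (z + 3) * (3 * h) + 1 → ¬ q z t = true)) ?_
    refine REIn.and (hBX.1.comp (f := fun x : ℕ × ℕ => x.2) (by fun_prop)) (REIn.and ?_ ?_)
    · exact REIn.of_re (RE.le (by fun_prop) (by fun_prop))
    · refine (DP.all_lt (p := fun (x : ℕ × ℕ) t => ¬ q x.1 t = true) ?_ ?_).1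
      · exact (dp_q hqB (by fun_prop) (by fun_prop) true).not
      · fun_prop
  refine h1.of_eq fun z => ?_
  rw [← not_enum_iff hX z]
  exact not_congr (hq2 z).symm

end Pool.Agent.T2H49.HTD
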