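import Pool.Agent.T2H49.HT.StabA

/-!
Two colours and sums of at most two elements: upper bounds for stable colourings.
-/

namespace Pool.Agent.T2H49.HTS

open Pool.Agent.Helper446 Pool.Agent.Helper446.Defs Pool.Agent.Helper446.Oracle
open Pool.Agent.Y545.HM

variable {A W : Set ℕ} {k : ℕ} {p : ℕ} {c Ψ : ℕ → Fin k}

/-- the limits of `c` -/
def Lm (p : ℕ) (c Ψ : ℕ → Fin k) : Prop :=
  ∀ a, 0 < a → ∃ N, ∀ z, 0 < z → p ^ N ∣ z → c (a + z) = Ψ a

/-- **First case.** -/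
theorem case1 (hp : 0 < p) (hΨ : Lm p c Ψ) {a : ℕ} (ha : 0 < a) (h : Ψ a = Ψ (2 * a)) :
    ∃ X : Set ℕ, Dec W X ∧ Hom2 c X := by
  obtain ⟨N, hN⟩ := hΨ a ha
  obtain ⟨M, hM⟩ := hΨ (2 * a) (by omega)
  set q := p ^ (max N M) with hq
  have hqpos : 0 < q := by positivity
  have hmono : StrictMono fun i : ℕ => a + q * (i + 1) := by
    refine strictMono_nat_of_lt_succ fun n => ?_
    have := Nat.mul_lt_mul_of_pos_left (show n + 1 < n + 1 + 1 by omega) hqpos
    omega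
  have hgr : Gr W fun i : ℕ => a + q * (i + 1) := Gr.of_comp (by fun_prop)
  refine ⟨_, range_dec hgr hmono, Set.infinite_range_of_injective hmono.injective, ?_, Ψ a, ?_, ?_⟩
  · rintro ⟨i, hi⟩
    simp only at hi
    omega
  · rintro x ⟨i, rfl⟩
    exact hN _ (by positivity) (Dvd.dvd.mul_right (pow_dvd_pow _ (le_max_left _ _)) _)
  · rintro x ⟨i, rfl⟩ y ⟨j, rfl⟩ -
    have h1 : a + q * (i + 1) + (a + q * (j + 1)) = 2 * a + q * (i + 1 + (j + 1)) := by ring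
    simp only
    rw [h1, h]
    exact hM _ (by positivity) (Dvd.dvd.mul_right (pow_dvd_pow _ (le_max_right _ _)) _)

theorem fin2_ne {a b d : Fin 2} (h1 : a ≠ b) (h2 : b ≠ d) : a = d := by
  omega

section two

variable {c Ψ : ℕ → Fin 2}

theorem dbl (h : ∀ a, 0 < a → Ψ a ≠ Ψ (2 * a)) (i : ℕ) {a : ℕ} (ha : 0 < a) :
    Ψ (4 ^ i * a) = Ψ a := by
  induction i with
  | zero => simp
  | succ i ih =>
    have h1 := h (4 ^ i * a) (by positivity)
    have h2 := h (2 * (4 ^ i * a)) (by positivity)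
    have h3 : 4 ^ (i + 1) * a = 2 * (2 * (4 ^ i * a)) := by ring
    rw [h3, ← ih]
    exact (fin2_ne h1 h2).symm

theorem dbl_odd (h : ∀ a, 0 < a → Ψ a ≠ Ψ (2 * a)) {i : ℕ} (hi : Odd i) {a : ℕ} (ha : 0 < a) :
    Ψ (2 ^ i * a) ≠ Ψ a := by
  obtain ⟨m, rfl⟩ := hi
  have h1 : 2 ^ (2 * m + 1) * a = 2 * (4 ^ m * a) := by
    rw [pow_succ, pow_mul]; ring
  rw [h1]
  have h2 := h (4 ^ m * a) (by positivity)
  rw [dbl h m ha] at h2
  exact h2.symm

/-- **`p = 2`: computable solutions.** -/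
theorem two_adic (hc : Gr W c) (hΨ : Lm 2 c Ψ) : ∃ X : Set ℕ, Dec W X ∧ Hom2 c X := by
  by_cases h : ∃ a, 0 < a ∧ Ψ a = Ψ (2 * a)
  · obtain ⟨a, ha, h⟩ := h
    exact case1 (by norm_num) hΨ ha h
  · push Not at h
    obtain ⟨N1, hN1⟩ := lim_shift (p := 2) (by norm_num) hΨ (a := 1) (by norm_num)
    let T : ℕ → Prop := fun x => ∃ i, i < x + 1 ∧ ∃ w, w < x + 1 ∧
      (x = 4 ^ i * (1 + 2 ^ N1 * w) ∧ c x = Ψ 1)
    have hT : DP W T := by
      refine DP.ex_lt (p := fun (x i : ℕ) => ∃ w, w < x + 1 ∧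
        (x = 4 ^ i * (1 + 2 ^ N1 * w) ∧ c x = Ψ 1)) ?_ (by fun_prop)
      refine DP.ex_lt (p := fun (q : ℕ × ℕ) (w : ℕ) =>
        (q.1 = 4 ^ q.2 * (1 + 2 ^ N1 * w) ∧ c q.1 = Ψ 1)) ?_ (by fun_prop)
      refine DP.and (dp_eq (by fun_prop) ?_) ?_
      · have h4 : Computable fun i : ℕ => 4 ^ i := by
          have : Primrec fun i : ℕ => 4 ^ i := by
            refine (Primrec.nat_rec₁ (f := fun _ n => n * 4) 1
              (Primrec.nat_mul.comp Primrec.snd (Primrec.const 4))).of_eq fun n => ?_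
            induction n with
            | zero => rfl
            | succ n ih => rw [pow_succ, ← ih]
          exact this.to_comp
        have h5 : Computable fun x : (ℕ × ℕ) × ℕ => 4 ^ x.1.2 := h4.comp (by fun_prop)
        exact Primrec.nat_mul.to_comp.comp h5 (by fun_prop)
      · constructor
        · exact REIn.comp hc (f := fun x : (ℕ × ℕ) × ℕ => (x.1.1, Ψ 1)) (by fun_prop)
        · have h6 : REIn W fun x : (ℕ × ℕ) × ℕ => ∃ j : Fin 2, c x.1.1 = j ∧ j ≠ Ψ 1 := by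
            refine REIn.ex (S := fun (x : (ℕ × ℕ) × ℕ) (j : Fin 2) => c x.1.1 = j ∧ j ≠ Ψ 1) ?_
            refine REIn.and ?_ (REIn.of_re (RE.ne (by fun_prop) (by fun_prop)))
            exact REIn.comp hc (f := fun x : ((ℕ × ℕ) × ℕ) × Fin 2 => (x.1.1.1, x.2))
              (by fun_prop)
          refine h6.of_eq fun x => ?_
          constructor
          · rintro ⟨j, rfl, h⟩; exact h
          · intro h; exact ⟨_, rfl, h⟩
    have hTΨ : ∀ x, T x → 0 < x ∧ Ψ x = Ψ 1 := by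
      rintro x ⟨i, -, w, -, rfl, -⟩
      refine ⟨by positivity, ?_⟩
      rw [dbl h i (by omega)]
      rcases Nat.eq_zero_or_pos w with rfl | hw
      · simp
      · exact (hN1 (2 ^ N1 * w) (by positivity) (dvd_mul_right _ _)).2
    refine greedy hc hT (Ψ 1) fun F hF => ?_
    obtain ⟨N, hN⟩ := lim_list hΨ F fun x hx => (hTΨ x (hF x hx)).1
    set K := N + F.sum + 1 with hK
    obtain ⟨L, hL⟩ := hΨ (4 ^ K) (by positivity)
    have hy : c (4 ^ K * (1 + 2 ^ N1 * 2 ^ L)) = Ψ 1 := by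
      have h1 := hL (4 ^ K * (2 ^ N1 * 2 ^ L)) (by positivity)
        (Dvd.dvd.mul_left (dvd_mul_left _ _) _)
      have h2 : 4 ^ K * (1 + 2 ^ N1 * 2 ^ L) = 4 ^ K + 4 ^ K * (2 ^ N1 * 2 ^ L) := by ring
      rw [h2, h1]
      have := dbl h K (a := 1) (by norm_num)
      rwa [mul_one] at this
    have hKlt : K < 4 ^ K * (1 + 2 ^ N1 * 2 ^ L) := by
      calc K < 4 ^ K := Nat.lt_pow_self (by norm_num)
        _ = 4 ^ K * 1 := (mul_one _).symm
        _ ≤ 4 ^ K * (1 + 2 ^ N1 * 2 ^ L) := Nat.mul_le_mul_left _ (by omega)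
    refine ⟨4 ^ K * (1 + 2 ^ N1 * 2 ^ L), ⟨K, by omega, 2 ^ L, ?_, rfl, hy⟩, fun x hx => ?_,
      by positivity, hy, fun x hx => ?_⟩
    · have h1 : 2 ^ L ≤ 4 ^ K * (1 + 2 ^ N1 * 2 ^ L) := by
        calc 2 ^ L = 1 * (1 * 2 ^ L) := by ring
          _ ≤ 4 ^ K * (2 ^ N1 * 2 ^ L) := by
            refine Nat.mul_le_mul (Nat.one_le_pow _ _ (by norm_num)) (Nat.mul_le_mul_right _
              (Nat.one_le_pow _ _ (by norm_num)))
          _ ≤ 4 ^ K * (1 + 2 ^ N1 * 2 ^ L) := Nat.mul_le_mul_left _ (by omega)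
      omega
    · have : x ≤ F.sum := List.single_le_sum (by intro _ _; exact Nat.zero_le _) x hx
      omega
    · rw [hN _ (by positivity) ?_ x hx]
      · exact (hTΨ x (hF x hx)).2
      · refine Dvd.dvd.mul_right ?_ _
        have h1 : (4 : ℕ) ^ K = 2 ^ (2 * K) := by rw [pow_mul]; norm_num
        rw [h1]
        exact pow_dvd_pow _ (by omega)

/-- powers of `2` close to `1` -/
theorem pow_close [hp : Fact p.Prime] (hp2 : p ≠ 2) (N : ℕ) :
    p ^ N ∣ 2 ^ (orderOf (2 : ZMod p) * p ^ N) - 1 := by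
  have h1 : ((p : ℕ) : ℤ) ∣ (2 : ℤ) ^ orderOf (2 : ZMod p) - 1 := by
    rw [← ZMod.intCast_zmod_eq_zero_iff_dvd]
    push_cast
    rw [pow_orderOf_eq_one, sub_self]
  have h2 := dvd_sub_pow_of_dvd_sub (R := ℤ) h1 N
  rw [one_pow, ← pow_mul] at h2
  have h3 : ((p ^ N : ℕ) : ℤ) ∣ ((2 ^ (orderOf (2 : ZMod p) * p ^ N) - 1 : ℕ) : ℤ) := by
    rw [Nat.cast_sub (Nat.one_le_pow _ _ (by norm_num))]
    push_cast
    refine dvd_trans (pow_dvd_pow _ (Nat.le_succ N)) h2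
  exact_mod_cast h3

/-- the colour and the limit at `2 ^ J * h` -/
theorem return_ [hp : Fact p.Prime] (hp2 : p ≠ 2) (hΨ : Lm p c Ψ) {h : ℕ} (hh : 0 < h) :
    ∃ N, c (2 ^ (orderOf (2 : ZMod p) * p ^ N) * h) = Ψ h ∧
      Ψ (2 ^ (orderOf (2 : ZMod p) * p ^ N) * h) = Ψ h := by
  obtain ⟨N, hN⟩ := lim_shift hp.out.pos hΨ hh
  set J := orderOf (2 : ZMod p) * p ^ N with hJ
  have hord : 0 < orderOf (2 : ZMod p) := by
    rw [orderOf_pos_iff]
    have h2 : (2 : ZMod p) ≠ 0 := by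
      intro h0
      have : ((2 : ℕ) : ZMod p) = 0 := by exact_mod_cast h0
      rw [ZMod.natCast_eq_zero_iff] at this
      exact hp2 ((Nat.prime_dvd_prime_iff_eq hp.out Nat.prime_two).1 this)
    exact isOfFinOrder_iff_pow_eq_one.2 ⟨p - 1, by have := hp.out.two_le; omega,
      ZMod.pow_card_sub_one_eq_one h2⟩
  have hJ0 : 0 < J := by
    have := hp.out.pos
    positivity
  have h1 : 1 < 2 ^ J := Nat.one_lt_pow hJ0.ne' (by norm_num)
  have h2 : 2 ^ J * h = h + (2 ^ J - 1) * h := by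
    obtain ⟨m, hm⟩ : ∃ m, 2 ^ J = m + 1 := ⟨2 ^ J - 1, by omega⟩
    rw [hm, Nat.add_sub_cancel]; ring
  refine ⟨N, ?_⟩
  rw [h2]
  exact hN _ (Nat.mul_pos (by omega) hh) (Dvd.dvd.mul_right (pow_close hp2 N) _)

/-- **`p` odd, order of `2` odd: computable solutions.** -/
theorem odd_order [hp : Fact p.Prime] (hp2 : p ≠ 2) (ho : Odd (orderOf (2 : ZMod p)))
    (hΨ : Lm p c Ψ) : ∃ X : Set ℕ, Dec W X ∧ Hom2 c X := by
  by_cases h : ∃ a, 0 < a ∧ Ψ a = Ψ (2 * a)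
  · obtain ⟨a, ha, h⟩ := h
    exact case1 hp.out.pos hΨ ha h
  · push Not at h
    obtain ⟨N, h1, h2⟩ := return_ hp2 hΨ (h := 1) (by norm_num)
    have hodd : Odd (orderOf (2 : ZMod p) * p ^ N) :=
      ho.mul ((hp.out.odd_of_ne_two hp2).pow)
    exact absurd h2 (dbl_odd h hodd (by norm_num))

/-- **`p` odd, order of `2` even: solutions computable from homogeneous sets.** -/
theorem even_order [hp : Fact p.Prime] (hp2 : p ≠ 2) (he : Even (orderOf (2 : ZMod p)))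
    (hc : Gr W c) (hΨ : Lm p c Ψ) {G : Set ℕ} (hG : Dec W G) (hinf : G.Infinite) {j : Fin 2}
    (hGj : ∀ v ∈ G, Ψ (p ^ v) = j) : ∃ X : Set ℕ, Dec W X ∧ Hom2 c X := by
  by_cases h : ∃ a, 0 < a ∧ Ψ a = Ψ (2 * a)
  · obtain ⟨a, ha, h⟩ := h
    exact case1 hp.out.pos hΨ ha h
  · push Not at h
    let T : ℕ → Prop := fun x => ∃ i, i < x + 1 ∧ ∃ v, v < x + 1 ∧
      (v ∈ G ∧ (x = 4 ^ i * p ^ v ∧ c x = j))
    have hpw : ∀ b : ℕ, Computable fun i : ℕ => b ^ i := by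
      intro b
      have : Primrec fun i : ℕ => b ^ i := by
        refine (Primrec.nat_rec₁ (f := fun _ n => n * b) 1
          (Primrec.nat_mul.comp Primrec.snd (Primrec.const b))).of_eq fun n => ?_
        induction n with
        | zero => rfl
        | succ n ih => rw [pow_succ, ← ih]
      exact this.to_comp
    have hT : DP W T := by
      refine DP.ex_lt (p := fun (x i : ℕ) => ∃ v, v < x + 1 ∧
        (v ∈ G ∧ (x = 4 ^ i * p ^ v ∧ c x = j))) ?_ (by fun_prop)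
      refine DP.ex_lt (p := fun (q : ℕ × ℕ) (v : ℕ) =>
        (v ∈ G ∧ (q.1 = 4 ^ q.2 * p ^ v ∧ c q.1 = j))) ?_ (by fun_prop)
      refine DP.and ?_ (DP.and (dp_eq (by fun_prop) ?_) ?_)
      · exact DP.comp (p := fun v : ℕ => v ∈ G) hG (f := fun x : (ℕ × ℕ) × ℕ => x.2)
          (by fun_prop)
      · have h5 : Computable fun x : (ℕ × ℕ) × ℕ => 4 ^ x.1.2 := (hpw 4).comp (by fun_prop)
        have h6 : Computable fun x : (ℕ × ℕ) × ℕ => p ^ x.2 := (hpw p).comp (by fun_prop)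
        exact Primrec.nat_mul.to_comp.comp h5 h6
      · constructor
        · exact REIn.comp hc (f := fun x : (ℕ × ℕ) × ℕ => (x.1.1, j)) (by fun_prop)
        · have h6 : REIn W fun x : (ℕ × ℕ) × ℕ => ∃ i : Fin 2, c x.1.1 = i ∧ i ≠ j := by
            refine REIn.ex (S := fun (x : (ℕ × ℕ) × ℕ) (i : Fin 2) => c x.1.1 = i ∧ i ≠ j) ?_
            refine REIn.and ?_ (REIn.of_re (RE.ne (by fun_prop) (by fun_prop)))
            exact REIn.comp hc (f := fun x : ((ℕ × ℕ) × ℕ) × Fin 2 => (x.1.1.1, x.2))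
              (by fun_prop)
          refine h6.of_eq fun x => ?_
          constructor
          · rintro ⟨i, rfl, h⟩; exact h
          · intro h; exact ⟨_, rfl, h⟩
    have hTΨ : ∀ x, T x → 0 < x ∧ Ψ x = j := by
      rintro x ⟨i, -, v, -, hv, rfl, -⟩
      have := hp.out.pos
      refine ⟨by positivity, ?_⟩
      rw [dbl h i (by positivity)]
      exact hGj v hv
    refine greedy hc hT j fun F hF => ?_
    obtain ⟨N, hN⟩ := lim_list hΨ F fun x hx => (hTΨ x (hF x hx)).1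
    obtain ⟨v, hv, hvN⟩ := hinf.exists_gt (N + F.sum)
    have hpp := hp.out.pos
    obtain ⟨M, hM, -⟩ := return_ hp2 hΨ (h := p ^ v) (by positivity)
    obtain ⟨i, hi⟩ : Even (orderOf (2 : ZMod p) * p ^ M) := he.mul_right _
    have h4 : 2 ^ (orderOf (2 : ZMod p) * p ^ M) = 4 ^ i := by
      rw [hi, ← two_mul, pow_mul]; norm_num
    rw [h4] at hM
    have hy : c (4 ^ i * p ^ v) = j := by rw [hM]; exact hGj v hv
    have hvlt : v < p ^ v := Nat.lt_pow_self hp.out.one_lt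
    have hle : p ^ v ≤ 4 ^ i * p ^ v := Nat.le_mul_of_pos_left _ (by positivity)
    have hile : i < 4 ^ i * p ^ v := by
      calc i < 4 ^ i := Nat.lt_pow_self (by norm_num)
        _ ≤ 4 ^ i * p ^ v := Nat.le_mul_of_pos_right _ (by positivity)
    refine ⟨4 ^ i * p ^ v, ⟨i, by omega, v, by omega, hv, rfl, hy⟩, fun x hx => ?_,
      by positivity, hy, fun x hx => ?_⟩
    · have : x ≤ F.sum := List.single_le_sum (by intro _ _; exact Nat.zero_le _) x hx
      omega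
    · rw [hN _ (by positivity) ?_ x hx]
      · exact (hTΨ x (hF x hx)).2
      · exact Dvd.dvd.mul_left (pow_dvd_pow _ (by omega)) _

end two

end Pool.Agent.T2H49.HTS
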