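import Pool.Agent.T2H49.HT.StabB

/-!
Two colours and sums of at most two elements: lower bounds for stable colourings.
-/

namespace Pool.Agent.T2H49.HTS

open Pool.Agent.Helper446 Pool.Agent.Helper446.Defs Pool.Agent.Helper446.Oracle
open Pool.Agent.Y545.HM

variable {A W : Set ℕ} {p : ℕ}

theorem two_ne [hp : Fact p.Prime] (hp2 : p ≠ 2) : (2 : ZMod p) ≠ 0 := by
  intro h0
  have : ((2 : ℕ) : ZMod p) = 0 := by exact_mod_cast h0
  rw [ZMod.natCast_eq_zero_iff] at this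
  exact hp2 ((Nat.prime_dvd_prime_iff_eq hp.out Nat.prime_two).1 this)

/-- a colouring of the units such that doubling changes the colour -/
theorem exists_table [hp : Fact p.Prime] (hp2 : p ≠ 2) (he : Even (orderOf (2 : ZMod p))) :
    ∃ g : ZMod p → Fin 2, ∀ x : ZMod p, x ≠ 0 → g (2 * x) ≠ g x := by
  classical
  set t : (ZMod p)ˣ := Units.mk0 2 (two_ne hp2) with ht
  have hord : orderOf t = orderOf (2 : ZMod p) := by
    rw [← orderOf_units]; rfl
  let H : Subgroup (ZMod p)ˣ := Subgroup.zpowers t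
  let K : Subgroup (ZMod p)ˣ := Subgroup.zpowers (t ^ 2)
  have htH : t ∈ H := Subgroup.mem_zpowers t
  have htK : t ∉ K := by
    intro h
    obtain ⟨i, hi⟩ := Subgroup.mem_zpowers_iff.1 h
    have h1 : t ^ (2 * i - 1 : ℤ) = 1 := by
      rw [zpow_sub, zpow_one, zpow_mul, zpow_ofNat, hi, mul_inv_cancel]
    rw [← orderOf_dvd_iff_zpow_eq_one, hord] at h1
    obtain ⟨m, hm⟩ := he
    have h2 : (2 : ℤ) ∣ 2 * i - 1 := by
      refine dvd_trans ?_ h1
      rw [hm]
      exact ⟨m, by push_cast; ring⟩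
    omega
  have hor : ∀ h ∈ H, h ∈ K ∨ h * t ∈ K := by
    intro h hh
    obtain ⟨n, rfl⟩ := Subgroup.mem_zpowers_iff.1 hh
    rcases Int.even_or_odd' n with ⟨m, rfl | rfl⟩
    · left
      refine Subgroup.mem_zpowers_iff.2 ⟨m, ?_⟩
      rw [zpow_mul, zpow_ofNat]
    · right
      refine Subgroup.mem_zpowers_iff.2 ⟨m + 1, ?_⟩
      rw [← zpow_add_one, ← zpow_natCast, ← zpow_mul]
      congr 1
      push_cast
      ring
  let r : (ZMod p)ˣ → (ZMod p)ˣ := fun u => (Quotient.out (QuotientGroup.mk u : (ZMod p)ˣ ⧸ H))⁻¹ * u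
  have hrH : ∀ u, r u ∈ H := by
    intro u
    obtain ⟨h, hh⟩ := QuotientGroup.mk_out_eq_mul H u
    show (Quotient.out (QuotientGroup.mk u : (ZMod p)ˣ ⧸ H))⁻¹ * u ∈ H
    have h2 : (Quotient.out (QuotientGroup.mk u : (ZMod p)ˣ ⧸ H))⁻¹ * u = (h : (ZMod p)ˣ)⁻¹ := by
      rw [hh]; group
    rw [h2]
    exact H.inv_mem h.2
  have hrt : ∀ u, r (u * t) = r u * t := by
    intro u
    show (Quotient.out (QuotientGroup.mk (u * t) : (ZMod p)ˣ ⧸ H))⁻¹ * (u * t) =
      (Quotient.out (QuotientGroup.mk u : (ZMod p)ˣ ⧸ H))⁻¹ * u * t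
    rw [QuotientGroup.mk_mul_of_mem u htH, mul_assoc]
  refine ⟨fun x => if hx : x ≠ 0 then (if r (Units.mk0 x hx) ∈ K then 0 else 1) else 0,
    fun x hx => ?_⟩
  have hx2 : 2 * x ≠ 0 := mul_ne_zero (two_ne hp2) hx
  have h1 : Units.mk0 (2 * x) hx2 = Units.mk0 x hx * t := by
    ext
    simp [ht, mul_comm]
  simp only [hx, hx2, ne_eq, not_false_eq_true, dif_pos]
  rw [h1, hrt]
  by_cases h2 : r (Units.mk0 x hx) ∈ K
  · have h3 : r (Units.mk0 x hx) * t ∉ K := by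
      intro h4
      exact htK ((K.mul_mem_cancel_left h2).1 h4)
    simp [h2, h3]
  · have h3 : r (Units.mk0 x hx) * t ∈ K := by
      rcases hor _ (hrH (Units.mk0 x hx)) with h4 | h4
      · exact absurd h4 h2
      · exact h4
    simp [h2, h3]

section

variable (g : ZMod p → Fin 2) (e : ℕ → Fin 2)

/-- **The colouring.** -/
def ecol (n : ℕ) : Fin 2 :=
  g ((n / p ^ padicValNat p n : ℕ) : ZMod p) + e (Nat.pair (padicValNat p n) n)

variable {g e}

theorem ecol_eq [hp : Fact p.Prime] {v u : ℕ} (hu : ¬ p ∣ u) :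
    ecol g e (p ^ v * u) = g (u : ZMod p) + e (Nat.pair v (p ^ v * u)) := by
  have hu0 : u ≠ 0 := fun h => hu (by rw [h]; exact dvd_zero p)
  have h1 : padicValNat p (p ^ v * u) = v := by
    rw [padicValNat.mul (pow_ne_zero _ hp.out.pos.ne') hu0, padicValNat.prime_pow,
      padicValNat.eq_zero_of_not_dvd hu, add_zero]
  unfold ecol
  rw [h1, Nat.mul_div_cancel_left _ (pow_pos hp.out.pos v)]

theorem exists_unit [hp : Fact p.Prime] {n : ℕ} (hn : 0 < n) :
    ∃ u, ¬ p ∣ u ∧ n = p ^ padicValNat p n * u := by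
  obtain ⟨u, hu⟩ := pow_padicValNat_dvd (p := p) (n := n)
  refine ⟨u, fun ⟨m, hm⟩ => ?_, hu⟩
  have h1 : p ^ (padicValNat p n + 1) ∣ n := by
    refine ⟨m, ?_⟩
    nth_rw 1 [hu]
    rw [hm, pow_succ]
    ring
  exact pow_succ_padicValNat_not_dvd hn.ne' h1

theorem val_eq [hp : Fact p.Prime] {v u : ℕ} (hu : ¬ p ∣ u) : padicValNat p (p ^ v * u) = v := by
  have hu0 : u ≠ 0 := fun h => hu (by rw [h]; exact dvd_zero p)
  rw [padicValNat.mul (pow_ne_zero _ hp.out.pos.ne') hu0, padicValNat.prime_pow,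
    padicValNat.eq_zero_of_not_dvd hu, add_zero]

theorem gr_val [hp : Fact p.Prime] : Gr W (padicValNat p) := by
  have hpw : Computable fun i : ℕ => p ^ i := by
    have : Primrec fun i : ℕ => p ^ i := by
      refine (Primrec.nat_rec₁ (f := fun _ n => n * p) 1
        (Primrec.nat_mul.comp Primrec.snd (Primrec.const p))).of_eq fun n => ?_
      induction n with
      | zero => rfl
      | succ n ih => rw [pow_succ, ← ih]
    exact this.to_comp
  have hmod : Computable fun i : ℕ => i % p :=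
    (Primrec.nat_mod.comp Primrec.id (Primrec.const p)).to_comp
  have h : REIn W fun x : ℕ × ℕ => (x.1 = 0 ∧ 0 = x.2) ∨
      ∃ u : ℕ, x.1 = p ^ x.2 * u ∧ u % p ≠ 0 := by
    refine REIn.or (REIn.of_re (RE.and (RE.eq (by fun_prop) (by fun_prop))
      (RE.eq (by fun_prop) (by fun_prop)))) ?_
    refine REIn.ex (S := fun (x : ℕ × ℕ) (u : ℕ) => x.1 = p ^ x.2 * u ∧ u % p ≠ 0) ?_
    refine REIn.of_re (RE.and (RE.eq (by fun_prop) ?_) (RE.ne ?_ (by fun_prop)))
    · exact Primrec.nat_mul.to_comp.comp (hpw.comp (by fun_prop)) (by fun_prop)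
    · exact hmod.comp (by fun_prop)
  refine h.of_eq fun x => ?_
  obtain ⟨n, j⟩ := x
  simp only
  constructor
  · rintro (⟨rfl, h1⟩ | ⟨u, rfl, h2⟩)
    · rw [← h1]; simp
    · refine val_eq fun hd => h2 (Nat.mod_eq_zero_of_dvd hd)
  · rintro rfl
    rcases Nat.eq_zero_or_pos n with rfl | hn
    · left; simp
    · obtain ⟨u, hu, he'⟩ := exists_unit (p := p) hn
      exact Or.inr ⟨u, he', fun h => hu (Nat.dvd_of_mod_eq_zero h)⟩

theorem ecol_gr [hp : Fact p.Prime] (he : Gr W e) : Gr W (ecol g e) := by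
  have hpw : Primrec fun i : ℕ => p ^ i := by
    refine (Primrec.nat_rec₁ (f := fun _ n => n * p) 1
      (Primrec.nat_mul.comp Primrec.snd (Primrec.const p))).of_eq fun n => ?_
    induction n with
    | zero => rfl
    | succ n ih => rw [pow_succ, ← ih]
  have htab : Primrec fun r : ℕ => g (r : ZMod p) := by
    let l : List (Fin 2) := List.map (fun r : ℕ => g ((r : ℕ) : ZMod p)) (List.range p)
    have h1 : Primrec fun r : ℕ => l.getD (r % p) 0 :=
      (Primrec.list_getD (0 : Fin 2)).comp (Primrec.const l)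
        (Primrec.nat_mod.comp Primrec.id (Primrec.const p))
    refine h1.of_eq fun r => ?_
    have h2 : r % p < p := Nat.mod_lt _ hp.out.pos
    rw [List.getD_eq_getElem _ _ (by simpa [l] using h2)]
    simp [l]
  have h1 : Gr W fun n : ℕ => (n, padicValNat p n) := (Gr.of_comp Computable.id).pair gr_val
  have h2 : Gr W fun n : ℕ => g ((n / p ^ padicValNat p n : ℕ) : ZMod p) := by
    refine Gr.post (g := fun x : ℕ × ℕ => g ((x.1 / p ^ x.2 : ℕ) : ZMod p)) ?_ h1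
    exact (htab.comp (Primrec.nat_div.comp Primrec.fst (hpw.comp Primrec.snd))).to_comp
  have h3 : Gr W fun n : ℕ => e (Nat.pair (padicValNat p n) n) := by
    refine he.comp (g := fun n : ℕ => Nat.pair (padicValNat p n) n) ?_
    refine Gr.post (g := fun x : ℕ × ℕ => Nat.pair x.2 x.1) ?_ h1
    exact (Primrec₂.natPair.comp Primrec.snd Primrec.fst).to_comp
  have hadd : Computable fun x : Fin 2 × Fin 2 => x.1 + x.2 := (Primrec.dom_finite _).to_comp
  exact Gr.post hadd (h2.pair h3)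

/-- the numbers at a fixed level -/
theorem far_eq [hp : Fact p.Prime] {v u z : ℕ} (hu : ¬ p ∣ u) (hz : p ^ (v + 1) ∣ z) :
    ∃ u', ¬ p ∣ u' ∧ (u' : ZMod p) = (u : ZMod p) ∧ p ^ v * u + z = p ^ v * u' := by
  obtain ⟨k, rfl⟩ := hz
  refine ⟨u + p * k, fun h => hu ?_, ?_, ?_⟩
  · exact (Nat.dvd_add_left (dvd_mul_right p k)).1 h
  · push_cast
    simp
  · rw [pow_succ]; ring

theorem ecol_stb [hp : Fact p.Prime]
    (hlim : ∀ v, ∃ N j, ∀ n, N ≤ n → e (Nat.pair v n) = j) : Stb p (ecol g e) := by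
  intro a ha
  obtain ⟨u, hu, hau⟩ := exists_unit (p := p) ha
  set v := padicValNat p a
  obtain ⟨N, j, hN⟩ := hlim v
  refine ⟨v + 1 + N, fun z z' hz hz' hd hd' => ?_⟩
  have key : ∀ z, 0 < z → p ^ (v + 1 + N) ∣ z → ecol g e (a + z) = g (u : ZMod p) + j := by
    intro z hz hd
    obtain ⟨u', h1, h2, h3⟩ := far_eq (v := v) hu ((pow_dvd_pow p (by omega)).trans hd)
    rw [hau, h3, ecol_eq h1, h2, ← h3, hN]
    have h4 : p ^ (v + 1 + N) ≤ z := Nat.le_of_dvd hz hd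
    have h5 : v + 1 + N < p ^ (v + 1 + N) := Nat.lt_pow_self hp.out.one_lt
    omega
  rw [key z hz hd, key z' hz' hd']

section

variable [hp : Fact p.Prime] (hp2 : p ≠ 2) (hg : ∀ x : ZMod p, x ≠ 0 → g (2 * x) ≠ g x)
  (hlim : ∀ v, ∃ N j, ∀ n, N ≤ n → e (Nat.pair v n) = j) {X : Set ℕ} (hX : Hom2 (ecol g e) X)

include hp2 hg hlim hX

theorem ethin (v : ℕ) : {x ∈ X | padicValNat p x = v}.Finite := by
  by_contra hinf
  obtain ⟨N, j, hN⟩ := hlim v
  have hpp := hp.out.pos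
  obtain ⟨r, hr⟩ : ∃ r, {x ∈ X | padicValNat p x = v ∧ x / p ^ v % p = r}.Infinite := by
    by_contra hcon
    push Not at hcon
    apply hinf
    have h1 : {x ∈ X | padicValNat p x = v} ⊆ ⋃ r ∈ Finset.range p,
        {x ∈ X | padicValNat p x = v ∧ x / p ^ v % p = r} := by
      rintro x ⟨hx, hv⟩
      rw [Set.mem_iUnion₂]
      exact ⟨x / p ^ v % p, Finset.mem_range.2 (Nat.mod_lt _ hpp), hx, hv, rfl⟩
    refine Set.Finite.subset (Set.Finite.biUnion (Finset.finite_toSet _) fun r _ => ?_) h1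
    exact hcon r
  obtain ⟨x1, ⟨hx1, hv1, hr1⟩, hl1⟩ := hr.exists_gt N
  obtain ⟨x2, ⟨hx2, hv2, hr2⟩, hl2⟩ := hr.exists_gt x1
  obtain ⟨u1, hu1, he1⟩ := exists_unit (p := p) (by omega : 0 < x1)
  obtain ⟨u2, hu2, he2⟩ := exists_unit (p := p) (by omega : 0 < x2)
  rw [hv1] at he1
  rw [hv2] at he2
  have hpv : 0 < p ^ v := by positivity
  rw [he1, Nat.mul_div_cancel_left _ hpv] at hr1
  rw [he2, Nat.mul_div_cancel_left _ hpv] at hr2
  have h12 : (u2 : ZMod p) = (u1 : ZMod p) := by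
    rw [← ZMod.natCast_mod u2 p, ← ZMod.natCast_mod u1 p, hr1, hr2]
  have hne : (u1 : ZMod p) ≠ 0 := by
    rw [Ne, ZMod.natCast_eq_zero_iff]; exact hu1
  have hsum : ((u1 + u2 : ℕ) : ZMod p) = 2 * (u1 : ZMod p) := by
    push_cast
    rw [h12]; ring
  have hu12 : ¬ p ∣ u1 + u2 := by
    rw [← ZMod.natCast_eq_zero_iff, hsum]
    exact mul_ne_zero (two_ne hp2) hne
  obtain ⟨-, -, i, hi1, hi2⟩ := hX
  have e1 := hi1 x1 hx1
  have e2 := hi2 x1 hx1 x2 hx2 hl2
  have h3 : x1 + x2 = p ^ v * (u1 + u2) := by rw [mul_add, ← he1, ← he2]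
  rw [h3, ecol_eq hu12, hN _ (by rw [← h3]; omega), hsum] at e2
  nth_rw 1 [he1] at e1
  rw [ecol_eq hu1, hN _ (by rw [← he1]; omega)] at e1
  exact hg _ hne (add_right_cancel (e2.trans e1.symm))

theorem efar (N m : ℕ) : ∃ y ∈ X, m < y ∧ N ≤ padicValNat p y := by
  by_contra hcon
  push Not at hcon
  apply hX.1
  have h1 : X ⊆ (⋃ v ∈ Finset.range N, {x ∈ X | padicValNat p x = v}) ∪ Set.Iic m := by
    intro x hx
    by_cases h : x ≤ m
    · exact Or.inr h
    · left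
      rw [Set.mem_iUnion₂]
      exact ⟨padicValNat p x, Finset.mem_range.2 (hcon x hx (by omega)), hx, rfl⟩
  refine Set.Finite.subset (Set.Finite.union ?_ (Set.finite_Iic m)) h1
  exact Set.Finite.biUnion (Finset.finite_toSet _) fun v _ => ethin hp2 hg hlim hX v

theorem esettle : ∃ i, ∀ v u, ¬ p ∣ u → p ^ v * u ∈ X →
    ∃ N, ∀ n, N ≤ n → g (u : ZMod p) + e (Nat.pair v n) = i := by
  have hfar := efar hp2 hg hlim hX
  obtain ⟨-, -, i, hi1, hi2⟩ := hX
  refine ⟨i, fun v u hu hx => ?_⟩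
  obtain ⟨N, j, hN⟩ := hlim v
  refine ⟨N, fun n hn => ?_⟩
  obtain ⟨y, hy, hl, hvy⟩ := hfar (v + 1) (p ^ v * u + N)
  obtain ⟨u', h1, h2, h3⟩ := far_eq (v := v) (z := y) hu
    ((pow_dvd_pow p hvy).trans pow_padicValNat_dvd)
  have h4 := hi2 _ hx y hy (by omega)
  rw [h3, ecol_eq h1, h2, ← h3, hN _ (by omega)] at h4
  rw [hN n hn]
  exact h4

end

/-- **A homogeneous set from a solution.** -/
theorem reverse [hp : Fact p.Prime] (hp2 : p ≠ 2) (hg : ∀ x : ZMod p, x ≠ 0 → g (2 * x) ≠ g x)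
    (hlim : ∀ v, ∃ N j, ∀ n, N ≤ n → e (Nat.pair v n) = j) {X : Set ℕ} (hXW : Dec W X)
    (hX : Hom2 (ecol g e) X) : ∃ G : Set ℕ, Dec W G ∧ G.Infinite ∧
      ∃ j, ∀ v ∈ G, ∃ N, ∀ n, N ≤ n → e (Nat.pair v n) = j := by
  classical
  obtain ⟨i, hi⟩ := esettle hp2 hg hlim hX
  have hfar := efar hp2 hg hlim hX
  have hpp := hp.out.pos
  have hpos : ∀ x ∈ X, 0 < x := fun x hx => by
    rcases Nat.eq_zero_or_pos x with h | h
    · subst h; exact absurd hx hX.2.1
    · exact h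
  -- a residue with arbitrarily high levels
  obtain ⟨r, hr0, hr⟩ : ∃ r : Fin p, r.val ≠ 0 ∧ ∀ m, ∃ v, m < v ∧ ∃ u, u % p = r.val ∧
      p ^ v * u ∈ X := by
    by_contra hcon
    push Not at hcon
    have h1 : ∀ r : Fin p, ∃ m, r.val ≠ 0 → ∀ v, m < v → ∀ u, u % p = r.val →
        p ^ v * u ∉ X := by
      intro r
      by_cases h : r.val = 0
      · exact ⟨0, fun h' => absurd h h'⟩
      · obtain ⟨m, hm⟩ := hcon r h
        exact ⟨m, fun _ => hm⟩
    choose m hm using h1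
    obtain ⟨y, hy, -, hvy⟩ := hfar (Finset.univ.sup m + 1) 0
    obtain ⟨u, hu, he⟩ := exists_unit (p := p) (hpos y hy)
    have h2 : m ⟨u % p, Nat.mod_lt _ hpp⟩ ≤ Finset.univ.sup m :=
      Finset.le_sup (f := m) (Finset.mem_univ _)
    refine hm ⟨u % p, Nat.mod_lt _ hpp⟩ ?_ (padicValNat p y) (by omega) u rfl ?_
    · intro h3
      exact hu (Nat.dvd_of_mod_eq_zero h3)
    · rw [← he]; exact hy
  have hpw : Computable fun i : ℕ => p ^ i := by
    have : Primrec fun i : ℕ => p ^ i := by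
      refine (Primrec.nat_rec₁ (f := fun _ n => n * p) 1
        (Primrec.nat_mul.comp Primrec.snd (Primrec.const p))).of_eq fun n => ?_
      induction n with
      | zero => rfl
      | succ n ih => rw [pow_succ, ← ih]
    exact this.to_comp
  have hmod : Computable fun i : ℕ => i % p :=
    (Primrec.nat_mod.comp Primrec.id (Primrec.const p)).to_comp
  let R : ℕ → ℕ → Prop := fun m v => m < v ∧ ∃ u, u % p = r.val ∧ p ^ v * u ∈ X
  have hR : REIn W fun x : ℕ × ℕ => R x.1 x.2 := by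
    refine REIn.and (REIn.of_re (RE.lt (by fun_prop) (by fun_prop))) ?_
    refine REIn.ex (S := fun (x : ℕ × ℕ) (u : ℕ) => u % p = r.val ∧ p ^ x.2 * u ∈ X) ?_
    refine REIn.and (REIn.of_re (RE.eq (hmod.comp (by fun_prop)) (by fun_prop))) ?_
    refine hXW.1.comp (f := fun x : (ℕ × ℕ) × ℕ => p ^ x.1.2 * x.2) ?_
    exact Primrec.nat_mul.to_comp.comp (hpw.comp (by fun_prop)) (by fun_prop)
  obtain ⟨f, hf, hfR⟩ := choice hR hr
  have hst : Gr W fun n : ℕ => f^[n] (f 0) := Gr.iter hf (f 0)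
  have hmono : StrictMono fun n : ℕ => f^[n] (f 0) := by
    refine strictMono_nat_of_lt_succ fun n => ?_
    rw [Function.iterate_succ_apply']
    exact (hfR _).1
  refine ⟨_, range_dec hst hmono, Set.infinite_range_of_injective hmono.injective,
    i - g ((r.val : ℕ) : ZMod p), ?_⟩
  rintro v ⟨n, rfl⟩
  have h1 : ∃ m, f^[n] (f 0) = f m := by
    rcases n with _ | n
    · exact ⟨0, rfl⟩
    · exact ⟨_, Function.iterate_succ_apply' f n (f 0)⟩
  obtain ⟨m, hm⟩ := h1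
  obtain ⟨-, u, hu1, hu2⟩ := hfR m
  simp only
  rw [hm]
  have hu : ¬ p ∣ u := by
    intro hd
    rw [Nat.mod_eq_zero_of_dvd hd] at hu1
    exact hr0 hu1.symm
  obtain ⟨N, hN⟩ := hi (f m) u hu hu2
  refine ⟨N, fun n' hn' => ?_⟩
  rw [← hu1, ZMod.natCast_mod, ← hN n' hn']
  abel

end

end Pool.Agent.T2H49.HTS
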