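import Mathlib

/-!
Arithmetic for the colouring with two colours that codes the jump in sums of at most three
elements: the clocks on the orbits of multiplication by three.
-/

namespace Pool.Agent.T2H49.HT3

/-- the clock `e`: the square of `u` is `2 ^ (e + 4) + 1` modulo `2 ^ (e + 5)` -/
def Tm (e u : ℕ) : Prop := u ^ 2 % 2 ^ (e + 5) = 2 ^ (e + 4) + 1

instance (e u : ℕ) : Decidable (Tm e u) := by unfold Tm; infer_instance

/-- the number of steps until the clock `e` -/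
def rr (e u : ℕ) : ℕ := (List.range (2 ^ (e + 2))).findIdx fun r => decide (Tm e (3 ^ r * u))

theorem nine_pow (k : ℕ) : 9 ^ 2 ^ k % 2 ^ (k + 4) = 2 ^ (k + 3) + 1 := by
  induction k with
  | zero => norm_num
  | succ k ih =>
    have h1 := Nat.div_add_mod (9 ^ 2 ^ k) (2 ^ (k + 4))
    rw [ih] at h1
    set m := 9 ^ 2 ^ k / 2 ^ (k + 4)
    have h2 : 9 ^ 2 ^ (k + 1) = (9 ^ 2 ^ k) ^ 2 := by rw [← pow_mul, pow_succ]
    have h3 : (9 : ℕ) ^ 2 ^ (k + 1) = 2 ^ (k + 1 + 4) * (m + 2 ^ (k + 1) * (2 * m + 1) ^ 2) +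
        (2 ^ (k + 1 + 3) + 1) := by
      rw [h2, ← h1]
      ring
    rw [h3, Nat.mul_add_mod, Nat.mod_eq_of_lt]
    have h4 : 2 ^ (k + 1 + 4) = 2 * 2 ^ (k + 1 + 3) := by ring
    have h5 : 1 < 2 ^ (k + 1 + 3) := Nat.one_lt_two_pow (by omega)
    omega

theorem sq_mod_eight {u : ℕ} (hu : u % 2 = 1) : u ^ 2 % 8 = 1 := by
  have h : u % 8 = 1 ∨ u % 8 = 3 ∨ u % 8 = 5 ∨ u % 8 = 7 := by omega
  rw [Nat.pow_mod]
  rcases h with h | h | h | h <;> rw [h]

/-- either one or one plus half the modulus -/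
theorem mod_double {n m : ℕ} (hm : 1 < m) (h : n % m = 1) : n % (2 * m) = 1 ∨ n % (2 * m) = m + 1 := by
  have h1 := Nat.div_add_mod n m
  rw [h] at h1
  set k := n / m
  have h2 := Nat.div_add_mod k 2
  rcases Nat.mod_two_eq_zero_or_one k with h3 | h3
  · left
    rw [h3] at h2
    have : n = 2 * m * (k / 2) + 1 := by rw [← h1, ← h2]; simp; ring
    rw [this, Nat.mul_add_mod, Nat.mod_eq_of_lt (by omega)]
  · right
    rw [h3] at h2
    have : n = 2 * m * (k / 2) + (m + 1) := by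
      rw [← h1]
      nth_rw 1 [← h2]
      ring
    rw [this, Nat.mul_add_mod, Nat.mod_eq_of_lt (by omega)]

theorem exists_one (u : ℕ) (hu : u % 2 = 1) (k : ℕ) :
    ∃ r < 2 ^ k, (3 ^ r * u) ^ 2 % 2 ^ (k + 3) = 1 := by
  induction k with
  | zero => exact ⟨0, by norm_num, by simpa using sq_mod_eight hu⟩
  | succ k ih =>
    obtain ⟨r, hr, h⟩ := ih
    have hp : 1 < 2 ^ (k + 3) := Nat.one_lt_two_pow (by omega)
    have e1 : 2 ^ (k + 1 + 3) = 2 * 2 ^ (k + 3) := by ring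
    rcases mod_double hp h with h1 | h1
    · exact ⟨r, by rw [pow_succ]; omega, by rw [e1]; exact h1⟩
    · refine ⟨r + 2 ^ k, by rw [pow_succ]; omega, ?_⟩
      have h2 : (3 ^ (r + 2 ^ k) * u) ^ 2 = (3 ^ r * u) ^ 2 * 9 ^ 2 ^ k := by
        have : (9 : ℕ) = 3 ^ 2 := by norm_num
        rw [this, ← pow_mul]
        ring
      have h3 := nine_pow k
      have e2 : 2 ^ (k + 4) = 2 * 2 ^ (k + 3) := by ring
      rw [e2] at h3
      rw [h2, e1, Nat.mul_mod, h1, h3]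
      have h4 : (2 ^ (k + 3) + 1) * (2 ^ (k + 3) + 1) =
          2 * 2 ^ (k + 3) * (2 ^ (k + 2) + 1) + 1 := by ring
      rw [h4, Nat.mul_add_mod, Nat.mod_eq_of_lt (by omega)]

theorem exists_tm (e u : ℕ) (hu : u % 2 = 1) : ∃ r < 2 ^ (e + 2), Tm e (3 ^ r * u) := by
  obtain ⟨r, hr, h⟩ := exists_one u hu (e + 1)
  have hp : 1 < 2 ^ (e + 4) := Nat.one_lt_two_pow (by omega)
  have e1 : 2 ^ (e + 5) = 2 * 2 ^ (e + 4) := by ring
  have e0 : 2 ^ (e + 1 + 3) = 2 ^ (e + 4) := by ring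
  rw [e0] at h
  unfold Tm
  rcases mod_double hp h with h1 | h1
  · refine ⟨r + 2 ^ (e + 1), by rw [pow_succ (n := e + 1)]; omega, ?_⟩
    have h2 : (3 ^ (r + 2 ^ (e + 1)) * u) ^ 2 = (3 ^ r * u) ^ 2 * 9 ^ 2 ^ (e + 1) := by
      have : (9 : ℕ) = 3 ^ 2 := by norm_num
      rw [this, ← pow_mul]
      ring
    have h3 := nine_pow (e + 1)
    have e2 : 2 ^ (e + 1 + 4) = 2 * 2 ^ (e + 4) := by ring
    rw [e2, e0] at h3
    rw [h2, e1, Nat.mul_mod, h1, h3, Nat.one_mul, Nat.mod_eq_of_lt (by omega)]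
  · exact ⟨r, by rw [pow_succ (n := e + 1)]; omega, by rw [e1]; exact h1⟩

theorem rr_lt {e u : ℕ} (hu : u % 2 = 1) : rr e u < 2 ^ (e + 2) := by
  obtain ⟨r, hr, h⟩ := exists_tm e u hu
  unfold rr
  have h1 : (List.range (2 ^ (e + 2))).findIdx (fun r => decide (Tm e (3 ^ r * u))) <
      (List.range (2 ^ (e + 2))).length :=
    List.findIdx_lt_length_of_exists ⟨r, List.mem_range.2 hr, by simpa using h⟩
  simpa using h1

theorem rr_spec {e u : ℕ} (hu : u % 2 = 1) : Tm e (3 ^ rr e u * u) := by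
  have h1 := rr_lt (e := e) hu
  have h2 : (List.range (2 ^ (e + 2))).findIdx (fun r => decide (Tm e (3 ^ r * u))) <
      (List.range (2 ^ (e + 2))).length := by rw [List.length_range]; exact h1
  have h3 := List.findIdx_getElem (w := h2)
  simpa [rr] using h3

theorem rr_le {e u r : ℕ} (hu : u % 2 = 1) (h : Tm e (3 ^ r * u)) : rr e u ≤ r := by
  by_contra hcon
  push Not at hcon
  have h1 := rr_lt (e := e) hu
  have h2 := List.not_of_lt_findIdx (xs := List.range (2 ^ (e + 2)))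
    (p := fun r => decide (Tm e (3 ^ r * u))) (i := r) hcon
  simp only [List.getElem_range, decide_eq_false_iff_not] at h2
  exact h2 h

theorem rr_zero {e u : ℕ} (hu : u % 2 = 1) (h : Tm e u) : rr e u = 0 := by
  have := rr_le (r := 0) hu (by simpa using h)
  omega

theorem tm_of_rr_zero {e u : ℕ} (hu : u % 2 = 1) (h : rr e u = 0) : Tm e u := by
  have := rr_spec (e := e) hu
  rw [h] at this
  simpa using this

theorem odd3 {u : ℕ} (hu : u % 2 = 1) : 3 * u % 2 = 1 := by omega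

theorem rr_step {e u : ℕ} (hu : u % 2 = 1) (h : ¬ Tm e u) : rr e u = rr e (3 * u) + 1 := by
  have h1 : rr e u ≠ 0 := fun h2 => h (tm_of_rr_zero hu h2)
  apply le_antisymm
  · refine rr_le hu ?_
    have := rr_spec (e := e) (odd3 hu)
    rwa [← mul_assoc, ← pow_succ] at this
  · have h2 : rr e (3 * u) ≤ rr e u - 1 := by
      refine rr_le (odd3 hu) ?_
      rw [← mul_assoc, ← pow_succ, Nat.sub_add_cancel (by omega)]
      exact rr_spec hu
    omega

theorem tm_congr {e u u' : ℕ} (h : u % 2 ^ (e + 5) = u' % 2 ^ (e + 5)) : Tm e u ↔ Tm e u' := by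
  unfold Tm
  rw [Nat.pow_mod, h, ← Nat.pow_mod]

theorem rr_congr {e u u' : ℕ} (h : u % 2 ^ (e + 5) = u' % 2 ^ (e + 5)) : rr e u = rr e u' := by
  unfold rr
  congr 1
  funext r
  refine decide_eq_decide.2 (tm_congr ?_)
  rw [Nat.mul_mod, h, ← Nat.mul_mod]

theorem tm_mod {e u k : ℕ} (h : Tm e u) (hk : k ≤ e + 4) (hk0 : 0 < k) : u ^ 2 % 2 ^ k = 1 := by
  unfold Tm at h
  have h1 : u ^ 2 % 2 ^ (e + 5) % 2 ^ k = u ^ 2 % 2 ^ k :=
    Nat.mod_mod_of_dvd _ (pow_dvd_pow 2 (by omega))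
  rw [← h1, h, Nat.add_mod, Nat.mod_eq_zero_of_dvd (pow_dvd_pow 2 hk), Nat.zero_add, Nat.mod_mod,
    Nat.mod_eq_of_lt (Nat.one_lt_two_pow (by omega))]

theorem tm_unique {e e' u : ℕ} (h : Tm e u) (h' : Tm e' u) : e = e' := by
  by_contra hne
  wlog hlt : e < e' generalizing e e'
  · exact this h' h (Ne.symm hne) (by omega)
  have h1 := tm_mod (k := e + 5) h' (by omega) (by omega)
  unfold Tm at h
  rw [h1] at h
  have : 0 < 2 ^ (e + 4) := by positivity
  omega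

theorem not_tm_three {e e' u : ℕ} (h : Tm e u) : ¬ Tm e' (3 * u) := by
  intro h'
  have h1 := tm_mod (k := 4) h (by omega) (by omega)
  have h2 := tm_mod (k := 4) h' (by omega) (by omega)
  rw [mul_pow, Nat.mul_mod, h1] at h2
  norm_num at h2

theorem tm_zero_iff {u : ℕ} : Tm 0 u ↔ u ^ 2 % 32 = 17 := by
  unfold Tm
  norm_num

theorem rr_three {u : ℕ} (hu : u % 2 = 1) (h : Tm 0 u) : rr 0 (3 * u) = 3 := by
  rw [tm_zero_iff] at h
  have h3 : ¬ Tm 0 (3 * u) := by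
    rw [tm_zero_iff, mul_pow, Nat.mul_mod, h]; norm_num
  have h9 : ¬ Tm 0 (3 * (3 * u)) := by
    rw [tm_zero_iff, mul_pow, mul_pow, ← mul_assoc, Nat.mul_mod, h]; norm_num
  have h27 : ¬ Tm 0 (3 * (3 * (3 * u))) := by
    rw [tm_zero_iff, mul_pow, mul_pow, mul_pow, ← mul_assoc, ← mul_assoc, Nat.mul_mod, h]; norm_num
  have h81 : Tm 0 (3 * (3 * (3 * (3 * u)))) := by
    rw [tm_zero_iff, mul_pow, mul_pow, mul_pow, mul_pow, ← mul_assoc, ← mul_assoc, ← mul_assoc,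
      Nat.mul_mod, h]; norm_num
  have o3 := odd3 hu
  have o9 := odd3 o3
  have o27 := odd3 o9
  rw [rr_step o3 h3, rr_step o9 h9, rr_step o27 h27, rr_zero (odd3 o27) h81]

theorem two_le_rr {e u : ℕ} (hu : u % 2 = 1) (h : Tm 0 u) : 2 ≤ rr (e + 1) u := by
  have h1 : ¬ Tm (e + 1) u := fun h2 => by have := tm_unique h h2; omega
  rw [rr_step hu h1]
  have h2 : ¬ Tm (e + 1) (3 * u) := not_tm_three h
  rw [rr_step (odd3 hu) h2]
  omega

end Pool.Agent.T2H49.HT3
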