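import Pool.Agent.T2H49.HT.ThreeA

/-!
The gaps that see an enumerated number, and the change of this relation under multiplication by
three.
-/

namespace Pool.Agent.T2H49.HT3

/-- `z` is enumerated at stage `t` -/
def Fst (q : ℕ → ℕ → Bool) (z t : ℕ) : Prop := q z t = true ∧ ∀ n, n < t → q z n = false

theorem Fst.unique {q : ℕ → ℕ → Bool} {z t t' : ℕ} (h : Fst q z t) (h' : Fst q z t') :
    t = t' := by
  rcases lt_trichotomy t t' with h1 | h1 | h1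
  · have := h'.2 t h1
    rw [h.1] at this
    cases this
  · exact h1
  · have := h.2 t' h1
    rw [h'.1] at this
    cases this

/-- the end of the block of `u` -/
def xx (u : ℕ) : ℕ := 3 ^ rr 0 u * u

/-- the gap of `xx u` below the exponent `b` sees `z` -/
def Wt (q : ℕ → ℕ → Bool) (u b z : ℕ) : Prop :=
  xx u / 2 ^ b % 2 = 1 ∧ ∃ t, t < b ∧ (Fst q z t ∧ t + 5 ≤ b ∧
    3 ^ rr (z + 1) u * (xx u % 2 ^ b) < 2 ^ t * 3 ^ rr 0 u)

variable {q : ℕ → ℕ → Bool}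

theorem low_ge {n b b' : ℕ} (h : n / 2 ^ b % 2 = 1) (hb : b < b') : 2 ^ b ≤ n % 2 ^ b' := by
  have h1 : n % 2 ^ b' / 2 ^ b = n / 2 ^ b % 2 ^ (b' - b) := by
    have h2 : 2 ^ b' = 2 ^ b * 2 ^ (b' - b) := by rw [← pow_add]; congr 1; omega
    rw [h2]
    exact Nat.mod_mul_right_div_self n (2 ^ b) (2 ^ (b' - b))
  have h2 : n / 2 ^ b % 2 ^ (b' - b) % 2 = n / 2 ^ b % 2 :=
    Nat.mod_mod_of_dvd _ (dvd_pow_self 2 (by omega))
  by_contra hcon
  push Not at hcon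
  rw [Nat.div_eq_of_lt hcon] at h1
  rw [← h1, h] at h2
  simp at h2

theorem pow_rr_le {u : ℕ} (hu : u % 2 = 1) : 3 ^ rr 0 u ≤ 27 := by
  have h := rr_lt (e := 0) hu
  have h1 : rr 0 u ≤ 3 := by norm_num at h; omega
  calc 3 ^ rr 0 u ≤ 3 ^ 3 := Nat.pow_le_pow_right (by norm_num) h1
    _ = 27 := by norm_num

theorem low_lt {u b z t T : ℕ} (hu : u % 2 = 1)
    (h : 3 ^ rr (z + 1) u * (xx u % 2 ^ b) < 2 ^ t * 3 ^ rr 0 u) (ht : t + 5 ≤ T) :
    xx u % 2 ^ b < 2 ^ T := by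
  have h1 := pow_rr_le hu
  have h2 : xx u % 2 ^ b ≤ 3 ^ rr (z + 1) u * (xx u % 2 ^ b) :=
    Nat.le_mul_of_pos_left _ (by positivity)
  have h3 : 2 ^ t * 3 ^ rr 0 u ≤ 2 ^ t * 32 := Nat.mul_le_mul_left _ (by omega)
  have h4 : 2 ^ t * 32 = 2 ^ (t + 5) := by ring
  have h5 : 2 ^ (t + 5) ≤ 2 ^ T := Nat.pow_le_pow_right (by norm_num) ht
  omega

theorem Wt.unique {u b b' z : ℕ} (hu : u % 2 = 1) (h : Wt q u b z) (h' : Wt q u b' z) :
    b = b' := by
  by_contra hne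
  wlog hlt : b < b' generalizing b b'
  · exact this h' h (Ne.symm hne) (by omega)
  obtain ⟨h1, t, -, h2, h3, -⟩ := h
  obtain ⟨-, t', -, h2', -, h4'⟩ := h'
  have h5 := h2.unique h2'
  subst h5
  have h6 := low_lt hu h4' h3
  have h7 := low_ge h1 hlt
  omega

theorem xx_step {u : ℕ} (hu : u % 2 = 1) (h : ¬ Tm 0 u) : xx (3 * u) = xx u := by
  unfold xx
  rw [rr_step hu h, pow_succ]
  ring

theorem Wt.of_three {u b z : ℕ} (hu : u % 2 = 1) (h : ¬ Tm 0 u) (hw : Wt q (3 * u) b z) :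
    Wt q u b z := by
  obtain ⟨h1, t, htb, h2, h3, h4⟩ := hw
  rw [xx_step hu h] at h1 h4
  refine ⟨h1, t, htb, h2, h3, ?_⟩
  rw [rr_step hu h, pow_succ]
  by_cases h5 : Tm (z + 1) u
  · rw [rr_zero hu h5, pow_zero, Nat.one_mul]
    have h6 : xx u % 2 ^ b ≤ 3 ^ rr (z + 1) (3 * u) * (xx u % 2 ^ b) :=
      Nat.le_mul_of_pos_left _ (by positivity)
    have h7 : 2 ^ t * 3 ^ rr 0 (3 * u) ≤ 2 ^ t * (3 ^ rr 0 (3 * u) * 3) :=
      Nat.mul_le_mul_left _ (by omega)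
    omega
  · rw [rr_step hu h5, pow_succ]
    calc _ = 3 * (3 ^ rr (z + 1) (3 * u) * (xx u % 2 ^ b)) := by ring
      _ < 3 * (2 ^ t * 3 ^ rr 0 (3 * u)) := by omega
      _ = _ := by ring

theorem Wt.to_three {u b z : ℕ} (hu : u % 2 = 1) (h : ¬ Tm 0 u) (h5 : ¬ Tm (z + 1) u)
    (hw : Wt q u b z) : Wt q (3 * u) b z := by
  obtain ⟨h1, t, htb, h2, h3, h4⟩ := hw
  rw [← xx_step hu h] at h1 h4
  refine ⟨h1, t, htb, h2, h3, ?_⟩
  rw [rr_step hu h, rr_step hu h5, pow_succ, pow_succ] at h4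
  have e1 : 3 ^ rr (z + 1) (3 * u) * 3 * (xx (3 * u) % 2 ^ b) =
      3 * (3 ^ rr (z + 1) (3 * u) * (xx (3 * u) % 2 ^ b)) := by ring
  have e2 : 2 ^ t * (3 ^ rr 0 (3 * u) * 3) = 3 * (2 ^ t * 3 ^ rr 0 (3 * u)) := by ring
  rw [e1, e2] at h4
  omega

theorem xx_tm {u : ℕ} (hu : u % 2 = 1) (h : Tm 0 u) : xx u = u ∧ xx (3 * u) = 81 * u := by
  unfold xx
  rw [rr_zero hu h, rr_three hu h]
  constructor
  · simp
  · ring

theorem Wt.low {u b z : ℕ} (hu : u % 2 = 1) (h : Tm 0 u) (hw : Wt q u b z) :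
    81 * u % 2 ^ b = 81 * (u % 2 ^ b) ∧ 81 * u / 2 ^ b % 2 = u / 2 ^ b % 2 := by
  obtain ⟨h1, t, htb, h2, h3, h4⟩ := hw
  rw [(xx_tm hu h).1] at h1 h4
  rw [rr_zero hu h, pow_zero, Nat.mul_one] at h4
  have h5 := two_le_rr (e := z) hu h
  have h6 : 3 ^ 2 * (u % 2 ^ b) ≤ 3 ^ rr (z + 1) u * (u % 2 ^ b) :=
    Nat.mul_le_mul_right _ (Nat.pow_le_pow_right (by norm_num) h5)
  have h7 : 2 ^ (t + 5) ≤ 2 ^ b := Nat.pow_le_pow_right (by norm_num) h3
  have h8 : 2 ^ (t + 5) = 32 * 2 ^ t := by ring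
  have h9 : 81 * (u % 2 ^ b) < 2 ^ b := by omega
  have h10 : 81 * u = 2 ^ b * (81 * (u / 2 ^ b)) + 81 * (u % 2 ^ b) := by
    nth_rw 1 [← Nat.div_add_mod u (2 ^ b)]
    ring
  constructor
  · rw [h10, Nat.mul_add_mod, Nat.mod_eq_of_lt h9]
  · rw [h10, Nat.mul_add_div (by positivity), Nat.div_eq_of_lt h9]
    omega

theorem Wt.tm_to {u b z : ℕ} (hu : u % 2 = 1) (h : Tm 0 u) (hw : Wt q u b z) :
    Wt q (3 * u) b z := by
  obtain ⟨h9, h10⟩ := hw.low hu h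
  obtain ⟨h1, t, htb, h2, h3, h4⟩ := hw
  rw [(xx_tm hu h).1] at h1 h4
  unfold Wt
  rw [(xx_tm hu h).2, h9, h10]
  refine ⟨h1, t, htb, h2, h3, ?_⟩
  have h5 : ¬ Tm (z + 1) u := fun h2 => by have := tm_unique h h2; omega
  rw [rr_three hu h]
  rw [rr_zero hu h, pow_zero, Nat.mul_one, rr_step hu h5, pow_succ] at h4
  calc _ = 27 * (3 ^ rr (z + 1) (3 * u) * 3 * (u % 2 ^ b)) := by ring
    _ < 27 * 2 ^ t := by omega
    _ = _ := by ring

theorem Wt.tm_of {u b z z' : ℕ} (hu : u % 2 = 1) (h : Tm 0 u) (hw : Wt q u b z')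
    (hw' : Wt q (3 * u) b z) : Wt q u b z := by
  obtain ⟨h9, h10⟩ := hw.low hu h
  obtain ⟨h1, t, htb, h2, h3, h4⟩ := hw'
  rw [(xx_tm hu h).2] at h1 h4
  rw [h9] at h4
  rw [h10] at h1
  unfold Wt
  rw [(xx_tm hu h).1]
  refine ⟨h1, t, htb, h2, h3, ?_⟩
  have h5 : ¬ Tm (z + 1) u := fun h2 => by have := tm_unique h h2; omega
  rw [rr_three hu h] at h4
  rw [rr_zero hu h, pow_zero, Nat.mul_one, rr_step hu h5, pow_succ]
  have e1 : 3 ^ rr (z + 1) (3 * u) * (81 * (u % 2 ^ b)) =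
      27 * (3 ^ rr (z + 1) (3 * u) * 3 * (u % 2 ^ b)) := by ring
  have e2 : 2 ^ t * 3 ^ 3 = 27 * 2 ^ t := by ring
  rw [e1, e2] at h4
  omega

open Classical in
/-- the number of gaps of `xx u` that see a number below `j` -/
noncomputable def Nj (q : ℕ → ℕ → Bool) (j u : ℕ) : ℕ :=
  ((Finset.range (xx u)).filter fun b => ∃ z, z < j ∧ Wt q u b z).card

theorem Wt.lt {u b z : ℕ} (h : Wt q u b z) : b < xx u := by
  have h1 := h.1
  have h2 : xx u / 2 ^ b ≠ 0 := by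
    intro h3
    rw [h3] at h1
    simp at h1
  have h3 : 2 ^ b ≤ xx u := by
    by_contra hcon
    exact h2 (Nat.div_eq_of_lt (by omega))
  exact lt_of_lt_of_le Nat.lt_two_pow_self h3

/-- the number `j` counts at `u` -/
def Ej (q : ℕ → ℕ → Bool) (j u : ℕ) : Prop := ∃ b, Wt q u b j ∧ ∀ z, z < j → ¬ Wt q u b z

theorem nj_succ_of {j u : ℕ} (hu : u % 2 = 1) (h : Ej q j u) : Nj q (j + 1) u = Nj q j u + 1 := by
  classical
  obtain ⟨b, h1, h2⟩ := h
  unfold Nj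
  have h3 : ((Finset.range (xx u)).filter fun b => ∃ z, z < j + 1 ∧ Wt q u b z) =
      insert b ((Finset.range (xx u)).filter fun b => ∃ z, z < j ∧ Wt q u b z) := by
    ext b'
    simp only [Finset.mem_filter, Finset.mem_range, Finset.mem_insert]
    constructor
    · rintro ⟨h3, z, hz, h4⟩
      rcases Nat.lt_succ_iff_lt_or_eq.1 hz with h5 | h5
      · exact Or.inr ⟨h3, z, h5, h4⟩
      · subst h5
        exact Or.inl (h4.unique hu h1)
    · rintro (h3 | ⟨h3, z, hz, h4⟩)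
      · subst h3
        exact ⟨h1.lt, j, by omega, h1⟩
      · exact ⟨h3, z, by omega, h4⟩
  rw [h3, Finset.card_insert_of_notMem]
  simp only [Finset.mem_filter, Finset.mem_range, not_and, not_exists]
  exact fun _ z hz => h2 z hz

theorem nj_succ_not {j u : ℕ} (h : ¬ Ej q j u) : Nj q (j + 1) u = Nj q j u := by
  classical
  unfold Nj
  congr 1
  ext b
  simp only [Finset.mem_filter, Finset.mem_range]
  constructor
  · rintro ⟨h3, z, hz, h4⟩
    refine ⟨h3, ?_⟩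
    rcases Nat.lt_succ_iff_lt_or_eq.1 hz with h5 | h5
    · exact ⟨z, h5, h4⟩
    · subst h5
      by_contra hcon
      exact h ⟨b, h4, fun z' hz' h6 => hcon ⟨z', hz', h6⟩⟩
  · rintro ⟨h3, z, hz, h4⟩
    exact ⟨h3, z, by omega, h4⟩

theorem ej_iff {j u : ℕ} (hu : u % 2 = 1) : Ej q j u ↔ Nj q (j + 1) u % 2 ≠ Nj q j u % 2 := by
  by_cases h : Ej q j u
  · have := nj_succ_of hu h
    simp only [h, true_iff]
    omega
  · have := nj_succ_not h
    simp only [h, false_iff]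
    omega

theorem nj_congr {j u u' : ℕ} (h : ∀ b z, z < j → (Wt q u b z ↔ Wt q u' b z)) :
    Nj q j u = Nj q j u' := by
  classical
  unfold Nj
  congr 1
  ext b
  simp only [Finset.mem_filter, Finset.mem_range]
  constructor
  · rintro ⟨-, z, hz, h4⟩
    exact ⟨((h b z hz).1 h4).lt, z, hz, (h b z hz).1 h4⟩
  · rintro ⟨-, z, hz, h4⟩
    exact ⟨((h b z hz).2 h4).lt, z, hz, (h b z hz).2 h4⟩

/-- no change away from the clocks -/
theorem nj_three {j u : ℕ} (hu : u % 2 = 1) (h : ∀ e, e ≤ j → ¬ Tm e u) :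
    Nj q j (3 * u) = Nj q j u :=
  nj_congr fun b z hz => ⟨fun h1 => h1.of_three hu (h 0 (by omega)),
    fun h1 => h1.to_three hu (h 0 (by omega)) (h (z + 1) (by omega))⟩

/-- **The main point.**  If the parity changes between `u` and `3 u` and `j` counts at `u`, then
it counts at `3 u`. -/
theorem ej_three {j u : ℕ} (hu : u % 2 = 1) (hne : Nj q j u % 2 ≠ Nj q j (3 * u) % 2)
    (h : Ej q j u) : Ej q j (3 * u) := by
  obtain ⟨b, h1, h2⟩ := h
  by_cases h0 : Tm 0 u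
  · exact ⟨b, h1.tm_to hu h0, fun z hz h3 => h2 z hz (h1.tm_of hu h0 h3)⟩
  · by_cases h4 : Tm (j + 1) u
    · exfalso
      apply hne
      rw [nj_three hu fun e he h5 => ?_]
      have := tm_unique h4 h5
      omega
    · exact ⟨b, h1.to_three hu h0 h4, fun z hz h3 => h2 z hz (h3.of_three hu h0)⟩

theorem tm_of_ne {j u : ℕ} (hu : u % 2 = 1) (hne : Nj q j u % 2 ≠ Nj q j (3 * u) % 2) :
    ∃ e, Tm e u := by
  by_contra hcon
  push Not at hcon
  exact hne (by rw [nj_three hu fun e _ => hcon e])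

/-- the interpolating level -/
noncomputable def mj (q : ℕ → ℕ → Bool) (j u : ℕ) : ℕ :=
  if Nj q j u % 2 = Nj q j (3 * u) % 2 then Nj q (j + 1) u % 2 else Nj q j u % 2

/-- the code of the number `2 ^ v * u` -/
noncomputable def Sv (q : ℕ → ℕ → Bool) (v u : ℕ) : ℕ :=
  if v % 2 = 0 then Nj q (v / 2) u % 2 else mj q (v / 2) u

theorem sv_lt (v u : ℕ) : Sv q v u < 2 := by
  unfold Sv mj
  split_ifs <;> omega

/-- **The rule.** -/
theorem rule {v u : ℕ} (hu : u % 2 = 1) (h : Sv q v u ≠ Sv q v (3 * u)) :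
    Sv q (v + 1) u = Sv q v u := by
  rcases Nat.mod_two_eq_zero_or_one v with hv | hv
  · have h1 : (v + 1) % 2 ≠ 0 := by omega
    have h2 : (v + 1) / 2 = v / 2 := by omega
    unfold Sv at h ⊢
    rw [if_pos hv, if_pos hv] at h
    rw [if_neg h1, if_pos hv, h2]
    unfold mj
    rw [if_neg h]
  · have h1 : (v + 1) % 2 = 0 := by omega
    have h0 : v % 2 ≠ 0 := by omega
    have h2 : (v + 1) / 2 = v / 2 + 1 := by omega
    unfold Sv at h ⊢
    rw [if_neg h0, if_neg h0] at h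
    rw [if_pos h1, if_neg h0, h2]
    set j := v / 2
    by_cases h3 : Nj q j u % 2 = Nj q j (3 * u) % 2
    · unfold mj
      rw [if_pos h3]
    · have h4 : mj q j u = Nj q j u % 2 := by unfold mj; rw [if_neg h3]
      rw [h4]
      by_contra h5
      have h6 : Ej q j (3 * u) := ej_three hu h3 ((ej_iff hu).2 h5)
      obtain ⟨e, he⟩ := tm_of_ne hu h3
      have h7 : Nj q j (3 * u) % 2 = Nj q j (3 * (3 * u)) % 2 := by
        rw [nj_three (odd3 hu) fun e' _ => not_tm_three he]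
      have h8 : mj q j (3 * u) = Nj q (j + 1) (3 * u) % 2 := by unfold mj; rw [if_pos h7]
      have h9 := (ej_iff (odd3 hu)).1 h6
      rw [h4, h8] at h
      omega

end Pool.Agent.T2H49.HT3
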