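import Pool.Agent.T2H49.HT.ThreeB

/-!
The colouring, its behaviour on close numbers and its behaviour under far additions.
-/

namespace Pool.Agent.T2H49.HT3

variable {q : ℕ → ℕ → Bool}

/-- the far gap sees a number below `j` -/
def Dj (q : ℕ → ℕ → Bool) (j M u : ℕ) : Prop :=
  ∃ z, z < j ∧ ∃ t, Fst q z t ∧ 3 ^ rr (z + 1) u * (xx u % 2 ^ M) < 2 ^ t * 3 ^ rr 0 u

open Classical in
theorem nj_split {j M u : ℕ} (hu : u % 2 = 1)
    (hT : ∀ z, z < j → ∀ t, Fst q z t → t + 5 ≤ M) :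
    Nj q j u = ((Finset.range M).filter fun b => ∃ z, z < j ∧ Wt q u b z).card +
      (if 2 ^ M ≤ xx u ∧ Dj q j M u then 1 else 0) := by
  have key : ∀ b z, z < j → M ≤ b → Wt q u b z →
      xx u % 2 ^ b = xx u % 2 ^ M ∧ 2 ^ M ≤ xx u ∧ Dj q j M u := by
    rintro b z hz hb ⟨h1, t, htb, h2, h3, h4⟩
    have h5 := low_lt hu h4 (hT z hz t h2)
    have h6 : xx u % 2 ^ b = xx u % 2 ^ M := by
      have h7 : xx u % 2 ^ b % 2 ^ M = xx u % 2 ^ M := Nat.mod_mod_of_dvd _ (pow_dvd_pow 2 hb)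
      rw [Nat.mod_eq_of_lt h5] at h7
      exact h7
    refine ⟨h6, ?_, z, hz, t, h2, ?_⟩
    · by_contra hcon
      push Not at hcon
      have h7 : xx u < 2 ^ b := lt_of_lt_of_le hcon (Nat.pow_le_pow_right (by norm_num) hb)
      rw [Nat.div_eq_of_lt h7] at h1
      simp at h1
    · rw [← h6]
      exact h4
  unfold Nj
  by_cases hc : 2 ^ M ≤ xx u ∧ Dj q j M u
  · rw [if_pos hc]
    obtain ⟨hc1, z, hz, t, hc2, hc3⟩ := hc
    have hy : xx u / 2 ^ M ≠ 0 := by
      intro h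
      rw [Nat.div_eq_zero_iff] at h
      rcases h with h | h
      · exact absurd h (by positivity)
      · omega
    obtain ⟨k, m, hm, hk⟩ := Nat.exists_eq_two_pow_mul_odd hy
    have hm' : m % 2 = 1 := Nat.odd_iff.1 hm
    have h1 : xx u = 2 ^ (M + k) * m + xx u % 2 ^ M := by
      nth_rw 1 [← Nat.div_add_mod (xx u) (2 ^ M)]
      rw [hk, pow_add]
      ring
    have h2 : xx u % 2 ^ M < 2 ^ (M + k) :=
      lt_of_lt_of_le (Nat.mod_lt _ (by positivity)) (Nat.pow_le_pow_right (by norm_num) (by omega))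
    have h3 : xx u % 2 ^ (M + k) = xx u % 2 ^ M := by
      nth_rw 1 [h1]
      rw [Nat.mul_add_mod, Nat.mod_eq_of_lt h2]
    have h4 : xx u / 2 ^ (M + k) = m := by
      nth_rw 1 [h1]
      rw [Nat.mul_add_div (by positivity), Nat.div_eq_of_lt h2, Nat.add_zero]
    have h0 := hT z hz t hc2
    have hw : Wt q u (M + k) z := by
      refine ⟨by rw [h4]; exact hm', t, by omega, hc2, by omega, ?_⟩
      rw [h3]
      exact hc3
    have h5 : ((Finset.range (xx u)).filter fun b => ∃ z, z < j ∧ Wt q u b z) =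
        insert (M + k) ((Finset.range M).filter fun b => ∃ z, z < j ∧ Wt q u b z) := by
      ext b
      simp only [Finset.mem_filter, Finset.mem_range, Finset.mem_insert]
      constructor
      · rintro ⟨h6, z', hz', h7⟩
        by_cases hb : b < M
        · exact Or.inr ⟨hb, z', hz', h7⟩
        · left
          obtain ⟨h8, -, -⟩ := key b z' hz' (by omega) h7
          by_contra hne
          rcases Nat.lt_or_gt_of_ne hne with h9 | h9
          · have h10 := low_ge h7.1 h9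
            rw [h3] at h10
            have h11 : xx u % 2 ^ M < 2 ^ M := Nat.mod_lt _ (by positivity)
            have h12 : 2 ^ M ≤ 2 ^ b := Nat.pow_le_pow_right (by norm_num) (by omega)
            omega
          · have h10 := low_ge hw.1 h9
            rw [h8] at h10
            have h11 : xx u % 2 ^ M < 2 ^ M := Nat.mod_lt _ (by positivity)
            have h12 : 2 ^ M ≤ 2 ^ (M + k) := Nat.pow_le_pow_right (by norm_num) (by omega)
            omega
      · rintro (h6 | ⟨h6, z', hz', h7⟩)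
        · subst h6
          exact ⟨hw.lt, z, hz, hw⟩
        · exact ⟨h7.lt, z', hz', h7⟩
    rw [h5, Finset.card_insert_of_notMem (by simp)]
  · rw [if_neg hc, Nat.add_zero]
    congr 1
    ext b
    simp only [Finset.mem_filter, Finset.mem_range]
    constructor
    · rintro ⟨h6, z', hz', h7⟩
      refine ⟨?_, z', hz', h7⟩
      by_contra hb
      exact hc (key b z' hz' (by omega) h7).2
    · rintro ⟨h6, z', hz', h7⟩
      exact ⟨h7.lt, z', hz', h7⟩

theorem bit_congr {n n' M b : ℕ} (h : n % 2 ^ M = n' % 2 ^ M) (hb : b < M) :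
    n / 2 ^ b % 2 = n' / 2 ^ b % 2 ∧ n % 2 ^ b = n' % 2 ^ b := by
  have e1 : ∀ n : ℕ, n % 2 ^ M % 2 ^ b = n % 2 ^ b := fun n =>
    Nat.mod_mod_of_dvd _ (pow_dvd_pow 2 (by omega))
  have e2 : ∀ n : ℕ, n % 2 ^ M / 2 ^ b % 2 = n / 2 ^ b % 2 := by
    intro n
    have h2 : 2 ^ M = 2 ^ b * 2 ^ (M - b) := by rw [← pow_add]; congr 1; omega
    rw [h2, Nat.mod_mul_right_div_self]
    exact Nat.mod_mod_of_dvd _ (dvd_pow_self 2 (by omega))
  exact ⟨by rw [← e2 n, ← e2 n', h], by rw [← e1 n, ← e1 n', h]⟩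

theorem rr_congr' {e u u' M : ℕ} (h : u % 2 ^ M = u' % 2 ^ M) (hM : e + 5 ≤ M) :
    rr e u = rr e u' := by
  refine rr_congr ?_
  have e1 : ∀ n : ℕ, n % 2 ^ M % 2 ^ (e + 5) = n % 2 ^ (e + 5) := fun n =>
    Nat.mod_mod_of_dvd _ (pow_dvd_pow 2 hM)
  rw [← e1 u, ← e1 u', h]

theorem xx_congr {u u' M : ℕ} (h : u % 2 ^ M = u' % 2 ^ M) (hM : 5 ≤ M) :
    xx u % 2 ^ M = xx u' % 2 ^ M := by
  unfold xx
  rw [rr_congr' (e := 0) h (by omega), Nat.mul_mod, h, ← Nat.mul_mod]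

theorem wt_congr {u u' M b z : ℕ} (h : u % 2 ^ M = u' % 2 ^ M) (hM : z + 6 ≤ M) (hb : b < M) :
    Wt q u b z ↔ Wt q u' b z := by
  obtain ⟨h1, h2⟩ := bit_congr (xx_congr h (by omega)) hb
  unfold Wt
  rw [h1, h2, rr_congr' (e := z + 1) h (by omega), rr_congr' (e := 0) h (by omega)]

theorem dj_congr {u u' M j : ℕ} (h : u % 2 ^ M = u' % 2 ^ M) (hM : j + 5 ≤ M) :
    Dj q j M u ↔ Dj q j M u' := by
  unfold Dj
  refine exists_congr fun z => and_congr_right fun hz => exists_congr fun t =>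
    and_congr_right fun _ => ?_
  rw [xx_congr h (by omega), rr_congr' (e := z + 1) h (by omega), rr_congr' (e := 0) h (by omega)]

theorem le_xx (u : ℕ) : u ≤ xx u := Nat.le_mul_of_pos_left _ (by positivity)

theorem mod_two_of {u u' M : ℕ} (h : u % 2 ^ M = u' % 2 ^ M) (hM : 1 ≤ M) : u % 2 = u' % 2 := by
  have e1 : ∀ n : ℕ, n % 2 ^ M % 2 = n % 2 := fun n =>
    Nat.mod_mod_of_dvd _ (dvd_pow_self 2 (by omega))
  rw [← e1 u, ← e1 u', h]

theorem nj_local {j M u u' : ℕ} (hu : u % 2 = 1) (h : u % 2 ^ M = u' % 2 ^ M)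
    (hT : ∀ z, z < j → ∀ t, Fst q z t → t + 5 ≤ M) (hM : j + 5 ≤ M) (h1 : 2 ^ M ≤ u)
    (h2 : 2 ^ M ≤ u') : Nj q j u = Nj q j u' := by
  classical
  have hu' : u' % 2 = 1 := by rw [← mod_two_of h (by omega)]; exact hu
  rw [nj_split hu hT, nj_split hu' hT]
  have h3 := h1.trans (le_xx u)
  have h4 := h2.trans (le_xx u')
  congr 1
  · congr 1
    refine Finset.filter_congr fun b hb => exists_congr fun z => and_congr_right fun hz => ?_
    exact wt_congr h (by omega) (Finset.mem_range.1 hb)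
  · simp only [h3, h4, true_and, dj_congr h hM]

/-- `u` does not yet see a number below `j` -/
def Dl (q : ℕ → ℕ → Bool) (j u : ℕ) : Prop :=
  ∃ z, z < j ∧ ∃ t, Fst q z t ∧ 3 ^ rr (z + 1) u * u < 2 ^ t

open Classical in
theorem nj_far {j M u k : ℕ} (hu : u % 2 = 1)
    (hT : ∀ z, z < j → ∀ t, Fst q z t → t + 5 ≤ M) (hM : j + 5 ≤ M) (hx : xx u < 2 ^ M)
    (hk : 0 < k) : Nj q j (u + 2 ^ M * k) = Nj q j u + (if Dl q j u then 1 else 0) := by
  have h : (u + 2 ^ M * k) % 2 ^ M = u % 2 ^ M := Nat.add_mul_mod_self_left _ _ _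
  have hu' : (u + 2 ^ M * k) % 2 = 1 := by rw [mod_two_of h (by omega)]; exact hu
  rw [nj_split hu hT, nj_split hu' hT]
  have h3 : 2 ^ M ≤ xx (u + 2 ^ M * k) := by
    refine le_trans ?_ (le_xx _)
    have : 2 ^ M * 1 ≤ 2 ^ M * k := Nat.mul_le_mul_left _ hk
    omega
  have h4 : ¬ 2 ^ M ≤ xx u := by omega
  have h5 : Dj q j M u ↔ Dl q j u := by
    unfold Dj Dl
    refine exists_congr fun z => and_congr_right fun hz => exists_congr fun t =>
      and_congr_right fun _ => ?_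
    rw [Nat.mod_eq_of_lt hx]
    unfold xx
    have h6 : 3 ^ rr (z + 1) u * (3 ^ rr 0 u * u) = 3 ^ rr (z + 1) u * u * 3 ^ rr 0 u := by ring
    rw [h6]
    exact Nat.mul_lt_mul_right (by positivity)
  have h6 : ((Finset.range M).filter fun b => ∃ z, z < j ∧ Wt q (u + 2 ^ M * k) b z) =
      (Finset.range M).filter fun b => ∃ z, z < j ∧ Wt q u b z :=
    Finset.filter_congr fun b hb => exists_congr fun z => and_congr_right fun hz =>
      wt_congr h (by omega) (Finset.mem_range.1 hb)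
  rw [h6]
  simp only [h3, h4, true_and, false_and, if_false, Nat.add_zero, dj_congr h hM, h5]

theorem Dl.mono {j j' u : ℕ} (h : Dl q j u) (hj : j ≤ j') : Dl q j' u := by
  obtain ⟨z, hz, h1⟩ := h
  exact ⟨z, by omega, h1⟩

theorem Dl.of_three {j u : ℕ} (hu : u % 2 = 1) (h : Dl q j (3 * u)) : Dl q j u := by
  obtain ⟨z, hz, t, h1, h2⟩ := h
  refine ⟨z, hz, t, h1, lt_of_le_of_lt ?_ h2⟩
  rw [← mul_assoc]
  refine Nat.mul_le_mul_right _ ?_
  rw [← pow_succ]
  refine Nat.pow_le_pow_right (by norm_num) ?_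
  by_cases h5 : Tm (z + 1) u
  · rw [rr_zero hu h5]; omega
  · rw [rr_step hu h5]

/-- **Far additions.** -/
theorem sv_far {v M u k : ℕ} (hu : u % 2 = 1)
    (hT : ∀ z, z < v + 3 → ∀ t, Fst q z t → t + 5 ≤ M) (hM : v + 8 ≤ M) (hx : xx u < 2 ^ M)
    (hx3 : xx (3 * u) < 2 ^ M) (hk : 0 < k) (h : Sv q v (u + 2 ^ M * k) = Sv q v u) :
    ¬ Dl q (v / 2) (3 * u) := by
  classical
  intro h3
  have h1 : Dl q (v / 2) u := h3.of_three hu
  have h2 : Dl q (v / 2 + 1) u := h1.mono (by omega)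
  have e1 := nj_far (j := v / 2) hu (fun z hz => hT z (by omega)) (by omega) hx hk
  have e2 := nj_far (j := v / 2 + 1) hu (fun z hz => hT z (by omega)) (by omega) hx hk
  have e3 := nj_far (j := v / 2) (odd3 hu) (fun z hz => hT z (by omega)) (by omega) hx3
    (k := 3 * k) (by omega)
  have e4 : 3 * u + 2 ^ M * (3 * k) = 3 * (u + 2 ^ M * k) := by ring
  rw [if_pos h1] at e1
  rw [if_pos h2] at e2
  rw [if_pos h3, e4] at e3
  unfold Sv mj at h
  rw [e1, e2, e3] at h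
  split_ifs at h <;> omega

theorem sv_local {v M u u' : ℕ} (hu : u % 2 = 1) (h : u % 2 ^ M = u' % 2 ^ M)
    (hT : ∀ z, z < v + 3 → ∀ t, Fst q z t → t + 5 ≤ M) (hM : v + 8 ≤ M) (h1 : 2 ^ M ≤ u)
    (h2 : 2 ^ M ≤ u') : Sv q v u = Sv q v u' := by
  have h3 : 3 * u % 2 ^ M = 3 * u' % 2 ^ M := by rw [Nat.mul_mod, h, ← Nat.mul_mod]
  have e1 := nj_local (j := v / 2) hu h (fun z hz => hT z (by omega)) (by omega) h1 h2
  have e2 := nj_local (j := v / 2 + 1) hu h (fun z hz => hT z (by omega)) (by omega) h1 h2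
  have e3 := nj_local (j := v / 2) (odd3 hu) h3 (fun z hz => hT z (by omega)) (by omega)
    (by omega) (by omega)
  unfold Sv mj
  rw [e1, e2, e3]

theorem exists_bound (q : ℕ → ℕ → Bool) (v N : ℕ) :
    ∃ M, N ≤ M ∧ ∀ z, z < v + 3 → ∀ t, Fst q z t → t + 5 ≤ M := by
  have h1 : ∀ z, ∃ M, ∀ t, Fst q z t → t + 5 ≤ M := by
    intro z
    by_cases h : ∃ t, Fst q z t
    · obtain ⟨t, ht⟩ := h
      exact ⟨t + 5, fun t' ht' => by rw [ht'.unique ht]⟩
    · exact ⟨0, fun t ht => absurd ⟨t, ht⟩ h⟩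
  choose M hM using h1
  refine ⟨(Finset.range (v + 3)).sup M + N, by omega, fun z hz t ht => ?_⟩
  have h2 : M z ≤ (Finset.range (v + 3)).sup M := Finset.le_sup (f := M) (Finset.mem_range.2 hz)
  have := hM z t ht
  omega

end Pool.Agent.T2H49.HT3
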