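import Pool.Agent.T2H49.HT.ThreeC
import Pool.Agent.Y545.HM.St

/-!
The colouring with two colours: homogeneous sets for sums of at most three elements compute the
enumerated set.
-/

namespace Pool.Agent.T2H49.HT3

open Encodable Pool.Agent.Helper446 Pool.Agent.Helper446.Defs Pool.Agent.Helper446.Oracle
open Pool.Agent.Y545.HM

variable {q : ℕ → ℕ → Bool}

/-- the exponent of two, as the position of the lowest digit one -/
def vv (n : ℕ) : ℕ := (List.range n).findIdx fun i => decide (n / 2 ^ i % 2 = 1)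

theorem vv_eq {v u : ℕ} (hu : u % 2 = 1) : vv (2 ^ v * u) = v := by
  have h0 : v < 2 ^ v * u := by
    have h1 : v < 2 ^ v := Nat.lt_two_pow_self
    have h2 : 2 ^ v * 1 ≤ 2 ^ v * u := Nat.mul_le_mul_left _ (by omega)
    omega
  unfold vv
  apply le_antisymm
  · by_contra hcon
    push Not at hcon
    have h2 := List.not_of_lt_findIdx (xs := List.range (2 ^ v * u))
      (p := fun i => decide (2 ^ v * u / 2 ^ i % 2 = 1)) (i := v) hcon
    simp only [List.getElem_range, decide_eq_false_iff_not] at h2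
    rw [Nat.mul_div_cancel_left _ (by positivity)] at h2
    exact h2 hu
  · by_contra hcon
    push Not at hcon
    have h2 : (List.range (2 ^ v * u)).findIdx (fun i => decide (2 ^ v * u / 2 ^ i % 2 = 1)) <
        (List.range (2 ^ v * u)).length := by rw [List.length_range]; omega
    have h3 := List.findIdx_getElem (w := h2)
    simp only [List.getElem_range, decide_eq_true_eq] at h3
    clear h2
    generalize (List.range (2 ^ v * u)).findIdx (fun i => decide (2 ^ v * u / 2 ^ i % 2 = 1)) = i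
      at h3 hcon
    have h4 : 2 ^ v = 2 ^ i * (2 * 2 ^ (v - i - 1)) := by
      rw [← pow_succ', ← pow_add]; congr 1; omega
    rw [h4, mul_assoc, Nat.mul_div_cancel_left _ (by positivity), mul_assoc] at h3
    omega

theorem exists_odd {n : ℕ} (hn : 0 < n) : ∃ u, u % 2 = 1 ∧ n = 2 ^ vv n * u := by
  obtain ⟨k, m, hm, hk⟩ := Nat.exists_eq_two_pow_mul_odd (by omega : n ≠ 0)
  have hm' : m % 2 = 1 := Nat.odd_iff.1 hm
  have h := vv_eq (v := k) hm'
  rw [← hk] at h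
  exact ⟨m, hm', by rw [h]; exact hk⟩

/-- the colour of `2 ^ v * u` -/
noncomputable def cv (q : ℕ → ℕ → Bool) (v u : ℕ) : ℕ :=
  (v + (if u % 4 = 3 then 1 else 0) + Sv q v u) % 2

/-- **The colouring.** -/
noncomputable def col (q : ℕ → ℕ → Bool) (n : ℕ) : Fin 2 :=
  ⟨cv q (vv n) (n / 2 ^ vv n), Nat.mod_lt _ (by norm_num)⟩

theorem col_eq {v u : ℕ} (hu : u % 2 = 1) : (col q (2 ^ v * u)).val = cv q v u := by
  unfold col
  simp only [vv_eq hu]
  rw [Nat.mul_div_cancel_left _ (by positivity)]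

/-- **Close numbers.** -/
theorem kill {v M u1 u2 u3 : ℕ} (hu : u1 % 2 = 1)
    (h12 : u1 % 2 ^ (M + 1) = u2 % 2 ^ (M + 1)) (h13 : u1 % 2 ^ (M + 1) = u3 % 2 ^ (M + 1))
    (hT : ∀ z, z < v + 1 + 3 → ∀ t, Fst q z t → t + 5 ≤ M) (hM : v + 1 + 8 ≤ M)
    (h1 : 2 ^ (M + 1) ≤ u1) (h2 : 2 ^ (M + 1) ≤ u2) (h3 : 2 ^ (M + 1) ≤ u3)
    (e2 : col q (2 ^ v * u1) = col q (2 ^ v * u1 + 2 ^ v * u2))
    (e3 : col q (2 ^ v * u1) = col q (2 ^ v * u1 + 2 ^ v * u2 + 2 ^ v * u3)) : False := by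
  have hp : 2 ^ (M + 1) = 2 * 2 ^ M := by ring
  have hpos : 0 < 2 ^ M := by positivity
  -- the half of the sum of two
  have d1 := Nat.div_add_mod u1 (2 ^ (M + 1))
  have d2 := Nat.div_add_mod u2 (2 ^ (M + 1))
  have d3 := Nat.div_add_mod u3 (2 ^ (M + 1))
  rw [← h12] at d2
  rw [← h13] at d3
  set r := u1 % 2 ^ (M + 1)
  set a := u1 / 2 ^ (M + 1)
  set b := u2 / 2 ^ (M + 1)
  set c := u3 / 2 ^ (M + 1)
  have hw : u1 + u2 = 2 * (2 ^ M * (a + b) + r) := by
    rw [← d1, ← d2, hp]; ring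
  set w := 2 ^ M * (a + b) + r with hwdef
  have hw1 : u1 % 2 ^ M = w % 2 ^ M := by
    rw [← d1, hp, hwdef]
    have : 2 * 2 ^ M * a + r = 2 ^ M * (2 * a) + r := by ring
    rw [this, Nat.mul_add_mod, Nat.mul_add_mod]
  have hwo : w % 2 = 1 := by rw [← mod_two_of hw1 (by omega)]; exact hu
  have hw4 : w % 4 = u1 % 4 := by
    have e1 : ∀ n : ℕ, n % 2 ^ M % 4 = n % 4 := fun n =>
      Nat.mod_mod_of_dvd _ (by
        have : (4 : ℕ) = 2 ^ 2 := by norm_num
        rw [this]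
        exact pow_dvd_pow 2 (by omega))
    rw [← e1 u1, ← e1 w, hw1]
  -- the sum of three
  have ht : (3 * u1) % 2 ^ M = (u1 + u2 + u3) % 2 ^ M := by
    rw [← d1, ← d2, ← d3, hp]
    have f1 : 3 * (2 * 2 ^ M * a + r) = 2 ^ M * (6 * a) + 3 * r := by ring
    have f2 : 2 * 2 ^ M * a + r + (2 * 2 ^ M * b + r) + (2 * 2 ^ M * c + r) =
        2 ^ M * (2 * a + 2 * b + 2 * c) + 3 * r := by ring
    rw [f1, f2, Nat.mul_add_mod, Nat.mul_add_mod]
  have hto : (u1 + u2 + u3) % 2 = 1 := by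
    rw [← mod_two_of ht (by omega)]; omega
  have ht4 : (3 * u1) % 4 = (u1 + u2 + u3) % 4 := by
    have e1 : ∀ n : ℕ, n % 2 ^ M % 4 = n % 4 := fun n =>
      Nat.mod_mod_of_dvd _ (by
        have : (4 : ℕ) = 2 ^ 2 := by norm_num
        rw [this]
        exact pow_dvd_pow 2 (by omega))
    rw [← e1 (3 * u1), ← e1 (u1 + u2 + u3), ht]
  have g2 : 2 ^ v * u1 + 2 ^ v * u2 = 2 ^ (v + 1) * w := by
    rw [← mul_add, hw, pow_succ]; ring
  have g3 : 2 ^ v * u1 + 2 ^ v * u2 + 2 ^ v * u3 = 2 ^ v * (u1 + u2 + u3) := by ring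
  rw [g2] at e2
  rw [g3] at e3
  have k2 := congrArg Fin.val e2
  have k3 := congrArg Fin.val e3
  rw [col_eq hu, col_eq hwo] at k2
  rw [col_eq hu, col_eq hto] at k3
  have l2 : Sv q (v + 1) u1 = Sv q (v + 1) w :=
    sv_local hu hw1 (fun z hz => hT z (by omega)) (by omega) (by omega) (by omega)
  have l3 : Sv q v (3 * u1) = Sv q v (u1 + u2 + u3) :=
    sv_local (odd3 hu) ht (fun z hz => hT z (by omega)) (by omega) (by omega) (by omega)
  unfold cv at k2 k3
  rw [← l2, hw4] at k2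
  rw [← l3, ← ht4] at k3
  have b1 := sv_lt (q := q) v u1
  have b2 := sv_lt (q := q) (v + 1) u1
  have b3 := sv_lt (q := q) v (3 * u1)
  have hr : Sv q v u1 ≠ Sv q v (3 * u1) := by
    intro h
    rw [← h] at k3
    have h4 : u1 % 4 = 1 ∨ u1 % 4 = 3 := by omega
    rcases h4 with h4 | h4
    · have h5 : 3 * u1 % 4 = 3 := by omega
      rw [h4, h5] at k3
      simp at k3
      omega
    · have h5 : 3 * u1 % 4 = 1 := by omega
      rw [h4, h5] at k3
      simp at k3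
      omega
  have := rule hu hr
  rw [this] at k2
  split_ifs at k2 <;> omega

/-- The sums of at most three elements of `X` have one colour. -/
def Hom3 (c : ℕ → Fin 2) (X : Set ℕ) : Prop :=
  X.Infinite ∧ 0 ∉ X ∧ ∃ j, ∀ F : Finset ℕ, (F : Set ℕ) ⊆ X → F.Nonempty → F.card ≤ 3 →
    c (∑ x ∈ F, x) = j

section

variable {X : Set ℕ} (hX : Hom3 (col q) X)

theorem Hom3.one {c : ℕ → Fin 2} (h : Hom3 c X) : ∃ j, (∀ x ∈ X, c x = j) ∧
    (∀ x ∈ X, ∀ y ∈ X, x < y → c (x + y) = j) ∧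
    ∀ x ∈ X, ∀ y ∈ X, ∀ z ∈ X, x < y → y < z → c (x + y + z) = j := by
  obtain ⟨-, -, j, hj⟩ := h
  refine ⟨j, fun x hx => ?_, fun x hx y hy hxy => ?_, fun x hx y hy z hz hxy hyz => ?_⟩
  · have := hj {x} (by simpa using hx) (by simp) (by simp)
    simpa using this
  · have hne : x ≠ y := by omega
    have := hj {x, y} (by
      intro a ha
      simp only [Finset.coe_insert, Finset.coe_singleton, Set.mem_insert_iff,
        Set.mem_singleton_iff] at ha
      rcases ha with rfl | rfl <;> assumption) (by simp)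
      (by rw [Finset.card_pair hne]; norm_num)
    rwa [Finset.sum_pair hne] at this
  · have h1 : x ∉ ({y, z} : Finset ℕ) := by
      simp only [Finset.mem_insert, Finset.mem_singleton]; omega
    have h2 : y ≠ z := by omega
    have := hj {x, y, z} (by
      intro a ha
      simp only [Finset.coe_insert, Finset.coe_singleton, Set.mem_insert_iff,
        Set.mem_singleton_iff] at ha
      rcases ha with rfl | rfl | rfl <;> assumption) (by simp)
      (by rw [Finset.card_insert_of_notMem h1, Finset.card_pair h2])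
    rwa [Finset.sum_insert h1, Finset.sum_pair h2, ← add_assoc] at this

include hX

theorem thin (v : ℕ) : {x ∈ X | vv x = v}.Finite := by
  by_contra hinf
  obtain ⟨M, hM, hT⟩ := exists_bound q (v + 1) (v + 1 + 8)
  have hinf' : {x ∈ X | vv x = v}.Infinite := hinf
  -- an infinite class
  obtain ⟨r, hr⟩ : ∃ r, {x ∈ X | vv x = v ∧ x % 2 ^ (v + (M + 1)) = r}.Infinite := by
    by_contra hcon
    push Not at hcon
    apply hinf
    have h1 : {x ∈ X | vv x = v} ⊆ ⋃ r ∈ Finset.range (2 ^ (v + (M + 1))),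
        {x ∈ X | vv x = v ∧ x % 2 ^ (v + (M + 1)) = r} := by
      rintro x ⟨hx, hv⟩
      rw [Set.mem_iUnion₂]
      exact ⟨x % 2 ^ (v + (M + 1)), Finset.mem_range.2 (Nat.mod_lt _ (by positivity)), hx, hv, rfl⟩
    refine Set.Finite.subset (Set.Finite.biUnion (Finset.finite_toSet _) fun r _ => ?_) h1
    exact hcon r
  obtain ⟨x1, ⟨hx1, hv1, hr1⟩, hl1⟩ := hr.exists_gt (2 ^ (v + (M + 1)))
  obtain ⟨x2, ⟨hx2, hv2, hr2⟩, hl2⟩ := hr.exists_gt x1
  obtain ⟨x3, ⟨hx3, hv3, hr3⟩, hl3⟩ := hr.exists_gt x2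
  have pos : ∀ x ∈ X, 0 < x := fun x hx => by
    rcases Nat.eq_zero_or_pos x with h | h
    · subst h; exact absurd hx hX.2.1
    · exact h
  obtain ⟨u1, hu1, he1⟩ := exists_odd (pos x1 hx1)
  obtain ⟨u2, hu2, he2⟩ := exists_odd (pos x2 hx2)
  obtain ⟨u3, hu3, he3⟩ := exists_odd (pos x3 hx3)
  rw [hv1] at he1
  rw [hv2] at he2
  rw [hv3] at he3
  have hmod : ∀ u : ℕ, 2 ^ v * u % 2 ^ (v + (M + 1)) = 2 ^ v * (u % 2 ^ (M + 1)) := by
    intro u
    rw [pow_add, Nat.mul_mod_mul_left]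
  have hge : ∀ u : ℕ, 2 ^ (v + (M + 1)) < 2 ^ v * u → 2 ^ (M + 1) ≤ u := by
    intro u h
    rw [pow_add] at h
    exact (lt_of_mul_lt_mul_left h (Nat.zero_le _)).le
  have hp : 0 < 2 ^ v := by positivity
  obtain ⟨j, hj1, hj2, hj3⟩ := hX.one
  refine kill (q := q) (v := v) (M := M) (u1 := u1) (u2 := u2) (u3 := u3) hu1 ?_ ?_ hT hM
    ?_ ?_ ?_ ?_ ?_
  · rw [he1, hmod] at hr1
    rw [he2, hmod] at hr2
    exact Nat.eq_of_mul_eq_mul_left hp (hr1.trans hr2.symm)
  · rw [he1, hmod] at hr1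
    rw [he3, hmod] at hr3
    exact Nat.eq_of_mul_eq_mul_left hp (hr1.trans hr3.symm)
  · exact hge _ (by rw [← he1]; exact hl1)
  · exact hge _ (by rw [← he2]; omega)
  · exact hge _ (by rw [← he3]; omega)
  · rw [← he1, ← he2, hj1 x1 hx1, hj2 x1 hx1 x2 hx2 hl2]
  · rw [← he1, ← he2, ← he3, hj1 x1 hx1, hj3 x1 hx1 x2 hx2 x3 hx3 hl2 hl3]

theorem exists_far (N m : ℕ) : ∃ y ∈ X, m < y ∧ N ≤ vv y := by
  by_contra hcon
  push Not at hcon
  apply hX.1
  have h1 : X ⊆ (⋃ v ∈ Finset.range N, {x ∈ X | vv x = v}) ∪ Set.Iic m := by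
    intro x hx
    by_cases h : x ≤ m
    · exact Or.inr h
    · left
      rw [Set.mem_iUnion₂]
      exact ⟨vv x, Finset.mem_range.2 (hcon x hx (by omega)), hx, rfl⟩
  refine Set.Finite.subset (Set.Finite.union ?_ (Set.finite_Iic m)) h1
  exact Set.Finite.biUnion (Finset.finite_toSet _) fun v _ => thin hX v

theorem settled {v u : ℕ} (hu : u % 2 = 1) (hx : 2 ^ v * u ∈ X) : ¬ Dl q (v / 2) (3 * u) := by
  obtain ⟨M, hM, hT⟩ := exists_bound q v (v + 8 + xx u + xx (3 * u))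
  obtain ⟨y, hy, hl, hvy⟩ := exists_far hX (v + M) (2 ^ v * u)
  have hypos : 0 < y := by omega
  obtain ⟨w, hw, hwe⟩ := exists_odd hypos
  obtain ⟨j, hj1, hj2, -⟩ := hX.one
  have h1 : y = 2 ^ v * (2 ^ M * (2 ^ (vv y - (v + M)) * w)) := by
    rw [hwe, vv_eq hw]
    have : 2 ^ vv y = 2 ^ v * (2 ^ M * 2 ^ (vv y - (v + M))) := by
      rw [← pow_add, ← pow_add]; congr 1; omega
    nth_rw 1 [this]
    ring
  set k := 2 ^ (vv y - (v + M)) * w
  have hk : 0 < k := Nat.mul_pos (by positivity) (by omega)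
  have h2 : col q (2 ^ v * u) = col q (2 ^ v * (u + 2 ^ M * k)) := by
    rw [mul_add, ← h1, hj1 _ hx, hj2 _ hx y hy hl]
  have h3 := congrArg Fin.val h2
  have h4 : (u + 2 ^ M * k) % 2 = 1 := by
    rw [mod_two_of (M := M) (u' := u) (Nat.add_mul_mod_self_left _ _ _) (by omega)]; exact hu
  have h5 : (u + 2 ^ M * k) % 4 = u % 4 := by
    have e1 : (4 : ℕ) ∣ 2 ^ M := by
      have : (4 : ℕ) = 2 ^ 2 := by norm_num
      rw [this]
      exact pow_dvd_pow 2 (by omega)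
    obtain ⟨c, hc⟩ := e1
    rw [hc, mul_assoc, Nat.add_mul_mod_self_left]
  rw [col_eq hu, col_eq h4] at h3
  unfold cv at h3
  rw [h5] at h3
  have b1 := sv_lt (q := q) v u
  have b2 := sv_lt (q := q) v (u + 2 ^ M * k)
  have hlt : ∀ n, n ≤ M → n < 2 ^ M := fun n hn => lt_of_le_of_lt hn Nat.lt_two_pow_self
  refine sv_far (M := M) (k := k) hu hT (by omega) (hlt _ (by omega)) (hlt _ (by omega)) hk ?_
  split_ifs at h3 <;> omega

theorem not_enum_iff (z : ℕ) : (¬ ∃ n, q z n = true) ↔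
    ∃ h, h ∈ X ∧ (2 * (z + 1) ≤ vv h ∧ ∀ t, t < 3 ^ 2 ^ (z + 3) * (3 * h) + 1 →
      ¬ q z t = true) := by
  constructor
  · intro h
    obtain ⟨y, hy, -, hvy⟩ := exists_far hX (2 * (z + 1)) 0
    exact ⟨y, hy, hvy, fun t _ h1 => h ⟨t, h1⟩⟩
  · rintro ⟨h, hh, hv, hall⟩ hex
    classical
    have hpos : 0 < h := by
      rcases Nat.eq_zero_or_pos h with h1 | h1
      · subst h1; exact absurd hh hX.2.1
      · exact h1
    obtain ⟨u, hu, he⟩ := exists_odd hpos
    have hfst : Fst q z (Nat.find hex) := ⟨Nat.find_spec hex, fun n hn => by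
      have := Nat.find_min hex hn
      simpa using this⟩
    set t := Nat.find hex
    have h1 : ¬ Dl q (vv h / 2) (3 * u) := settled hX hu (by rw [← he]; exact hh)
    have h2 : ¬ 3 ^ rr (z + 1) (3 * u) * (3 * u) < 2 ^ t := fun h3 =>
      h1 ⟨z, by omega, t, hfst, h3⟩
    push Not at h2
    have h3 : 3 ^ rr (z + 1) (3 * u) ≤ 3 ^ 2 ^ (z + 3) :=
      Nat.pow_le_pow_right (by norm_num) (rr_lt (odd3 hu)).le
    have h4 : u ≤ h := by
      rw [he]
      exact Nat.le_mul_of_pos_left _ (by positivity)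
    have h5 : 3 ^ rr (z + 1) (3 * u) * (3 * u) ≤ 3 ^ 2 ^ (z + 3) * (3 * h) :=
      Nat.mul_le_mul h3 (by omega)
    have h6 : t < 2 ^ t := Nat.lt_two_pow_self
    exact hall t (by omega) hfst.1

end

end Pool.Agent.T2H49.HT3
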