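import Pool.Agent.T2H49.HT.ThreeD

/-!
The colouring is computable relative to an enumeration; the main theorem.
-/

namespace Pool.Agent.T2H49.HT3

open Encodable Pool.Agent.Helper446 Pool.Agent.Helper446.Defs Pool.Agent.Helper446.Oracle
open Pool.Agent.Y545.HM

variable {q : ℕ → ℕ → Bool} {A : Set ℕ}

theorem pr_pow3 : Primrec (fun i : ℕ => 3 ^ i) := by
  refine (Primrec.nat_rec₁ (f := fun _ n => n * 3) 1
    (Primrec.nat_mul.comp Primrec.snd (Primrec.const 3))).of_eq fun n => ?_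
  induction n with
  | zero => rfl
  | succ n ih =>
    rw [pow_succ, ← ih]

theorem pr_rr : Primrec (fun p : ℕ × ℕ => rr p.1 p.2) := by
  unfold rr
  refine Primrec.list_findIdx (f := fun p : ℕ × ℕ => List.range (2 ^ (p.1 + 2)))
    (p := fun p r => decide (Tm p.1 (3 ^ r * p.2))) ?_ ?_
  · exact Primrec.list_range.comp (pr_pow2.comp (Primrec.nat_add.comp Primrec.fst
      (Primrec.const 2)))
  · have h1 : Primrec fun x : (ℕ × ℕ) × ℕ => 3 ^ x.2 * x.1.2 :=
      Primrec.nat_mul.comp (pr_pow3.comp Primrec.snd) (Primrec.snd.comp Primrec.fst)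
    have h2 : PrimrecPred fun x : (ℕ × ℕ) × ℕ =>
        (3 ^ x.2 * x.1.2) * (3 ^ x.2 * x.1.2) % 2 ^ (x.1.1 + 5) = 2 ^ (x.1.1 + 4) + 1 := by
      refine PrimrecRel.comp Primrec.eq (Primrec.nat_mod.comp (Primrec.nat_mul.comp h1 h1)
        (pr_pow2.comp (Primrec.nat_add.comp (Primrec.fst.comp Primrec.fst) (Primrec.const 5))))
        (Primrec.succ.comp (pr_pow2.comp (Primrec.nat_add.comp (Primrec.fst.comp Primrec.fst)
          (Primrec.const 4))))
    refine (h2.decide).of_eq fun x => ?_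
    exact decide_eq_decide.2 (by unfold Tm; rw [sq])

@[fun_prop] theorem c_rr {α : Type*} [Primcodable α] {f g : α → ℕ} (hf : Computable f)
    (hg : Computable g) : Computable (fun x => rr (f x) (g x)) :=
  pr_rr.to_comp.comp (hf.pair hg)

@[fun_prop] theorem c_pow3 {α : Type*} [Primcodable α] {f : α → ℕ} (hf : Computable f) :
    Computable (fun x => 3 ^ f x) := pr_pow3.to_comp.comp hf

@[fun_prop] theorem c_xx {α : Type*} [Primcodable α] {f : α → ℕ} (hf : Computable f) :
    Computable (fun x => xx (f x)) := by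
  unfold xx
  fun_prop

@[fun_prop] theorem c_div {α : Type*} [Primcodable α] {f g : α → ℕ} (hf : Computable f)
    (hg : Computable g) : Computable (fun x => f x / g x) :=
  Primrec.nat_div.to_comp.comp hf hg

@[fun_prop] theorem c_mod {α : Type*} [Primcodable α] {f g : α → ℕ} (hf : Computable f)
    (hg : Computable g) : Computable (fun x => f x % g x) :=
  Primrec.nat_mod.to_comp.comp hf hg

theorem pr_vv : Primrec vv := by
  unfold vv
  refine Primrec.list_findIdx (f := fun n : ℕ => List.range n)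
    (p := fun n i => decide (n / 2 ^ i % 2 = 1)) Primrec.list_range ?_
  have h2 : PrimrecPred fun x : ℕ × ℕ => x.1 / 2 ^ x.2 % 2 = 1 :=
    PrimrecRel.comp Primrec.eq (Primrec.nat_mod.comp (Primrec.nat_div.comp Primrec.fst
      (pr_pow2.comp Primrec.snd)) (Primrec.const 2)) (Primrec.const 1)
  exact h2.decide

@[fun_prop] theorem c_vv {α : Type*} [Primcodable α] {f : α → ℕ} (hf : Computable f) :
    Computable (fun x => vv (f x)) := pr_vv.to_comp.comp hf

theorem gr_mod2 {α : Type*} [Primcodable α] {f : α → ℕ} (hf : Gr A f) :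
    Gr A fun a => f a % 2 := Gr.post (g := fun n : ℕ => n % 2) (by fun_prop) hf

theorem gr_ite {α β : Type*} [Primcodable α] [Primcodable β] {p : α → Prop} [DecidablePred p]
    (hp : DP A p) {f g : α → β} (hf : Gr A f) (hg : Gr A g) :
    Gr A fun a => if p a then f a else g a := by
  have h : REIn A fun x : α × β => (p x.1 ∧ f x.1 = x.2) ∨ (¬ p x.1 ∧ g x.1 = x.2) :=
    REIn.or (REIn.and (hp.1.comp (f := fun x : α × β => x.1) (by fun_prop)) hf)
      (REIn.and (hp.2.comp (f := fun x : α × β => x.1) (by fun_prop)) hg)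
  refine h.of_eq fun x => ?_
  by_cases hx : p x.1 <;> simp [hx]

section

variable (hq : Gr A fun p : ℕ × ℕ => q p.1 p.2)

include hq

theorem dp_q {α : Type*} [Primcodable α] {f g : α → ℕ} (hf : Computable f) (hg : Computable g)
    (b : Bool) : DP A fun a => q (f a) (g a) = b :=
  DP.gr (p := fun b' : Bool => b' = b) (f := fun x : α => q (f x) (g x))
    (dp_eq (by fun_prop) (by fun_prop))
    (hq.pre (g := fun x : α => (f x, g x)) (by fun_prop))

theorem dp_fst {α : Type*} [Primcodable α] {f g : α → ℕ} (hf : Computable f)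
    (hg : Computable g) : DP A fun a => Fst q (f a) (g a) := by
  unfold Fst
  refine (dp_q hq hf hg true).and ?_
  refine DP.all_lt (p := fun a n => q (f a) n = false) ?_ hg
  exact dp_q hq (by fun_prop) (by fun_prop) false

theorem dp_wt {α : Type*} [Primcodable α] {f g h : α → ℕ} (hf : Computable f)
    (hg : Computable g) (hh : Computable h) : DP A fun a => Wt q (f a) (g a) (h a) := by
  unfold Wt
  refine DP.and (dp_eq (by fun_prop) (by fun_prop)) ?_
  refine DP.ex_lt (p := fun a t => Fst q (h a) t ∧ t + 5 ≤ g a ∧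
    3 ^ rr (h a + 1) (f a) * (xx (f a) % 2 ^ g a) < 2 ^ t * 3 ^ rr 0 (f a)) ?_ hg
  refine DP.and (dp_fst hq (by fun_prop) (by fun_prop)) (DP.and (dp_le (by fun_prop)
    (by fun_prop)) (dp_lt ?_ ?_))
  · fun_prop
  · fun_prop

theorem gr_nj {α : Type*} [Primcodable α] {f g : α → ℕ} (hf : Computable f)
    (hg : Computable g) : Gr A fun a => Nj q (f a) (g a) := by
  classical
  unfold Nj
  refine (gr_count (p := fun a b => ∃ z, z < f a ∧ Wt q (g a) b z) ?_
    (f := fun a => xx (g a)) (by fun_prop)).of_eq fun a => ?_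
  · refine DP.ex_lt (p := fun (x : α × ℕ) z => Wt q (g x.1) x.2 z) ?_ (by fun_prop)
    exact dp_wt hq (by fun_prop) (by fun_prop) (by fun_prop)
  · congr

theorem gr_mj {α : Type*} [Primcodable α] {f g : α → ℕ} (hf : Computable f)
    (hg : Computable g) : Gr A fun a => mj q (f a) (g a) := by
  unfold mj
  have h1 : Gr A fun a => Nj q (f a) (g a) % 2 := gr_mod2 (gr_nj hq hf hg)
  have h2 : Gr A fun a => Nj q (f a) (3 * g a) % 2 := gr_mod2 (gr_nj hq hf (by fun_prop))
  have h3 : Gr A fun a => Nj q (f a + 1) (g a) % 2 := gr_mod2 (gr_nj hq (by fun_prop) hg)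
  refine gr_ite ?_ h3 h1
  exact DP.gr (p := fun u : ℕ × ℕ => u.1 = u.2) (f := fun a =>
    (Nj q (f a) (g a) % 2, Nj q (f a) (3 * g a) % 2)) (dp_eq (by fun_prop) (by fun_prop))
    (h1.pair h2)

theorem gr_sv {α : Type*} [Primcodable α] {f g : α → ℕ} (hf : Computable f)
    (hg : Computable g) : Gr A fun a => Sv q (f a) (g a) := by
  unfold Sv
  refine gr_ite (dp_eq (by fun_prop) (by fun_prop)) (gr_mod2 (gr_nj hq (by fun_prop) hg)) ?_
  exact gr_mj hq (by fun_prop) hg

theorem gr_col : Gr A (col q) := by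
  have h1 : Gr A fun n : ℕ => Sv q (vv n) (n / 2 ^ vv n) := gr_sv hq (by fun_prop) (by fun_prop)
  have h2 : Gr A fun n : ℕ => (if n / 2 ^ vv n % 4 = 3 then 1 else 0 : ℕ) :=
    gr_ind (dp_eq (by fun_prop) (by fun_prop))
  have h5 : Primrec fun n : ℕ => (⟨n % 2, Nat.mod_lt _ (by norm_num)⟩ : Fin 2) :=
    Primrec.fin_val_iff.1 (Primrec.nat_mod.comp Primrec.id (Primrec.const 2))
  have h6 : Gr A fun n : ℕ => (vv n + (if n / 2 ^ vv n % 4 = 3 then 1 else 0 : ℕ)) +
      Sv q (vv n) (n / 2 ^ vv n) := by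
    refine Gr.post (g := fun y : ℕ × (ℕ × ℕ) => (y.1 + y.2.1) + y.2.2) (by fun_prop)
      (f := fun n : ℕ => (vv n, ((if n / 2 ^ vv n % 4 = 3 then 1 else 0 : ℕ),
        Sv q (vv n) (n / 2 ^ vv n)))) ?_
    exact (Gr.of_comp (by fun_prop)).pair (h2.pair h1)
  exact (Gr.post h5.to_comp h6).of_eq fun n => rfl

end

/-- **The coding theorem.** -/
theorem lower3 {S : Set ℕ} (hS : REIn A (· ∈ S)) : ∃ c : ℕ → Fin 2, Gr A c ∧
    ∀ B X, Dec B A → Dec B X → Hom3 c X → Dec B S := by
  obtain ⟨q, hq, hq2⟩ := exists_q hS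
  refine ⟨col q, gr_col hq, fun B X hBA hBX hX => ⟨re_lift hS hBA, ?_⟩⟩
  have hqB := hq.lift hBA
  have h1 : REIn B fun z : ℕ => ∃ h, h ∈ X ∧ (2 * (z + 1) ≤ vv h ∧
      ∀ t, t < 3 ^ 2 ^ (z + 3) * (3 * h) + 1 → ¬ q z t = true) := by
    refine REIn.ex (S := fun (z h : ℕ) => h ∈ X ∧ (2 * (z + 1) ≤ vv h ∧
      ∀ t, t < 3 ^ 2 ^ (z + 3) * (3 * h) + 1 → ¬ q z t = true)) ?_
    refine REIn.and (hBX.1.comp (f := fun x : ℕ × ℕ => x.2) (by fun_prop)) (REIn.and ?_ ?_)
    · exact REIn.of_re (RE.le (by fun_prop) (by fun_prop))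
    · refine (DP.all_lt (p := fun (x : ℕ × ℕ) t => ¬ q x.1 t = true) ?_ ?_).1
      · exact (dp_q hqB (by fun_prop) (by fun_prop) true).not
      · fun_prop
  refine h1.of_eq fun z => ?_
  rw [← not_enum_iff hX z]
  exact not_congr (hq2 z).symm

end Pool.Agent.T2H49.HT3
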