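import Pool.Agent.H645R2.HT.PartA

/-!
A single parity colouring which codes the double jump: the sum of the colouring of Blass, Hirst
and Simpson (very short gaps) and of the colouring `C (g2 W p)`.
-/

namespace Pool.Agent.T2H49.HT

open Pool.Agent.H645R2.HT Pool.Agent.Helper446 Pool.Agent.Helper446.RE
  Pool.Agent.Helper446.Oracle

/-- Some `z ≤ u` enumerated by stage `s`, but not by stage `v`. -/
def gB (W : ℕ → ℕ → Bool) (s u v : ℕ) : Bool := exB (fun z => W s z && !(W v z)) (u + 1)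

theorem gB_iff {W : ℕ → ℕ → Bool} {s u v : ℕ} :
    gB W s u v = true ↔ ∃ z ≤ u, W s z = true ∧ W v z = false := by
  unfold gB
  rw [exB_iff]
  simp only [Bool.and_eq_true, Bool.not_eq_true', Nat.lt_succ_iff]

/-- The gap functional. -/
def gg (W : ℕ → ℕ → Bool) (p : ℕ → ℕ) (s x u v : ℕ) : Bool := xor (gB W s u v) (g2 W p s x u v)

open Classical in
/-- Some `z ≤ u` is enumerated, but not by stage `v`. -/
noncomputable def tW (W : ℕ → ℕ → Bool) (u v : ℕ) : Bool :=
  decide (∃ z ≤ u, (∃ s, W s z = true) ∧ W v z = false)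

/-- The stage `s` is correct up to `M`. -/
def Stg (W : ℕ → ℕ → Bool) (M s : ℕ) : Prop := ∀ z ≤ M, ∀ t, W t z = true → W s z = true

variable {W : ℕ → ℕ → Bool} {p : ℕ → ℕ}

theorem Stg.mono (hW : Mon W) {M M' s s' : ℕ} (h : Stg W M s) (hM : M' ≤ M) (hs : s ≤ s') :
    Stg W M' s' := fun z hz t ht => hW s s' z hs (h z (by omega) t ht)

theorem exists_stg (hW : Mon W) (M : ℕ) : ∃ N, ∀ s, N ≤ s → Stg W M s := by
  obtain ⟨N, hN⟩ := exists_stage hW M
  exact ⟨N, fun s hs => Stg.mono hW (show Stg W M N from hN) le_rfl hs⟩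

theorem gB_true {s u v : ℕ} (h : Stg W u s) : gB W s u v = tW W u v := by
  classical
  rw [Bool.eq_iff_iff, gB_iff]
  unfold tW
  rw [decide_eq_true_iff]
  constructor
  · rintro ⟨z, hz, h1, h2⟩
    exact ⟨z, hz, ⟨s, h1⟩, h2⟩
  · rintro ⟨z, hz, ⟨t, h1⟩, h2⟩
    exact ⟨z, hz, h z hz t h1, h2⟩

theorem tW_false {u v : ℕ} (h : Stg W u v) : tW W u v = false := by
  classical
  unfold tW
  rw [decide_eq_false_iff_not]
  rintro ⟨z, hz, ⟨t, h1⟩, h2⟩
  rw [h z hz t h1] at h2
  cases h2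

theorem stg_of_tW {u v : ℕ} (h : tW W u v = false) : Stg W u v := by
  classical
  unfold tW at h
  rw [decide_eq_false_iff_not] at h
  intro z hz t ht
  by_contra hc
  rw [Bool.not_eq_true] at hc
  exact h ⟨z, hz, ⟨t, ht⟩, hc⟩

theorem inA_true' {M s u y : ℕ} (h : Stg W M s) (hu : u ≤ M) :
    inA W p s u y = true ↔ TA W p u y := by
  rw [inA_iff]
  unfold TA
  constructor
  · rintro ⟨z, hz, h1, h2⟩
    refine ⟨z, hz, h1, fun t => ?_⟩
    by_contra hc
    rw [Bool.not_eq_false] at hc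
    rw [h z (by omega) t hc] at h2
    cases h2
  · rintro ⟨z, hz, h1, h2⟩
    exact ⟨z, hz, h1, h2 _⟩

theorem g2_true' {M s x u v : ℕ} (h : Stg W M s) (hu : u ≤ M) (hv : v ≤ M) :
    g2 W p s x u v = T2 W p x u v := by
  classical
  rw [Bool.eq_iff_iff]
  unfold g2 T2
  rw [exB_iff, decide_eq_true_iff]
  refine exists_congr fun y => and_congr_right fun _ => ?_
  rw [← inA_true' h hu, ← inA_true' h hv]
  cases inA W p s u y <;> cases inA W p s v y <;> simp

theorem gs_xor {γ δ : ℕ → ℕ → Bool} (l : List ℕ) :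
    gs (fun a b => xor (γ a b) (δ a b)) l = xor (gs γ l) (gs δ l) := by
  induction l with
  | nil => rfl
  | cons a l ih =>
    cases l with
    | nil => rfl
    | cons b l =>
      simp only [gs]
      rw [ih]
      generalize gs γ (b :: l) = p
      generalize gs δ (b :: l) = q
      generalize γ a b = r
      generalize δ a b = t
      revert p q r t
      decide

/-- The first relation. -/
theorem F1 (hW : Mon W) {h k l : ℕ} (hh : 0 < h) (hk : 0 < k) (hl : 0 < l) (hhk : Sep h k)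
    (hkl : Sep k l) (hs : Stg W (mu k) (la l))
    (hc : C (gg W p) (h + l) = C (gg W p) (h + (k + l))) :
    xor (g2 W p (mu l) (la h) (mu h) (la l)) (g2 W p (mu l) (la h) (mu k) (la l)) =
      xor (xor (tW W (mu h) (la k)) (gs (tW W) (L k)))
        (xor (T2 W p (la h) (mu h) (la k)) (gs (T2 W p (la h)) (L k))) := by
  have h0 := rel hh hk hl hhk hkl hc
  have hlm := la_le_mu hl
  have hkm := la_le_mu hk
  have hhk' : mu h ≤ mu k := by unfold Pool.Agent.H645R2.HT.Sep at hhk; omega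
  have hs2 : Stg W (mu k) (mu l) := hs.mono hW le_rfl hlm
  have e1 : gB W (mu l) (mu h) (la l) = false := by
    rw [gB_true (hs2.mono hW hhk' le_rfl)]
    exact tW_false (hs.mono hW hhk' le_rfl)
  have e2 : gB W (mu l) (mu k) (la l) = false := by
    rw [gB_true hs2]
    exact tW_false hs
  have e3 : gB W (mu l) (mu h) (la k) = tW W (mu h) (la k) := gB_true (hs2.mono hW hhk' le_rfl)
  have e4 : g2 W p (mu l) (la h) (mu h) (la k) = T2 W p (la h) (mu h) (la k) :=
    g2_true' hs2 hhk' hkm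
  have e5 : gs (gg W p (mu l) (la h)) (L k) =
      xor (gs (tW W) (L k)) (gs (T2 W p (la h)) (L k)) := by
    rw [← gs_xor]
    refine gs_congr (L_sorted k).pairwise fun a ha b hb _ => ?_
    have ha' := le_mu ha
    have hb' := le_mu hb
    show xor (gB W (mu l) a b) (g2 W p (mu l) (la h) a b) = _
    rw [gB_true (hs2.mono hW ha' le_rfl), g2_true' hs2 ha' hb']
  have e6 : gg W p (mu l) (la h) (mu h) (la l) = g2 W p (mu l) (la h) (mu h) (la l) := by
    unfold gg; rw [e1, Bool.false_xor]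
  have e7 : gg W p (mu l) (la h) (mu k) (la l) = g2 W p (mu l) (la h) (mu k) (la l) := by
    unfold gg; rw [e2, Bool.false_xor]
  have e8 : gg W p (mu l) (la h) (mu h) (la k) =
      xor (tW W (mu h) (la k)) (T2 W p (la h) (mu h) (la k)) := by
    unfold gg; rw [e3, e4]
  rw [e6, e7, e8, e5] at h0
  revert h0
  generalize g2 W p (mu l) (la h) (mu h) (la l) = a
  generalize g2 W p (mu l) (la h) (mu k) (la l) = b
  generalize tW W (mu h) (la k) = d
  generalize gs (tW W) (L k) = e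
  generalize T2 W p (la h) (mu h) (la k) = f
  generalize gs (T2 W p (la h)) (L k) = g
  revert a b d e f g
  decide

/-- The part of the relation which belongs to `p`. -/
noncomputable def ee (W : ℕ → ℕ → Bool) (p : ℕ → ℕ) (x k m l : ℕ) : Bool :=
  xor (xor (g2 W p (mu l) x (mu k) (la l)) (g2 W p (mu l) x (mu m) (la l)))
    (xor (T2 W p x (mu k) (la m)) (gs (T2 W p x) (L m)))

/-- The relation for `h` and for `k` as the lowest summand. -/
theorem F2 (hW : Mon W) {h k m l : ℕ} (hh : 0 < h) (hk : 0 < k) (hm : 0 < m) (hl : 0 < l)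
    (hhk : Sep h k) (hkm : Sep k m) (hml : Sep m l) (hs : Stg W (mu m) (la l))
    (hc1 : C (gg W p) (h + l) = C (gg W p) (h + (k + l)))
    (hc2 : C (gg W p) (h + l) = C (gg W p) (h + ((k + m) + l)))
    (hc3 : C (gg W p) (k + l) = C (gg W p) (k + (m + l))) :
    ee W p (la h) k m l = xor (tW W (mu k) (la m)) (gs (tW W) (L m)) ∧
      ee W p (la k) k m l = xor (tW W (mu k) (la m)) (gs (tW W) (L m)) := by
  have hkmu : mu k ≤ mu m := by
    have := la_le_mu hm
    unfold Pool.Agent.H645R2.HT.Sep at hkm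
    omega
  have hkl := sep_trans hm hkm hml
  have h1 := F1 hW hh hk hl hhk hkl (hs.mono hW hkmu le_rfl) hc1
  have h2 := F1 hW hh (show 0 < k + m by omega) hl (sep_add_right hk hhk hkm)
    (sep_add_left hm hkm hml) (by rw [mu_add hm hkm]; exact hs) hc2
  have h3 := F1 hW hk hm hl hkm hml hs hc3
  rw [mu_add hm hkm, la_add hk hkm, gs_add hk hm hkm, gs_add hk hm hkm] at h2
  unfold ee
  revert h1 h2 h3
  generalize g2 W p (mu l) (la h) (mu h) (la l) = a1
  generalize g2 W p (mu l) (la h) (mu k) (la l) = a2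
  generalize g2 W p (mu l) (la h) (mu m) (la l) = a3
  generalize g2 W p (mu l) (la k) (mu k) (la l) = a4
  generalize g2 W p (mu l) (la k) (mu m) (la l) = a5
  generalize tW W (mu h) (la k) = b1
  generalize tW W (mu k) (la m) = b2
  generalize gs (tW W) (L k) = b3
  generalize gs (tW W) (L m) = b4
  generalize T2 W p (la h) (mu h) (la k) = d1
  generalize T2 W p (la h) (mu k) (la m) = d2
  generalize T2 W p (la k) (mu k) (la m) = d3
  generalize gs (T2 W p (la h)) (L k) = f1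
  generalize gs (T2 W p (la h)) (L m) = f2
  generalize gs (T2 W p (la k)) (L m) = f3
  intro h1 h2 h3
  constructor
  · revert h1 h2; clear h3
    revert a1 a2 a3 b1 b2 b3 b4 d1 d2 f1 f2
    decide
  · revert h3; clear h1 h2
    revert a4 a5 b2 b4 d3 f3
    decide

/-- A system of representatives of sums. -/
structure Sys (E : Set ℕ) (ν : ℕ → ℕ) (S : ℕ → ℕ → Prop) : Prop where
  pos : ∀ a ∈ E, 0 < ν a
  sep : ∀ a ∈ E, ∀ b ∈ E, S a b → Sep (ν a) (ν b)
  trans : ∀ a ∈ E, ∀ b ∈ E, ∀ c ∈ E, S a b → S b c → S a c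
  ne : E.Nonempty
  far : ∀ a ∈ E, ∀ N, ∃ b ∈ E, S a b ∧ N < la (ν b)

/-- Equality of the colours of chains. -/
structure Hom (E : Set ℕ) (ν : ℕ → ℕ) (S : ℕ → ℕ → Prop) (c : ℕ → Bool) : Prop where
  c3 : ∀ h ∈ E, ∀ k ∈ E, ∀ l ∈ E, S h k → S k l → c (ν h + ν l) = c (ν h + (ν k + ν l))
  c4 : ∀ h ∈ E, ∀ k ∈ E, ∀ m ∈ E, ∀ l ∈ E, S h k → S k m → S m l →
    c (ν h + ν l) = c (ν h + ((ν k + ν m) + ν l))

variable {E : Set ℕ} {ν : ℕ → ℕ} {S : ℕ → ℕ → Prop}

/-- Beyond some element the two parts of the relation separate. -/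
theorem split (hW : Mon W) (hE : Sys E ν S) (hC : Hom E ν S (C (gg W p))) :
    ∃ k0 ∈ E, ∃ N, ∀ k ∈ E, S k0 k → N < la (ν k) → ∀ m ∈ E, S k m →
      Stg W (mu (ν k)) (la (ν m)) ∧
      ∀ l ∈ E, S m l → Stg W (mu (ν m)) (la (ν l)) → ee W p (la (ν k)) (ν k) (ν m) (ν l) = false := by
  obtain ⟨h0, hh0⟩ := hE.ne
  obtain ⟨N0, hN0⟩ := exists_settled (W := W) (p := p) (la (ν h0))
  obtain ⟨k0, hk0, hhk0, hNk0⟩ := hE.far h0 hh0 N0
  obtain ⟨N1, hN1⟩ := exists_stg hW (mu (ν k0))
  -- the two parts are equal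
  have G1 : ∀ k ∈ E, S h0 k → N0 ≤ la (ν k) → ∀ m ∈ E, S k m → ∀ l ∈ E, S m l →
      Stg W (mu (ν m)) (la (ν l)) →
      xor (tW W (mu (ν k)) (la (ν m))) (gs (tW W) (L (ν m))) = false ∧
      ee W p (la (ν k)) (ν k) (ν m) (ν l) = false := by
    intro k hk hhk hNk m hm hkm l hl hml hs
    have s1 := hE.sep _ hh0 _ hk hhk
    have s2 := hE.sep _ hk _ hm hkm
    have s3 := hE.sep _ hm _ hl hml
    have p0 := hE.pos _ hh0
    have p1 := hE.pos _ hk
    have p2 := hE.pos _ hm
    have p3 := hE.pos _ hl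
    have m1 := la_le_mu p1
    have m2 := la_le_mu p2
    have m3 := la_le_mu p3
    obtain ⟨f1, f2⟩ := F2 hW p0 p1 p2 p3 s1 s2 s3 hs
      (hC.c3 _ hh0 _ hk _ hl hhk (hE.trans _ hk _ hm _ hl hkm hml))
      (hC.c4 _ hh0 _ hk _ hm _ hl hhk hkm hml) (hC.c3 _ hk _ hm _ hl hkm hml)
    have s2' := s2
    have s3' := s3
    unfold Pool.Agent.H645R2.HT.Sep at s2' s3'
    have hz : ee W p (la (ν h0)) (ν k) (ν m) (ν l) = false := by
      have q1 : T2 W p (la (ν h0)) (mu (ν k)) (la (ν m)) = false := by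
        rw [T2_false_iff]
        intro y hy
        rw [hN0 _ (by omega) y hy, hN0 _ (by omega) y hy]
      have q2 : gs (T2 W p (la (ν h0))) (L (ν m)) = false := by
        refine gs_false (L_sorted _).pairwise fun a ha b hb _ => ?_
        have := la_le ha
        have := la_le hb
        rw [T2_false_iff]
        intro y hy
        rw [hN0 _ (by omega) y hy, hN0 _ (by omega) y hy]
      have q3 : g2 W p (mu (ν l)) (la (ν h0)) (mu (ν k)) (la (ν l)) =
          g2 W p (mu (ν l)) (la (ν h0)) (mu (ν m)) (la (ν l)) := by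
        have hs2 : Stg W (mu (ν m)) (mu (ν l)) := hs.mono hW le_rfl m3
        rw [Bool.eq_iff_iff]
        unfold g2
        rw [exB_iff, exB_iff]
        refine exists_congr fun y => and_congr_right fun hy => ?_
        have r1 : inA W p (mu (ν l)) (mu (ν k)) y = inA W p (mu (ν l)) (mu (ν m)) y := by
          rw [Bool.eq_iff_iff, inA_true' hs2 (by omega), inA_true' hs2 le_rfl,
            hN0 _ (by omega) y hy, hN0 _ (by omega) y hy]
        rw [r1]
      unfold ee
      rw [q1, q2, q3]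
      simp
    rw [hz] at f1
    refine ⟨f1.symm, ?_⟩
    rw [f2, ← f1]
  have hk0N : N0 ≤ la (ν k0) := hNk0.le
  -- no very short gaps inside
  have G2 : ∀ m ∈ E, S k0 m → N1 ≤ la (ν m) → gs (tW W) (L (ν m)) = false := by
    intro m hm hkm hNm
    obtain ⟨N2, hN2⟩ := exists_stg hW (mu (ν m))
    obtain ⟨l, hl, hml, hNl⟩ := hE.far m hm N2
    have h1 := (G1 k0 hk0 hhk0 hk0N m hm hkm l hl hml (hN2 _ hNl.le)).1
    rw [tW_false (hN1 _ hNm), Bool.false_xor] at h1
    exact h1
  refine ⟨k0, hk0, max N0 N1, fun k hk hkk hNk m hm hkm => ?_⟩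
  have hhk := hE.trans _ hh0 _ hk0 _ hk hhk0 hkk
  have hk0m := hE.trans _ hk0 _ hk _ hm hkk hkm
  have hlt : la (ν k) < la (ν m) := sep_lt (hE.pos _ hk) (hE.sep _ hk _ hm hkm)
  constructor
  · obtain ⟨N2, hN2⟩ := exists_stg hW (mu (ν m))
    obtain ⟨l, hl, hml, hNl⟩ := hE.far m hm N2
    have h1 := (G1 k hk hhk (by omega) m hm hkm l hl hml (hN2 _ hNl.le)).1
    rw [G2 m hm hk0m (by omega), Bool.xor_false] at h1
    exact stg_of_tW h1
  · intro l hl hml hs
    exact (G1 k hk hhk (by omega) m hm hkm l hl hml hs).2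

end Pool.Agent.T2H49.HT
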