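import Pool.Agent.T2H49.HT.Two
import Pool.Agent.H645R2.HT.Univ
import Pool.Agent.TH747.HS.FS

/-!
Solutions of the parity colouring `C (gg W p)` compute the `Σ⁰₂` set `A W p`.
-/

namespace Pool.Agent.T2H49.HT

open Pool.Agent.H645R2.HT Pool.Agent.Helper446 Pool.Agent.Helper446.RE
  Pool.Agent.Helper446.Oracle

variable {W : ℕ → ℕ → Bool} {p : ℕ → ℕ} {E : Set ℕ} {ν : ℕ → ℕ} {S : ℕ → ℕ → Prop}

theorem inA_of_TA {s u y : ℕ} (h : TA W p u y) : inA W p s u y = true := by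
  rw [inA_iff]
  obtain ⟨z, hz, h1, h2⟩ := h
  exact ⟨z, hz, h1, h2 s⟩

theorem g2_false_iff {s x u v : ℕ} :
    g2 W p s x u v = false ↔ ∀ y < x, inA W p s u y = inA W p s v y := by
  rw [← Bool.not_eq_true]
  unfold g2
  rw [exB_iff]
  push Not
  refine forall_congr' fun y => forall_congr' fun _ => ?_
  cases inA W p s u y <;> cases inA W p s v y <;> simp

/-- A positive test certifies that `mu m` is settled. -/
theorem settled_of_rt' (hW : Mon W) (hE : Sys E ν S) {k m : ℕ} (hk : k ∈ E) (hm : m ∈ E)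
    (hkm : S k m) (hee : ∀ l ∈ E, S m l → Stg W (mu (ν m)) (la (ν l)) →
      ee W p (la (ν k)) (ν k) (ν m) (ν l) = false) (hr : rt W p (ν k) (ν m) = true) :
    Settled W p (la (ν k)) (mu (ν m)) := by
  obtain ⟨N, hN⟩ := exists_settled (W := W) (p := p) (la (ν k))
  obtain ⟨N2, hN2⟩ := exists_stg hW (mu (ν m))
  obtain ⟨l, hl, hml, hll⟩ := hE.far m hm (max N N2)
  have h1 := hee l hl hml (hN2 _ (by omega))
  have hs := hN (la (ν l)) (by omega)
  have hst : Stg W (mu (ν m)) (mu (ν l)) :=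
    (hN2 _ (by omega)).mono hW le_rfl (la_le_mu (hE.pos _ hl))
  have hsep := hE.sep _ hk _ hm hkm
  have hmm := la_le_mu (hE.pos _ hm)
  have hkmu : mu (ν k) ≤ mu (ν m) := by unfold Pool.Agent.H645R2.HT.Sep at hsep; omega
  have h2 : xor (xor (g2 W p (mu (ν l)) (la (ν k)) (mu (ν k)) (la (ν l)))
      (g2 W p (mu (ν l)) (la (ν k)) (mu (ν m)) (la (ν l)))) (rt W p (ν k) (ν m)) = false := h1
  rw [hr] at h2
  intro y hy
  refine ⟨TA_A, fun ha => ?_⟩
  have h3 : inA W p (mu (ν l)) (la (ν l)) y = true := inA_of_TA ((hs y hy).2 ha)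
  cases h4 : g2 W p (mu (ν l)) (la (ν k)) (mu (ν m)) (la (ν l))
  · have h5 := g2_false_iff.1 h4 y hy
    rw [h3] at h5
    exact (inA_true' hst le_rfl).1 h5
  · rw [h4] at h2
    have h5 : g2 W p (mu (ν l)) (la (ν k)) (mu (ν k)) (la (ν l)) = false := by
      revert h2
      generalize g2 W p (mu (ν l)) (la (ν k)) (mu (ν k)) (la (ν l)) = a
      revert a
      decide
    have h6 := g2_false_iff.1 h5 y hy
    rw [h3] at h6
    exact TA_mono hkmu ((inA_true' hst hkmu).1 h6)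

/-- If `mu k` is not settled, the test is positive for all far `m`. -/
theorem rt_of_not_settled' {k : ℕ} (hn : ¬ Settled W p (la k) (mu k)) :
    ∃ N, ∀ m, N < la m → rt W p k m = true := by
  obtain ⟨N, hN⟩ := exists_settled (W := W) (p := p) (la k)
  refine ⟨N, fun m hm => ?_⟩
  have h1 : T2 W p (la k) (mu k) (la m) = true := by
    rw [← Bool.not_eq_false, T2_false_iff]
    intro hc
    apply hn
    intro y hy
    rw [hc y hy]
    exact hN _ hm.le y hy
  have h2 : gs (T2 W p (la k)) (L m) = false := by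
    refine gs_false (L_sorted _).pairwise fun a ha b hb _ => ?_
    have := la_le ha
    have := la_le hb
    rw [T2_false_iff]
    intro y hy
    rw [hN _ (by omega) y hy, hN _ (by omega) y hy]
  unfold rt
  rw [h1, h2]
  rfl

theorem rr_eq' {h k l : ℕ} (hk : 0 < k) (hhk : Sep h k) (hs : Stg W (mu k) (mu l)) :
    rr W p h k l = rt W p h k := by
  unfold rr rt
  have h1 := la_le_mu hk
  unfold Pool.Agent.H645R2.HT.Sep at hhk
  rw [g2_true' hs (by omega) (by omega)]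
  congr 1
  refine gs_congr (L_sorted k).pairwise fun a ha b hb _ => ?_
  exact g2_true' hs (le_mu ha) (le_mu hb)

/-- Solutions compute `A`. -/
theorem computes' {X : Set ℕ} (hWc : Computable fun q : ℕ × ℕ => W q.1 q.2)
    (hpc : Computable p) (hW : Mon W) (hE : Sys E ν S) (hC : Hom E ν S (C (gg W p)))
    (rE : REIn X fun a : ℕ => a ∈ E) (rS : REIn X fun q : ℕ × ℕ => S q.1 q.2)
    (hν : Computable ν) :
    REIn X (fun y => A W p y) ∧ REIn X (fun y => ¬ A W p y) := by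
  obtain ⟨k0, hk0, N, hsp⟩ := split (p := p) hW hE hC
  have cν : ∀ {α : Type} [Primcodable α] {f : α → ℕ}, Computable f →
      Computable fun a => ν (f a) := fun hf => hν.comp hf
  by_cases hcase : ∀ M, ∃ h ∈ E, S k0 h ∧ N < la (ν h) ∧ M < la (ν h) ∧
      ¬ Settled W p (la (ν h)) (mu (ν h))
  · -- use positive tests
    have key : ∀ b : Bool, REIn X (fun y => ∃ q : ℕ × ℕ × ℕ, q.1 ∈ E ∧ q.2.1 ∈ E ∧ q.2.2 ∈ E ∧
        S k0 q.1 ∧ S q.1 q.2.1 ∧ S q.2.1 q.2.2 ∧
        (N < la (ν q.1) ∧ y < la (ν q.1) ∧ rr W p (ν q.1) (ν q.2.1) (ν q.2.2) = true ∧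
          inA W p (mu (ν q.2.2)) (mu (ν q.2.1)) y = b)) := by
      intro b
      refine REIn.ex (S := fun y (q : ℕ × ℕ × ℕ) => q.1 ∈ E ∧ q.2.1 ∈ E ∧ q.2.2 ∈ E ∧
        S k0 q.1 ∧ S q.1 q.2.1 ∧ S q.2.1 q.2.2 ∧
        (N < la (ν q.1) ∧ y < la (ν q.1) ∧ rr W p (ν q.1) (ν q.2.1) (ν q.2.2) = true ∧
          inA W p (mu (ν q.2.2)) (mu (ν q.2.1)) y = b)) ?_
      refine (rE.comp (f := fun x : ℕ × ℕ × ℕ × ℕ => x.2.1) (by fun_prop)).and
        ((rE.comp (f := fun x : ℕ × ℕ × ℕ × ℕ => x.2.2.1) (by fun_prop)).and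
        ((rE.comp (f := fun x : ℕ × ℕ × ℕ × ℕ => x.2.2.2) (by fun_prop)).and
        ((rS.comp (f := fun x : ℕ × ℕ × ℕ × ℕ => (k0, x.2.1)) (by fun_prop)).and
        ((rS.comp (f := fun x : ℕ × ℕ × ℕ × ℕ => (x.2.1, x.2.2.1)) (by fun_prop)).and
        ((rS.comp (f := fun x : ℕ × ℕ × ℕ × ℕ => (x.2.2.1, x.2.2.2)) (by fun_prop)).and
        (REIn.of_re ?_))))))
      have n1 : Computable fun x : ℕ × ℕ × ℕ × ℕ => ν x.2.1 := cν (by fun_prop)
      have n2 : Computable fun x : ℕ × ℕ × ℕ × ℕ => ν x.2.2.1 := cν (by fun_prop)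
      have n3 : Computable fun x : ℕ × ℕ × ℕ × ℕ => ν x.2.2.2 := cν (by fun_prop)
      refine RE.and (RE.lt (by fun_prop) (by fun_prop)) (RE.and (RE.lt (by fun_prop)
        (by fun_prop)) (RE.and (RE.eq ?_ (by fun_prop)) (RE.eq ?_ (by fun_prop))))
      · exact c_rr hWc hpc n1 n2 n3
      · exact c_inA hWc hpc (by fun_prop) (by fun_prop) (by fun_prop)
    have snd : ∀ y (q : ℕ × ℕ × ℕ), (q.1 ∈ E ∧ q.2.1 ∈ E ∧ q.2.2 ∈ E ∧
        S k0 q.1 ∧ S q.1 q.2.1 ∧ S q.2.1 q.2.2 ∧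
        (N < la (ν q.1) ∧ y < la (ν q.1) ∧ rr W p (ν q.1) (ν q.2.1) (ν q.2.2) = true)) →
        (inA W p (mu (ν q.2.2)) (mu (ν q.2.1)) y = true ↔ A W p y) := by
      rintro y ⟨k, m, l⟩ ⟨hk, hm, hl, hk0k, hkm, hml, hNk, hy, hr⟩
      dsimp only at *
      have hk0m := hE.trans _ hk0 _ hk _ hm hk0k hkm
      have hlt : la (ν k) < la (ν m) := sep_lt (hE.pos _ hk) (hE.sep _ hk _ hm hkm)
      have hst : Stg W (mu (ν m)) (mu (ν l)) :=
        (hsp m hm hk0m (by omega) l hl hml).1.mono hW le_rfl (la_le_mu (hE.pos _ hl))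
      rw [inA_true' hst le_rfl]
      rw [rr_eq' (hE.pos _ hm) (hE.sep _ hk _ hm hkm) hst] at hr
      exact settled_of_rt' hW hE hk hm hkm (hsp k hk hk0k hNk m hm hkm).2 hr y hy
    have ext : ∀ y, ∃ q : ℕ × ℕ × ℕ, (q.1 ∈ E ∧ q.2.1 ∈ E ∧ q.2.2 ∈ E ∧
        S k0 q.1 ∧ S q.1 q.2.1 ∧ S q.2.1 q.2.2 ∧
        (N < la (ν q.1) ∧ y < la (ν q.1) ∧ rr W p (ν q.1) (ν q.2.1) (ν q.2.2) = true)) := by
      intro y
      obtain ⟨k, hk, hk0k, hNk, hyk, hn⟩ := hcase y
      obtain ⟨N3, hN3⟩ := rt_of_not_settled' hn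
      obtain ⟨m, hm, hkm, hNm⟩ := hE.far k hk N3
      obtain ⟨l, hl, hml, -⟩ := hE.far m hm 0
      have hk0m := hE.trans _ hk0 _ hk _ hm hk0k hkm
      have hlt : la (ν k) < la (ν m) := sep_lt (hE.pos _ hk) (hE.sep _ hk _ hm hkm)
      have hst : Stg W (mu (ν m)) (mu (ν l)) :=
        (hsp m hm hk0m (by omega) l hl hml).1.mono hW le_rfl (la_le_mu (hE.pos _ hl))
      refine ⟨(k, m, l), hk, hm, hl, hk0k, hkm, hml, hNk, hyk, ?_⟩
      dsimp only
      rw [rr_eq' (hE.pos _ hm) (hE.sep _ hk _ hm hkm) hst]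
      exact hN3 _ hNm
    constructor
    · refine (key true).of_eq fun y => ?_
      constructor
      · rintro ⟨q, h1, h2, h3, h4, h5, h6, h7, h8, h9, h10⟩
        exact (snd y q ⟨h1, h2, h3, h4, h5, h6, h7, h8, h9⟩).1 h10
      · intro ha
        obtain ⟨q, h1, h2, h3, h4, h5, h6, h7, h8, h9⟩ := ext y
        exact ⟨q, h1, h2, h3, h4, h5, h6, h7, h8, h9,
          (snd y q ⟨h1, h2, h3, h4, h5, h6, h7, h8, h9⟩).2 ha⟩
    · refine (key false).of_eq fun y => ?_
      constructor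
      · rintro ⟨q, h1, h2, h3, h4, h5, h6, h7, h8, h9, h10⟩ ha
        rw [(snd y q ⟨h1, h2, h3, h4, h5, h6, h7, h8, h9⟩).2 ha] at h10
        cases h10
      · intro ha
        obtain ⟨q, h1, h2, h3, h4, h5, h6, h7, h8, h9⟩ := ext y
        refine ⟨q, h1, h2, h3, h4, h5, h6, h7, h8, h9, ?_⟩
        rw [← Bool.not_eq_true]
        exact fun h => ha ((snd y q ⟨h1, h2, h3, h4, h5, h6, h7, h8, h9⟩).1 h)
  · push Not at hcase
    obtain ⟨M, hM⟩ := hcase
    have key : ∀ b : Bool, REIn X (fun y => ∃ q : ℕ × ℕ, q.1 ∈ E ∧ q.2 ∈ E ∧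
        S k0 q.1 ∧ S q.1 q.2 ∧ (N < la (ν q.1) ∧ M < la (ν q.1) ∧ y < la (ν q.1) ∧
          inA W p (mu (ν q.2)) (mu (ν q.1)) y = b)) := by
      intro b
      refine REIn.ex (S := fun y (q : ℕ × ℕ) => q.1 ∈ E ∧ q.2 ∈ E ∧
        S k0 q.1 ∧ S q.1 q.2 ∧ (N < la (ν q.1) ∧ M < la (ν q.1) ∧ y < la (ν q.1) ∧
          inA W p (mu (ν q.2)) (mu (ν q.1)) y = b)) ?_
      refine (rE.comp (f := fun x : ℕ × ℕ × ℕ => x.2.1) (by fun_prop)).and
        ((rE.comp (f := fun x : ℕ × ℕ × ℕ => x.2.2) (by fun_prop)).and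
        ((rS.comp (f := fun x : ℕ × ℕ × ℕ => (k0, x.2.1)) (by fun_prop)).and
        ((rS.comp (f := fun x : ℕ × ℕ × ℕ => (x.2.1, x.2.2)) (by fun_prop)).and
        (REIn.of_re ?_))))
      have n1 : Computable fun x : ℕ × ℕ × ℕ => ν x.2.1 := cν (by fun_prop)
      have n2 : Computable fun x : ℕ × ℕ × ℕ => ν x.2.2 := cν (by fun_prop)
      refine RE.and (RE.lt (by fun_prop) (by fun_prop)) (RE.and (RE.lt (by fun_prop)
        (by fun_prop)) (RE.and (RE.lt (by fun_prop) (by fun_prop)) (RE.eq ?_ (by fun_prop))))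
      exact c_inA hWc hpc (by fun_prop) (by fun_prop) (by fun_prop)
    have snd : ∀ y (q : ℕ × ℕ), (q.1 ∈ E ∧ q.2 ∈ E ∧
        S k0 q.1 ∧ S q.1 q.2 ∧ (N < la (ν q.1) ∧ M < la (ν q.1) ∧ y < la (ν q.1))) →
        (inA W p (mu (ν q.2)) (mu (ν q.1)) y = true ↔ A W p y) := by
      rintro y ⟨k, m⟩ ⟨hk, hm, hk0k, hkm, hNk, hMk, hy⟩
      dsimp only at *
      have hst : Stg W (mu (ν k)) (mu (ν m)) :=
        (hsp k hk hk0k hNk m hm hkm).1.mono hW le_rfl (la_le_mu (hE.pos _ hm))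
      rw [inA_true' hst le_rfl]
      exact hM k hk hk0k hNk hMk y hy
    have ext : ∀ y, ∃ q : ℕ × ℕ, (q.1 ∈ E ∧ q.2 ∈ E ∧
        S k0 q.1 ∧ S q.1 q.2 ∧ (N < la (ν q.1) ∧ M < la (ν q.1) ∧ y < la (ν q.1))) := by
      intro y
      obtain ⟨k, hk, hk0k, hyk⟩ := hE.far k0 hk0 (max y (max M N))
      obtain ⟨m, hm, hkm, -⟩ := hE.far k hk 0
      exact ⟨(k, m), hk, hm, hk0k, hkm, by dsimp only; omega, by dsimp only; omega,
        by dsimp only; omega⟩
    constructor
    · refine (key true).of_eq fun y => ?_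
      constructor
      · rintro ⟨q, h1, h2, h3, h4, h5, h6, h7, h8⟩
        exact (snd y q ⟨h1, h2, h3, h4, h5, h6, h7⟩).1 h8
      · intro ha
        obtain ⟨q, h1, h2, h3, h4, h5, h6, h7⟩ := ext y
        exact ⟨q, h1, h2, h3, h4, h5, h6, h7,
          (snd y q ⟨h1, h2, h3, h4, h5, h6, h7⟩).2 ha⟩
    · refine (key false).of_eq fun y => ?_
      constructor
      · rintro ⟨q, h1, h2, h3, h4, h5, h6, h7, h8⟩ ha
        rw [(snd y q ⟨h1, h2, h3, h4, h5, h6, h7⟩).2 ha] at h8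
        cases h8
      · intro ha
        obtain ⟨q, h1, h2, h3, h4, h5, h6, h7⟩ := ext y
        refine ⟨q, h1, h2, h3, h4, h5, h6, h7, ?_⟩
        rw [← Bool.not_eq_true]
        exact fun h => ha ((snd y q ⟨h1, h2, h3, h4, h5, h6, h7⟩).1 h)

/-! ### Computability of the colouring -/

theorem c_gB {α : Type*} [Primcodable α] (hW : Computable fun q : ℕ × ℕ => W q.1 q.2)
    {s u v : α → ℕ} (hs : Computable s) (hu : Computable u) (hv : Computable v) :
    Computable fun a => gB W (s a) (u a) (v a) := by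
  unfold gB
  refine computable_exB (q := fun (a : α) z => W (s a) z && !(W (v a) z)) ?_ (by fun_prop)
  unfold Computable₂
  have h1 := hW.comp (g := fun x : α × ℕ => (s x.1, x.2)) (by fun_prop)
  have h2 := hW.comp (g := fun x : α × ℕ => (v x.1, x.2)) (by fun_prop)
  dsimp only at h1 h2
  fun_prop

theorem c_gg (hW : Computable fun q : ℕ × ℕ => W q.1 q.2) (hpc : Computable p) :
    Computable fun n => C (gg W p) n := by
  refine c_C ?_
  unfold gg
  exact c_xor (c_gB hW (by fun_prop) (by fun_prop) (by fun_prop))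
    (c_g2 hW hpc (by fun_prop) (by fun_prop) (by fun_prop) (by fun_prop))

/-! ### The two systems -/

section inst

variable {X : Set ℕ} {c : ℕ → Bool}

/-- Sets which contain multiples of all powers of `3`. -/
theorem sys_id (h0 : 0 ∉ X) (hX : ∀ N, ∃ x ∈ X, 3 ^ N ∣ x) : Sys X id Sep := by
  have hp : ∀ x ∈ X, 0 < x := fun x hx => Nat.pos_of_ne_zero fun h => h0 (h ▸ hx)
  refine ⟨hp, fun a _ b _ h => h, fun a _ b hb c _ h1 h2 => sep_trans (hp b hb) h1 h2, ?_, ?_⟩
  · obtain ⟨x, hx, -⟩ := hX 0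
    exact ⟨x, hx⟩
  · intro a _ N
    obtain ⟨x, hx, hx2⟩ := Pool.Agent.TH747.HS.exists_next h0 hX (max N (mu a))
    refine ⟨x, hx, ?_, ?_⟩
    · unfold Pool.Agent.H645R2.HT.Sep; omega
    · show N < la x; omega

theorem hom_id (h0 : 0 ∉ X) (hc : ∃ i, ∀ F : Finset ℕ, (F : Set ℕ) ⊆ X → 2 ≤ F.card →
    F.card ≤ 4 → c (∑ n ∈ F, n) = i) : Hom X id Sep c := by
  have hp : ∀ x ∈ X, 0 < x := fun x hx => Nat.pos_of_ne_zero fun h => h0 (h ▸ hx)
  obtain ⟨i, hi⟩ := hc
  have two : ∀ h ∈ X, ∀ l ∈ X, Sep h l → c (h + l) = i := by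
    intro h hh l hl hhl
    have hne := sep_ne (hp h hh) hhl
    have := hi {h, l} (by
      intro w hw
      simp only [Finset.coe_insert, Finset.coe_singleton, Set.mem_insert_iff,
        Set.mem_singleton_iff] at hw
      rcases hw with rfl | rfl <;> assumption) (by rw [Finset.card_pair hne])
      (by rw [Finset.card_pair hne]; norm_num)
    rwa [Finset.sum_pair hne] at this
  refine ⟨?_, ?_⟩
  · intro h hh k hk l hl hhk hkl
    have hhl := sep_trans (hp k hk) hhk hkl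
    have n1 := sep_ne (hp h hh) hhk
    have n2 := sep_ne (hp h hh) hhl
    have n3 := sep_ne (hp k hk) hkl
    have h1 : h ∉ ({k, l} : Finset ℕ) := by simp [n1, n2]
    have e : ({h, k, l} : Finset ℕ).card = 3 := by
      rw [Finset.card_insert_of_notMem h1, Finset.card_pair n3]
    have := hi {h, k, l} (by
      intro w hw
      simp only [Finset.coe_insert, Finset.coe_singleton, Set.mem_insert_iff,
        Set.mem_singleton_iff] at hw
      rcases hw with rfl | rfl | rfl <;> assumption) (by rw [e]; norm_num) (by rw [e]; norm_num)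
    rw [Finset.sum_insert h1, Finset.sum_pair n3] at this
    show c (h + l) = c (h + (k + l))
    rw [this, two h hh l hl hhl]
  · intro h hh k hk m hm l hl hhk hkm hml
    have hhm := sep_trans (hp k hk) hhk hkm
    have hhl := sep_trans (hp m hm) hhm hml
    have hkl := sep_trans (hp m hm) hkm hml
    have n1 := sep_ne (hp h hh) hhk
    have n2 := sep_ne (hp h hh) hhm
    have n3 := sep_ne (hp h hh) hhl
    have n4 := sep_ne (hp k hk) hkm
    have n5 := sep_ne (hp k hk) hkl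
    have n6 := sep_ne (hp m hm) hml
    have h1 : h ∉ ({k, m, l} : Finset ℕ) := by simp [n1, n2, n3]
    have h2 : k ∉ ({m, l} : Finset ℕ) := by simp [n4, n5]
    have e : ({h, k, m, l} : Finset ℕ).card = 4 := by
      rw [Finset.card_insert_of_notMem h1, Finset.card_insert_of_notMem h2, Finset.card_pair n6]
    have := hi {h, k, m, l} (by
      intro w hw
      simp only [Finset.coe_insert, Finset.coe_singleton, Set.mem_insert_iff,
        Set.mem_singleton_iff] at hw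
      rcases hw with rfl | rfl | rfl | rfl <;> assumption) (by rw [e]; norm_num)
      (by rw [e])
    rw [Finset.sum_insert h1, Finset.sum_insert h2, Finset.sum_pair n6, ← add_assoc k m l] at this
    show c (h + l) = c (h + ((k + m) + l))
    rw [this, two h hh l hl hhl]

/-- Codes of nonempty finite subsets. -/
def Cd (X : Set ℕ) : Set ℕ := {g | 0 < g ∧ ∀ x ∈ L g, x ∈ X}

/-- The sum of the coded set. -/
def sm (g : ℕ) : ℕ := (L g).sum

/-- The order of the codes: supports and sums are separated. -/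
def So (a b : ℕ) : Prop := Sep a b ∧ Sep (sm a) (sm b)

theorem sm_pos (h0 : 0 ∉ X) {g : ℕ} (hg : g ∈ Cd X) : 0 < sm g := by
  obtain ⟨h1, h2⟩ := hg
  have h3 := la_mem h1
  have h4 : 0 < la g := Nat.pos_of_ne_zero fun h => h0 (h ▸ h2 _ h3)
  exact lt_of_lt_of_le h4 (List.le_sum_of_mem h3)

theorem sys_FS (hinf : X.Infinite) (h0 : 0 ∉ X) : Sys (Cd X) sm So := by
  obtain ⟨U, hU, hUX⟩ := Pool.Agent.TH747.HT.exists_idem hinf
    (fun x hx => Nat.pos_of_ne_zero fun h => h0 (h ▸ hx))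
  have step : ∀ M N : ℕ, ∃ b ∈ Cd X, M < la b ∧ N < la (sm b) := by
    intro M N
    obtain ⟨l, ⟨hl0, hl1⟩, G, g1, g2, g3, rfl⟩ :=
      ((hU.far N).and (hUX (Finset.range (M + 1)))).exists
    obtain ⟨g, hg⟩ := Pool.Agent.TH747.HT.exists_code G
    have hG : (L g).toFinset = G := by
      ext x
      rw [List.mem_toFinset, hg]
    have hg0 : 0 < g := by
      rw [Nat.pos_iff_ne_zero]
      rintro rfl
      obtain ⟨x, hx⟩ := g1
      have := (hg x).2 hx
      simp [L] at this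
    have hs : sm g = ∑ x ∈ G, x := by
      unfold sm
      rw [Pool.Agent.TH747.HT.sum_L, hG]
    refine ⟨g, ⟨hg0, fun x hx => g2 ((hg x).1 hx)⟩, ?_, by rw [hs]; omega⟩
    have h1 := (hg _).1 (la_mem hg0)
    by_contra hc
    exact (Finset.disjoint_left.1 g3 (Finset.mem_range.2 (by omega))) h1
  refine ⟨fun a ha => sm_pos h0 ha, fun a _ b _ h => h.2, ?_, ?_, ?_⟩
  · intro a ha b hb c hc h1 h2
    exact ⟨sep_trans hb.1 h1.1 h2.1, sep_trans (sm_pos h0 hb) h1.2 h2.2⟩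
  · obtain ⟨b, hb, -⟩ := step 0 0
    exact ⟨b, hb⟩
  · intro a ha N
    obtain ⟨b, hb, h1, h2⟩ := step (mu a) (max (mu (sm a)) N)
    exact ⟨b, hb, ⟨h1, by unfold Pool.Agent.H645R2.HT.Sep; omega⟩, by omega⟩

theorem sm_finset (g : ℕ) : sm g = ∑ x ∈ (L g).toFinset, x := Pool.Agent.TH747.HT.sum_L g

theorem disj_of_sep {a b : ℕ} (h : Sep a b) : Disjoint (L a).toFinset (L b).toFinset := by
  rw [Finset.disjoint_left]
  intro x hx hy
  rw [List.mem_toFinset] at hx hy
  have := le_mu hx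
  have := la_le hy
  unfold Pool.Agent.H645R2.HT.Sep at h
  omega

theorem hom_FS (hc : ∃ i, ∀ F : Finset ℕ, (F : Set ℕ) ⊆ X → F.Nonempty →
    c (∑ n ∈ F, n) = i) : Hom (Cd X) sm So c := by
  obtain ⟨i, hi⟩ := hc
  have hsub : ∀ {a : ℕ}, a ∈ Cd X → (((L a).toFinset : Finset ℕ) : Set ℕ) ⊆ X := by
    intro a ha x hx
    rw [Finset.mem_coe, List.mem_toFinset] at hx
    exact ha.2 x hx
  have hne : ∀ {a : ℕ}, a ∈ Cd X → (L a).toFinset.Nonempty := fun {a} ha =>
    ⟨la a, List.mem_toFinset.2 (la_mem ha.1)⟩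
  have two : ∀ h ∈ Cd X, ∀ l ∈ Cd X, So h l → c (sm h + sm l) = i := by
    intro h hh l hl hhl
    rw [sm_finset, sm_finset, ← Finset.sum_union (disj_of_sep hhl.1)]
    refine hi _ ?_ ((hne hh).mono Finset.subset_union_left)
    rw [Finset.coe_union]
    exact Set.union_subset (hsub hh) (hsub hl)
  refine ⟨?_, ?_⟩
  · intro h hh k hk l hl hhk hkl
    have hhl : So h l := ⟨sep_trans hk.1 hhk.1 hkl.1, by
      have h1 := hhk.2
      have h2 := hkl.2
      have h3 : 0 < sm k := by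
        rw [Nat.pos_iff_ne_zero]
        intro h4
        rw [h4] at h1
        unfold Pool.Agent.H645R2.HT.Sep at h1
        have : la 0 = 0 := by simp [la, L]
        omega
      exact sep_trans h3 h1 h2⟩
    rw [two h hh l hl hhl, sm_finset h, sm_finset k, sm_finset l,
      ← Finset.sum_union (disj_of_sep hkl.1), ← Finset.sum_union ?_]
    · refine (hi _ ?_ ((hne hh).mono Finset.subset_union_left)).symm
      rw [Finset.coe_union, Finset.coe_union]
      exact Set.union_subset (hsub hh) (Set.union_subset (hsub hk) (hsub hl))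
    · rw [Finset.disjoint_union_right]
      exact ⟨disj_of_sep hhk.1, disj_of_sep hhl.1⟩
  · intro h hh k hk m hm l hl hhk hkm hml
    have pos : ∀ {a b : ℕ}, So a b → 0 < sm b := by
      intro a b h1
      have h1 := h1.2
      rw [Nat.pos_iff_ne_zero]
      intro h4
      rw [h4] at h1
      unfold Pool.Agent.H645R2.HT.Sep at h1
      have : la 0 = 0 := by simp [la, L]
      omega
    have hhm : So h m := ⟨sep_trans hk.1 hhk.1 hkm.1, sep_trans (pos hhk) hhk.2 hkm.2⟩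
    have hhl : So h l := ⟨sep_trans hm.1 hhm.1 hml.1, sep_trans (pos hhm) hhm.2 hml.2⟩
    have hkl : So k l := ⟨sep_trans hm.1 hkm.1 hml.1, sep_trans (pos hkm) hkm.2 hml.2⟩
    rw [two h hh l hl hhl, sm_finset h, sm_finset k, sm_finset m, sm_finset l,
      ← Finset.sum_union (disj_of_sep hkm.1), ← Finset.sum_union ?_, ← Finset.sum_union ?_]
    · refine (hi _ ?_ ((hne hh).mono Finset.subset_union_left)).symm
      rw [Finset.coe_union, Finset.coe_union, Finset.coe_union]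
      exact Set.union_subset (hsub hh) (Set.union_subset (Set.union_subset (hsub hk) (hsub hm))
        (hsub hl))
    · rw [Finset.disjoint_union_right, Finset.disjoint_union_right]
      exact ⟨⟨disj_of_sep hhk.1, disj_of_sep hhm.1⟩, disj_of_sep hhl.1⟩
    · rw [Finset.disjoint_union_left]
      exact ⟨disj_of_sep hkl.1, disj_of_sep hml.1⟩

theorem c_sm : Computable sm := by
  unfold sm
  exact Pool.Agent.TH747.HT.c_sum (by fun_prop)

theorem re_Cd : REIn X fun a : ℕ => a ∈ Cd X := by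
  have h : REIn X fun a : ℕ => 0 < a ∧ ∀ x ∈ L a, x ∈ X := by
    refine REIn.and (REIn.of_re (RE.lt (by fun_prop) (by fun_prop))) ?_
    exact REIn.all_mem (S := fun (_ : ℕ) (x : ℕ) => x ∈ X) (REIn.mem Computable.snd)
      (by fun_prop)
  exact h

theorem re_So : REIn X fun q : ℕ × ℕ => So q.1 q.2 := by
  refine REIn.of_re ?_
  unfold So Pool.Agent.H645R2.HT.Sep
  have n1 : Computable fun q : ℕ × ℕ => sm q.1 := c_sm.comp (by fun_prop)
  have n2 : Computable fun q : ℕ × ℕ => sm q.2 := c_sm.comp (by fun_prop)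
  exact RE.and (RE.lt (by fun_prop) (by fun_prop)) (RE.lt (by fun_prop) (by fun_prop))

theorem re_Sep : REIn X fun q : ℕ × ℕ => Sep q.1 q.2 := by
  refine REIn.of_re ?_
  unfold Pool.Agent.H645R2.HT.Sep
  exact RE.lt (by fun_prop) (by fun_prop)

end inst

end Pool.Agent.T2H49.HT
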